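import Mathlib

/-!
# The data of a box and the box inequality (pure part)

`BD` collects the data of a good window `x`: `l r t b` say whether the four neighbouring windows are good,
`tl tr bl br` the same for the four diagonal neighbours, `NE NW SE SW` whether the corners are full,
`jNE ..` whether there is a jump, `Rm Rh Rl ..` are the states of the four sides.
`aTl` is the arm value `-1/4 + c/2` at the left end of the top side, and so on.
-/

namespace Prc23s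

open Classical

/-- data of a box -/
structure BD where
  (l r t b tl tr bl br : Prop)
  (NE NW SE SW : Prop)
  (jNE jNW jSE jSW : Prop)
  (Rm Rh Rl Lm Lh Ll Tm Th Tl Bm Bh Bl : Prop)
  (aTl aTr aBl aBr aRd aRu aLd aLu : ℝ)

namespace BD

/-- mirror image, left and right exchanged -/
def mx (d : BD) : BD where
  l := d.r
  r := d.l
  t := d.t
  b := d.b
  tl := d.tr
  tr := d.tl
  bl := d.br
  br := d.bl
  NE := d.NW
  NW := d.NE
  SE := d.SW
  SW := d.SE
  jNE := d.jNW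
  jNW := d.jNE
  jSE := d.jSW
  jSW := d.jSE
  Rm := d.Lm
  Rh := d.Lh
  Rl := d.Ll
  Lm := d.Rm
  Lh := d.Rh
  Ll := d.Rl
  Tm := d.Tm
  Th := d.Tl
  Tl := d.Th
  Bm := d.Bm
  Bh := d.Bl
  Bl := d.Bh
  aTl := d.aTr
  aTr := d.aTl
  aBl := d.aBr
  aBr := d.aBl
  aRd := d.aLd
  aRu := d.aLu
  aLd := d.aRd
  aLu := d.aRu

/-- mirror image, top and bottom exchanged -/
def my (d : BD) : BD where
  l := d.l
  r := d.r
  t := d.b
  b := d.t
  tl := d.bl
  tr := d.br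
  bl := d.tl
  br := d.tr
  NE := d.SE
  NW := d.SW
  SE := d.NE
  SW := d.NW
  jNE := d.jSE
  jNW := d.jSW
  jSE := d.jNE
  jSW := d.jNW
  Rm := d.Rm
  Rh := d.Rl
  Rl := d.Rh
  Lm := d.Lm
  Lh := d.Ll
  Ll := d.Lh
  Tm := d.Bm
  Th := d.Bh
  Tl := d.Bl
  Bm := d.Tm
  Bh := d.Th
  Bl := d.Tl
  aTl := d.aBl
  aTr := d.aBr
  aBl := d.aTl
  aBr := d.aTr
  aRd := d.aRu
  aRu := d.aRd
  aLd := d.aLu
  aLu := d.aLd

/-- transposition -/
def tp (d : BD) : BD where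
  l := d.b
  r := d.t
  t := d.r
  b := d.l
  tl := d.br
  tr := d.tr
  bl := d.bl
  br := d.tl
  NE := d.NE
  NW := d.SE
  SE := d.NW
  SW := d.SW
  jNE := d.jNE
  jNW := d.jSE
  jSE := d.jNW
  jSW := d.jSW
  Rm := d.Tm
  Rh := d.Th
  Rl := d.Tl
  Lm := d.Bm
  Lh := d.Bh
  Ll := d.Bl
  Tm := d.Rm
  Th := d.Rh
  Tl := d.Rl
  Bm := d.Lm
  Bh := d.Lh
  Bl := d.Ll
  aTl := d.aRd
  aTr := d.aRu
  aBl := d.aLd
  aBr := d.aLu
  aRd := d.aTl
  aRu := d.aTr
  aLd := d.aBl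
  aLu := d.aBr

lemma mx_mx (d : BD) : d.mx.mx = d := rfl
lemma my_my (d : BD) : d.my.my = d := rfl
lemma tp_tp (d : BD) : d.tp.tp = d := rfl
lemma mx_my (d : BD) : d.mx.my = d.my.mx := rfl
lemma tp_mx (d : BD) : d.tp.mx = d.my.tp := rfl
lemma tp_my (d : BD) : d.tp.my = d.mx.tp := rfl

/-- the facts about the box; `two` is `m = 2` -/
structure Facts (two : Prop) (d : BD) : Prop where
  cR : d.Rm ∨ d.Rh ∨ d.Rl
  cL : d.Lm ∨ d.Lh ∨ d.Ll
  cT : d.Tm ∨ d.Th ∨ d.Tl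
  cB : d.Bm ∨ d.Bh ∨ d.Bl
  eR : d.r → d.Rm
  eL : d.l → d.Lm
  eT : d.t → d.Tm
  eB : d.b → d.Bm
  f1 : d.Rm → d.NE
  f2 : d.Rm → d.SE
  f3 : d.Lm → d.NW
  f4 : d.Lm → d.SW
  f5 : d.Tm → d.NE
  f6 : d.Tm → d.NW
  f7 : d.Bm → d.SE
  f8 : d.Bm → d.SW
  g1 : d.Rh → d.Th → d.NE
  g2 : d.Rl → d.Bh → d.SE
  g3 : d.Lh → d.Tl → d.NW
  g4 : d.Ll → d.Bl → d.SW
  j1 : d.jNE → ¬ d.r ∧ ¬ d.t ∧ ¬ d.Rh ∧ ¬ d.Th
  j2 : d.jNW → ¬ d.l ∧ ¬ d.t ∧ ¬ d.Lh ∧ ¬ d.Tl
  j3 : d.jSE → ¬ d.r ∧ ¬ d.b ∧ ¬ d.Rl ∧ ¬ d.Bh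
  j4 : d.jSW → ¬ d.l ∧ ¬ d.b ∧ ¬ d.Ll ∧ ¬ d.Bl
  k1 : two → d.jNE → d.tr
  k2 : two → d.jNW → d.tl
  k3 : two → d.jSE → d.br
  k4 : two → d.jSW → d.bl
  gT : d.tl → d.tr → d.t
  gB : d.bl → d.br → d.b
  gL : d.tl → d.bl → d.l
  gR : d.tr → d.br → d.r
  bTl : d.l → d.tl → d.Tl → 1 / 4 ≤ d.aTl
  bTr : d.r → d.tr → d.Th → 1 / 4 ≤ d.aTr
  bBl : d.l → d.bl → d.Bl → 1 / 4 ≤ d.aBl
  bBr : d.r → d.br → d.Bh → 1 / 4 ≤ d.aBr
  bRd : d.b → d.br → d.Rl → 1 / 4 ≤ d.aRd
  bRu : d.t → d.tr → d.Rh → 1 / 4 ≤ d.aRu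
  bLd : d.b → d.bl → d.Ll → 1 / 4 ≤ d.aLd
  bLu : d.t → d.tl → d.Lh → 1 / 4 ≤ d.aLu
  nTl : d.l → - (1 / 4) ≤ d.aTl
  nTr : d.r → - (1 / 4) ≤ d.aTr
  nBl : d.l → - (1 / 4) ≤ d.aBl
  nBr : d.r → - (1 / 4) ≤ d.aBr
  nRd : d.b → - (1 / 4) ≤ d.aRd
  nRu : d.t → - (1 / 4) ≤ d.aRu
  nLd : d.b → - (1 / 4) ≤ d.aLd
  nLu : d.t → - (1 / 4) ≤ d.aLu
  sl : d.aTl + d.aBl = 0
  sr : d.aTr + d.aBr = 0
  sd : d.aRd + d.aLd = 0
  su : d.aRu + d.aLu = 0

lemma Facts.mx {two : Prop} {d : BD} (F : Facts two d) : Facts two d.mx where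
  cR := F.cL
  cL := F.cR
  cT := F.cT.imp id Or.symm
  cB := F.cB.imp id Or.symm
  eR := F.eL
  eL := F.eR
  eT := F.eT
  eB := F.eB
  f1 := F.f3
  f2 := F.f4
  f3 := F.f1
  f4 := F.f2
  f5 := F.f6
  f6 := F.f5
  f7 := F.f8
  f8 := F.f7
  g1 := F.g3
  g2 := F.g4
  g3 := F.g1
  g4 := F.g2
  j1 := F.j2
  j2 := F.j1
  j3 := F.j4
  j4 := F.j3
  k1 := F.k2
  k2 := F.k1
  k3 := F.k4
  k4 := F.k3
  gT := fun x y => F.gT y x
  gB := fun x y => F.gB y x
  gL := F.gR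
  gR := F.gL
  bTl := F.bTr
  bTr := F.bTl
  bBl := F.bBr
  bBr := F.bBl
  bRd := F.bLd
  bRu := F.bLu
  bLd := F.bRd
  bLu := F.bRu
  nTl := F.nTr
  nTr := F.nTl
  nBl := F.nBr
  nBr := F.nBl
  nRd := F.nLd
  nRu := F.nLu
  nLd := F.nRd
  nLu := F.nRu
  sl := F.sr
  sr := F.sl
  sd := by rw [add_comm]; exact F.sd
  su := by rw [add_comm]; exact F.su

lemma Facts.my {two : Prop} {d : BD} (F : Facts two d) : Facts two d.my where
  cR := F.cR.imp id Or.symm
  cL := F.cL.imp id Or.symm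
  cT := F.cB
  cB := F.cT
  eR := F.eR
  eL := F.eL
  eT := F.eB
  eB := F.eT
  f1 := F.f2
  f2 := F.f1
  f3 := F.f4
  f4 := F.f3
  f5 := F.f7
  f6 := F.f8
  f7 := F.f5
  f8 := F.f6
  g1 := F.g2
  g2 := F.g1
  g3 := F.g4
  g4 := F.g3
  j1 := F.j3
  j2 := F.j4
  j3 := F.j1
  j4 := F.j2
  k1 := F.k3
  k2 := F.k4
  k3 := F.k1
  k4 := F.k2
  gT := F.gB
  gB := F.gT
  gL := fun x y => F.gL y x
  gR := fun x y => F.gR y x
  bTl := F.bBl
  bTr := F.bBr
  bBl := F.bTl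
  bBr := F.bTr
  bRd := F.bRu
  bRu := F.bRd
  bLd := F.bLu
  bLu := F.bLd
  nTl := F.nBl
  nTr := F.nBr
  nBl := F.nTl
  nBr := F.nTr
  nRd := F.nRu
  nRu := F.nRd
  nLd := F.nLu
  nLu := F.nLd
  sl := by rw [add_comm]; exact F.sl
  sr := by rw [add_comm]; exact F.sr
  sd := F.su
  su := F.sd

lemma Facts.tp {two : Prop} {d : BD} (F : Facts two d) : Facts two d.tp where
  cR := F.cT
  cL := F.cB
  cT := F.cR
  cB := F.cL
  eR := F.eT
  eL := F.eB
  eT := F.eR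
  eB := F.eL
  f1 := F.f5
  f2 := F.f6
  f3 := F.f7
  f4 := F.f8
  f5 := F.f1
  f6 := F.f2
  f7 := F.f3
  f8 := F.f4
  g1 := fun x y => F.g1 y x
  g2 := fun x y => F.g3 y x
  g3 := fun x y => F.g2 y x
  g4 := fun x y => F.g4 y x
  j1 := fun x => ⟨(F.j1 x).2.1, (F.j1 x).1, (F.j1 x).2.2.2, (F.j1 x).2.2.1⟩
  j2 := fun x => ⟨(F.j3 x).2.1, (F.j3 x).1, (F.j3 x).2.2.2, (F.j3 x).2.2.1⟩
  j3 := fun x => ⟨(F.j2 x).2.1, (F.j2 x).1, (F.j2 x).2.2.2, (F.j2 x).2.2.1⟩
  j4 := fun x => ⟨(F.j4 x).2.1, (F.j4 x).1, (F.j4 x).2.2.2, (F.j4 x).2.2.1⟩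
  k1 := F.k1
  k2 := F.k3
  k3 := F.k2
  k4 := F.k4
  gT := fun x y => F.gR y x
  gB := fun x y => F.gL y x
  gL := fun x y => F.gB y x
  gR := fun x y => F.gT y x
  bTl := F.bRd
  bTr := F.bRu
  bBl := F.bLd
  bBr := F.bLu
  bRd := F.bTl
  bRu := F.bTr
  bLd := F.bBl
  bLu := F.bBr
  nTl := F.nRd
  nTr := F.nRu
  nBl := F.nLd
  nBr := F.nLu
  nRd := F.nTl
  nRu := F.nTr
  nLd := F.nBl
  nLu := F.nBr
  sl := F.sd
  sr := F.su
  sd := F.sl
  su := F.sr

/-- the request of the flat vertex at the left end of the top side -/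
noncomputable def req (d : BD) : ℝ :=
  if d.r then (if d.tr then max 0 (- d.aTr) else 0)
  else if d.NE then 0
  else if d.jNE then 1 / 4
  else if d.b then (if d.br then max 0 (- d.aRd) else 0)
  else if d.SE then 0
  else if d.jSE then 1 / 4
  else (if d.bl then max 0 (- d.aBl) else 0)

/-- what the box receives from the left end of the top side -/
noncomputable def val (d : BD) : ℝ :=
  if ¬ d.t ∧ d.l then (if d.tl then d.aTl else req d) else 0

/-- what the box receives from a free north east corner -/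
noncomputable def sup (two : Prop) (d : BD) : ℝ :=
  if ¬ d.r ∧ ¬ d.t ∧ d.NE then (if ¬ two ∧ ¬ d.tr then 1 else 1 / 2) else 0

/-- what the box receives from its north east vertex -/
noncomputable def cor (two : Prop) (d : BD) : ℝ := sup two d + val d.mx + val d.tp.mx

/-- what the box receives -/
noncomputable def rec4 (two : Prop) (d : BD) : ℝ :=
  cor two d + cor two d.mx + cor two d.my + cor two d.mx.my

variable {two : Prop} {d : BD}

lemma req_nonneg (d : BD) : 0 ≤ req d := by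
  unfold req
  split_ifs <;> first | exact le_max_left _ _ | norm_num

lemma req_le (F : Facts two d) (hl : d.l) : req d ≤ 1 / 4 := by
  unfold req
  split_ifs with h1 h2 h3 h4 h5 h6 h7 h8 h9
  · exact max_le (by norm_num) (by linarith [F.nTr h1])
  · norm_num
  · norm_num
  · norm_num
  · exact max_le (by norm_num) (by linarith [F.nRd h5])
  · norm_num
  · norm_num
  · norm_num
  · exact max_le (by norm_num) (by linarith [F.nBl hl])
  · norm_num

/-- a request of the flat vertex at the left end of the top side, which does not come from the side itself -/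
lemma req_state (F : Facts two d) (hl : d.l) (hr : ¬ d.r) (h0 : 0 < req d) :
    d.Tl ∧ ¬ d.Th ∧ ¬ d.Tm := by
  have hNE : ¬ d.NE := by
    intro hNE
    unfold req at h0
    simp [hr, hNE] at h0
  have a1 : ¬ d.Rm := fun h => hNE (F.f1 h)
  have a2 : ¬ d.Tm := fun h => hNE (F.f5 h)
  have a3 : d.Rh → ¬ d.Th := fun h h' => hNE (F.g1 h h')
  by_cases hj : d.jNE
  · have := F.j1 hj
    have hT := F.cT
    tauto
  by_cases hb : d.b
  · by_cases hbr : d.br
    · have h1 : d.aRd < 0 := by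
        unfold req at h0
        simp only [hr, hNE, hj, hb, hbr, if_true, if_false] at h0
        by_contra hc
        push Not at hc
        rw [max_eq_left (by linarith)] at h0
        exact lt_irrefl _ h0
      have h2 : ¬ d.Rl := by
        intro h3
        have := F.bRd hb hbr h3
        linarith
      have hT := F.cT
      have hR := F.cR
      tauto
    · exfalso
      unfold req at h0
      simp [hr, hNE, hj, hb, hbr] at h0
  by_cases hSE : d.SE
  · exfalso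
    unfold req at h0
    simp [hr, hNE, hj, hb, hSE] at h0
  have b1 : ¬ d.Bm := fun h => hSE (F.f7 h)
  have b3 : d.Rl → ¬ d.Bh := fun h h' => hSE (F.g2 h h')
  by_cases hj' : d.jSE
  · have := F.j3 hj'
    have hT := F.cT
    have hR := F.cR
    tauto
  by_cases hbl : d.bl
  · have h1 : d.aBl < 0 := by
      unfold req at h0
      simp only [hr, hNE, hj, hb, hSE, hj', hbl, if_true, if_false] at h0
      by_contra hc
      push Not at hc
      rw [max_eq_left (by linarith)] at h0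
      exact lt_irrefl _ h0
    have h2 : ¬ d.Bl := by
      intro h3
      have := F.bBl hl hbl h3
      linarith
    have hT := F.cT
    have hR := F.cR
    have hB := F.cB
    tauto
  · exfalso
    unfold req at h0
    simp [hr, hNE, hj, hb, hSE, hj', hbl] at h0

/-- the sides -/
lemma val_of_t (ht : d.t) : val d = 0 := by simp [val, ht]

lemma val_of_not_l (hl : ¬ d.l) : val d = 0 := by simp [val, hl]

lemma val_L (ht : ¬ d.t) (hl : d.l) (htl : d.tl) : val d = d.aTl := by simp [val, ht, hl, htl]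

lemma val_flat (ht : ¬ d.t) (hl : d.l) (htl : ¬ d.tl) : val d = req d := by simp [val, ht, hl, htl]

lemma val_ge (F : Facts two d) : - (1 / 4) ≤ val d := by
  unfold val
  split_ifs with h1 h2
  · exact F.nTl h1.2
  · linarith [req_nonneg d]
  · norm_num

/-- with the state `Tl` the arm is not a deficit -/
lemma val_nonneg_of_Tl (F : Facts two d) (h : d.Tl) : 0 ≤ val d := by
  unfold val
  split_ifs with h1 h2
  · linarith [F.bTl h1.2 h2 h]
  · exact req_nonneg d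
  · exact le_rfl

/-- side with two good lateral neighbours -/
lemma side2 (F : Facts two d) (hl : d.l) (hr : d.r) : 0 ≤ val d + val d.mx := by
  by_cases ht : d.t
  · rw [val_of_t ht, val_of_t (d := d.mx) ht]
    norm_num
  by_cases h1 : d.tl
  · by_cases h2 : d.tr
    · exact absurd (F.gT h1 h2) ht
    · rw [val_L ht hl h1, val_flat (d := d.mx) ht hr h2]
      have h3 : req d.mx = max 0 (- d.aTl) := by
        have e1 : d.mx.r := hl
        have e2 : d.mx.tr := h1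
        unfold req
        rw [if_pos e1, if_pos e2]
        rfl
      rw [h3]
      linarith [le_max_right 0 (- d.aTl)]
  · rw [val_flat ht hl h1]
    by_cases h2 : d.tr
    · rw [val_L (d := d.mx) ht hr h2]
      have h3 : req d = max 0 (- d.aTr) := by
        unfold req
        rw [if_pos hr, if_pos h2]
      rw [h3]
      have h4 : d.mx.aTl = d.aTr := rfl
      rw [h4]
      linarith [le_max_right 0 (- d.aTr)]
    · rw [val_flat (d := d.mx) ht hr h2]
      linarith [req_nonneg d, req_nonneg d.mx]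

end BD

end Prc23s
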