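import Pool.Agent.Prc23s.BD

/-!
# The box inequality

A good window receives at least half of the number of its jump ends.
-/

namespace Prc23s

open Classical

namespace BD

variable {two : Prop} {d : BD}

/-- half of the number of jumps -/
noncomputable def jj (d : BD) : ℝ :=
  (if d.jNE then 1 / 2 else 0) + (if d.jNW then 1 / 2 else 0) +
    (if d.jSE then 1 / 2 else 0) + (if d.jSW then 1 / 2 else 0)

lemma jj_mx (d : BD) : jj d.mx = jj d := by
  unfold jj
  simp only [mx]
  ring_nf

lemma jj_my (d : BD) : jj d.my = jj d := by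
  unfold jj
  simp only [my]
  ring_nf

lemma jj_tp (d : BD) : jj d.tp = jj d := by
  unfold jj
  simp only [tp]
  ring_nf

lemma sup_tp (d : BD) : sup two d.tp = sup two d := by
  have h : (¬ d.tp.r ∧ ¬ d.tp.t ∧ d.tp.NE) = (¬ d.r ∧ ¬ d.t ∧ d.NE) := by
    simp only [tp]
    apply propext
    tauto
  have h2 : d.tp.tr = d.tr := rfl
  unfold sup
  rw [h2]
  simp only [h]

lemma rec4_eq (d : BD) : rec4 two d =
    (sup two d + sup two d.mx + sup two d.my + sup two d.mx.my) + (val d + val d.mx) +
      (val d.my + val d.my.mx) + (val d.tp + val d.tp.mx) + (val d.tp.my + val d.tp.my.mx) := by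
  unfold rec4 cor
  have e1 : d.mx.mx = d := rfl
  have e2 : d.mx.tp.mx = d.tp.my.mx := rfl
  have e3 : d.my.tp.mx = d.tp := rfl
  have e4 : d.mx.my.mx = d.my := rfl
  have e5 : d.mx.my.tp.mx = d.tp.my := rfl
  rw [e1, e2, e3, e4, e5]
  ring

lemma rec4_mx (d : BD) : rec4 two d.mx = rec4 two d := by
  unfold rec4
  have e1 : d.mx.mx = d := rfl
  have e2 : d.mx.mx.my = d.my := rfl
  rw [e1]
  ring

lemma rec4_my (d : BD) : rec4 two d.my = rec4 two d := by
  unfold rec4
  have e1 : d.my.my = d := rfl
  have e2 : d.my.mx = d.mx.my := rfl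
  have e3 : d.my.mx.my = d.mx := rfl
  rw [e1, e2]
  have e4 : d.mx.my.my = d.mx := rfl
  rw [e4]
  ring

lemma cor_tp (d : BD) : cor two d.tp = cor two d := by
  unfold cor
  rw [sup_tp]
  have e1 : d.tp.tp = d := rfl
  rw [e1]
  ring

lemma rec4_tp (d : BD) : rec4 two d.tp = rec4 two d := by
  unfold rec4
  have e1 : d.tp.mx = d.my.tp := rfl
  have e2 : d.tp.my = d.mx.tp := rfl
  have e3 : d.my.tp.my = d.mx.my.tp := rfl
  rw [e1, e2, e3, cor_tp, cor_tp, cor_tp, cor_tp]
  ring

lemma sup_nonneg (d : BD) : 0 ≤ sup two d := by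
  unfold sup
  split_ifs <;> norm_num

lemma sup_ge (hr : ¬ d.r) (ht : ¬ d.t) (h : d.NE) : 1 / 2 ≤ sup two d := by
  unfold sup
  rw [if_pos ⟨hr, ht, h⟩]
  split_ifs <;> norm_num

lemma sup_ge' (hr : ¬ d.r) (ht : ¬ d.t) (h : d.NE) (h2 : ¬ two) (h3 : ¬ d.tr) : 1 ≤ sup two d := by
  unfold sup
  rw [if_pos ⟨hr, ht, h⟩, if_pos ⟨h2, h3⟩]

/-- left and right good -/
lemma box_lr (F : Facts two d) (hl : d.l) (hr : d.r) : jj d ≤ rec4 two d := by
  have h1 : ¬ d.jNE := fun h => (F.j1 h).1 hr
  have h2 : ¬ d.jNW := fun h => (F.j2 h).1 hl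
  have h3 : ¬ d.jSE := fun h => (F.j3 h).1 hr
  have h4 : ¬ d.jSW := fun h => (F.j4 h).1 hl
  have e : jj d = 0 := by simp [jj, h1, h2, h3, h4]
  rw [e, rec4_eq]
  have s1 := side2 F hl hr
  have s2 := side2 F.my (d := d.my) hl hr
  have s3 : val d.tp = 0 := val_of_t (d := d.tp) hr
  have s4 : val d.tp.mx = 0 := val_of_t (d := d.tp.mx) hr
  have s5 : val d.tp.my = 0 := val_of_t (d := d.tp.my) hl
  have s6 : val d.tp.my.mx = 0 := val_of_t (d := d.tp.my.mx) hl
  linarith [sup_nonneg (two := two) d, sup_nonneg (two := two) d.mx, sup_nonneg (two := two) d.my,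
    sup_nonneg (two := two) d.mx.my]

/-- left and bottom good, right and top missing -/
lemma box_lb (F : Facts two d) (hl : d.l) (hb : d.b) (hr : ¬ d.r) (ht : ¬ d.t) :
    jj d ≤ rec4 two d := by
  have h2 : ¬ d.jNW := fun h => (F.j2 h).1 hl
  have h3 : ¬ d.jSE := fun h => (F.j3 h).2.1 hb
  have h4 : ¬ d.jSW := fun h => (F.j4 h).1 hl
  have e : jj d = if d.jNE then 1 / 2 else 0 := by simp [jj, h2, h3, h4]
  rw [e, rec4_eq]
  -- the flags which vanish
  have v1 : val d.mx = 0 := val_of_not_l (d := d.mx) hr
  have v2 : val d.my = 0 := val_of_t (d := d.my) hb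
  have v3 : val d.my.mx = 0 := val_of_t (d := d.my.mx) hb
  have v4 : val d.tp.mx = 0 := val_of_not_l (d := d.tp.mx) ht
  have v5 : val d.tp.my = 0 := val_of_t (d := d.tp.my) hl
  have v6 : val d.tp.my.mx = 0 := val_of_t (d := d.tp.my.mx) hl
  have p1 := sup_nonneg (two := two) d.mx
  have p2 := sup_nonneg (two := two) d.my
  have p3 := sup_nonneg (two := two) d.mx.my
  have g1 := val_ge F
  have g2 := val_ge F.tp
  by_cases hNE : d.NE
  · have s0 := sup_ge (two := two) hr ht hNE
    by_cases hj : d.jNE
    · rw [if_pos hj]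
      by_cases h2' : two
      · have htr := F.k1 h2' hj
        have n1 : ¬ d.tl := fun h => ht (F.gT h htr)
        have n2 : ¬ d.br := fun h => hr (F.gR htr h)
        have w1 : val d = req d := val_flat ht hl n1
        have w2 : val d.tp = req d.tp := val_flat (d := d.tp) hr hb n2
        linarith [req_nonneg d, req_nonneg d.tp]
      · by_cases htl : d.tl
        · have ntr : ¬ d.tr := fun h => ht (F.gT htl h)
          have s1 := sup_ge' (two := two) hr ht hNE h2' ntr
          linarith
        · have w1 : val d = req d := val_flat ht hl htl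
          by_cases hbr : d.br
          · have ntr : ¬ d.tr := fun h => hr (F.gR h hbr)
            have s1 := sup_ge' (two := two) hr ht hNE h2' ntr
            linarith
          · have w2 : val d.tp = req d.tp := val_flat (d := d.tp) hr hb hbr
            linarith [req_nonneg d, req_nonneg d.tp]
    · rw [if_neg hj]
      linarith
  · have a1 : ¬ d.Rm := fun h => hNE (F.f1 h)
    have a2 : ¬ d.Tm := fun h => hNE (F.f5 h)
    have a3 : d.Rh → ¬ d.Th := fun h h' => hNE (F.g1 h h')
    have s0 := sup_nonneg (two := two) d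
    have hT := F.cT
    have hR := F.cR
    by_cases hj : d.jNE
    · rw [if_pos hj]
      have hj1 := F.j1 hj
      have hTl : d.Tl := by tauto
      have hRl : d.Rl := by tauto
      have w1 : 1 / 4 ≤ val d := by
        by_cases htl : d.tl
        · rw [val_L ht hl htl]
          exact F.bTl hl htl hTl
        · rw [val_flat ht hl htl]
          unfold req
          rw [if_neg hr, if_neg hNE, if_pos hj]
      have w2 : 1 / 4 ≤ val d.tp := by
        by_cases hbr : d.br
        · rw [val_L (d := d.tp) hr hb hbr]
          exact F.bRd hb hbr hRl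
        · rw [val_flat (d := d.tp) hr hb hbr]
          have e1 : ¬ d.tp.r := ht
          have e2 : ¬ d.tp.NE := hNE
          have e3 : d.tp.jNE := hj
          unfold req
          rw [if_neg e1, if_neg e2, if_pos e3]
      linarith
    · rw [if_neg hj]
      -- the request of the other side
      by_cases htl : d.tl
      · by_cases hTl : d.Tl
        · -- the top arm is not a deficit
          have w1 := F.bTl hl htl hTl
          rw [← val_L ht hl htl] at w1
          linarith
        · have hRl : d.Rl := by tauto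
          by_cases hbr : d.br
          · have w2 := F.bRd hb hbr hRl
            have w3 : val d.tp = d.aRd := val_L (d := d.tp) hr hb hbr
            linarith
          · have w2 : val d.tp = req d.tp := val_flat (d := d.tp) hr hb hbr
            have w3 : req d.tp = max 0 (- d.aTl) := by
              have e1 : ¬ d.tp.r := ht
              have e2 : ¬ d.tp.NE := hNE
              have e3 : ¬ d.tp.jNE := hj
              have e4 : d.tp.b := hl
              have e5 : d.tp.br := htl
              unfold req
              rw [if_neg e1, if_neg e2, if_neg e3, if_pos e4, if_pos e5]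
              rfl
            have w1 := val_L ht hl htl
            linarith [le_max_right 0 (- d.aTl)]
      · have w1 : val d = req d := val_flat ht hl htl
        by_cases hbr : d.br
        · have w2 : val d.tp = d.aRd := val_L (d := d.tp) hr hb hbr
          have w3 : req d = max 0 (- d.aRd) := by
            unfold req
            rw [if_neg hr, if_neg hNE, if_neg hj, if_pos hb, if_pos hbr]
          linarith [le_max_right 0 (- d.aRd)]
        · have w2 : val d.tp = req d.tp := val_flat (d := d.tp) hr hb hbr
          linarith [req_nonneg d, req_nonneg d.tp]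

/-- only left good: one corner full, the other one not -/
private lemma box_l1 (F : Facts two d) (hl : d.l) (hb : ¬ d.b) (hr : ¬ d.r) (ht : ¬ d.t)
    (hNE : d.NE) (hSE : ¬ d.SE) :
    (if d.jNE then 1 / 2 else 0) + (if d.jSE then 1 / 2 else 0) ≤ sup two d + val d + val d.my := by
  have b1 : ¬ d.Bm := fun h => hSE (F.f7 h)
  have b2 : ¬ d.Rm := fun h => hSE (F.f2 h)
  have b3 : d.Rl → ¬ d.Bh := fun h h' => hSE (F.g2 h h')
  have hR := F.cR
  have hB := F.cB
  have s0 := sup_ge (two := two) hr ht hNE
  have g1 := val_ge F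
  have g2 := val_ge F.my
  by_cases hj : d.jNE
  · have hj1 := F.j1 hj
    have hRl : d.Rl := by tauto
    have hBl : d.Bl := by tauto
    have hj2 : ¬ d.jSE := fun h => (F.j3 h).2.2.1 hRl
    rw [if_pos hj, if_neg hj2]
    have w2 : 0 ≤ val d.my := val_nonneg_of_Tl F.my hBl
    by_cases htl : d.tl
    · by_cases h2' : two
      · exact absurd (F.gT htl (F.k1 h2' hj)) ht
      · have ntr : ¬ d.tr := fun h => ht (F.gT htl h)
        have s1 := sup_ge' (two := two) hr ht hNE h2' ntr
        linarith
    · have w1 : val d = req d := val_flat ht hl htl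
      linarith [req_nonneg d]
  · rw [if_neg hj]
    by_cases hj2 : d.jSE
    · rw [if_pos hj2]
      have hj3 := F.j3 hj2
      have hBl : d.Bl := by tauto
      have w2 : 1 / 4 ≤ val d.my := by
        by_cases hbl : d.bl
        · rw [val_L (d := d.my) hb hl hbl]
          exact F.bBl hl hbl hBl
        · rw [val_flat (d := d.my) hb hl hbl]
          have e1 : ¬ d.my.r := hr
          have e2 : ¬ d.my.NE := hSE
          have e3 : d.my.jNE := hj2
          unfold req
          rw [if_neg e1, if_neg e2, if_pos e3]
      linarith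
    · rw [if_neg hj2]
      linarith

/-- only left good: no corner full, right neighbours low -/
private lemma box_l0 (F : Facts two d) (hl : d.l) (hb : ¬ d.b) (hr : ¬ d.r) (ht : ¬ d.t)
    (hNE : ¬ d.NE) (hSE : ¬ d.SE) (hRl : d.Rl) :
    (if d.jNE then 1 / 2 else 0) + (if d.jSE then 1 / 2 else 0) ≤ val d + val d.my := by
  have b1 : ¬ d.Bm := fun h => hSE (F.f7 h)
  have b3 : d.Rl → ¬ d.Bh := fun h h' => hSE (F.g2 h h')
  have hT := F.cT
  have hB := F.cB
  have hBl : d.Bl := by tauto
  have hj2 : ¬ d.jSE := fun h => (F.j3 h).2.2.1 hRl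
  rw [if_neg hj2]
  by_cases hj : d.jNE
  · rw [if_pos hj]
    have hj1 := F.j1 hj
    have a2 : ¬ d.Tm := fun h => hNE (F.f5 h)
    have hTl : d.Tl := by tauto
    have w1 : 1 / 4 ≤ val d := by
      by_cases htl : d.tl
      · rw [val_L ht hl htl]
        exact F.bTl hl htl hTl
      · rw [val_flat ht hl htl]
        unfold req
        rw [if_neg hr, if_neg hNE, if_pos hj]
    have w2 : 1 / 4 ≤ val d.my := by
      by_cases hbl : d.bl
      · rw [val_L (d := d.my) hb hl hbl]
        exact F.bBl hl hbl hBl
      · rw [val_flat (d := d.my) hb hl hbl]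
        have e1 : ¬ d.my.r := hr
        have e2 : ¬ d.my.NE := hSE
        have e3 : ¬ d.my.jNE := hj2
        have e4 : ¬ d.my.b := ht
        have e5 : ¬ d.my.SE := hNE
        have e6 : d.my.jSE := hj
        unfold req
        rw [if_neg e1, if_neg e2, if_neg e3, if_neg e4, if_neg e5, if_pos e6]
    linarith
  · rw [if_neg hj]
    by_cases htl : d.tl
    · have w1 := val_L ht hl htl
      by_cases hbl : d.bl
      · have w2 := F.bBl hl hbl hBl
        have w3 : val d.my = d.aBl := val_L (d := d.my) hb hl hbl
        linarith [F.nTl hl]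
      · have w2 : val d.my = req d.my := val_flat (d := d.my) hb hl hbl
        have w3 : req d.my = max 0 (- d.aTl) := by
          have e1 : ¬ d.my.r := hr
          have e2 : ¬ d.my.NE := hSE
          have e3 : ¬ d.my.jNE := hj2
          have e4 : ¬ d.my.b := ht
          have e5 : ¬ d.my.SE := hNE
          have e6 : ¬ d.my.jSE := hj
          have e7 : d.my.bl := htl
          unfold req
          rw [if_neg e1, if_neg e2, if_neg e3, if_neg e4, if_neg e5, if_neg e6, if_pos e7]
          rfl
        linarith [le_max_right 0 (- d.aTl)]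
    · have w1 : val d = req d := val_flat ht hl htl
      have w2 : 0 ≤ val d.my := val_nonneg_of_Tl F.my hBl
      linarith [req_nonneg d]

/-- only left good -/
lemma box_l (F : Facts two d) (hl : d.l) (hb : ¬ d.b) (hr : ¬ d.r) (ht : ¬ d.t) :
    jj d ≤ rec4 two d := by
  have h2 : ¬ d.jNW := fun h => (F.j2 h).1 hl
  have h4 : ¬ d.jSW := fun h => (F.j4 h).1 hl
  have e : jj d = (if d.jNE then 1 / 2 else 0) + (if d.jSE then 1 / 2 else 0) := by
    simp [jj, h2, h4]
  rw [e, rec4_eq]
  have v1 : val d.mx = 0 := val_of_not_l (d := d.mx) hr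
  have v2 : val d.my.mx = 0 := val_of_not_l (d := d.my.mx) hr
  have v3 : val d.tp = 0 := val_of_not_l (d := d.tp) hb
  have v4 : val d.tp.mx = 0 := val_of_not_l (d := d.tp.mx) ht
  have v5 : val d.tp.my = 0 := val_of_not_l (d := d.tp.my) hb
  have v6 : val d.tp.my.mx = 0 := val_of_not_l (d := d.tp.my.mx) ht
  have p0 := sup_nonneg (two := two) d
  have p1 := sup_nonneg (two := two) d.mx
  have p2 := sup_nonneg (two := two) d.my
  have p3 := sup_nonneg (two := two) d.mx.my
  have g1 := val_ge F
  have g2 := val_ge F.my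
  by_cases hNE : d.NE
  · by_cases hSE : d.SE
    · have s1 := sup_ge (two := two) hr ht hNE
      have s2 : 1 / 2 ≤ sup two d.my := sup_ge (two := two) (d := d.my) hr hb hSE
      -- the two arms
      by_cases htl : d.tl
      · have w1 := val_L ht hl htl
        by_cases hbl : d.bl
        · have w3 : val d.my = d.aBl := val_L (d := d.my) hb hl hbl
          have := F.sl
          split_ifs <;> linarith
        · have w3 : 0 ≤ val d.my := by
            have : val d.my = req d.my := val_flat (d := d.my) hb hl hbl
            linarith [req_nonneg d.my]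
          by_cases hj : d.jNE
          · by_cases h2' : two
            · exact absurd (F.gT htl (F.k1 h2' hj)) ht
            · have ntr : ¬ d.tr := fun h => ht (F.gT htl h)
              have s1 := sup_ge' (two := two) hr ht hNE h2' ntr
              split_ifs <;> linarith
          · rw [if_neg hj]
            split_ifs <;> linarith
      · have w1 : val d = req d := val_flat ht hl htl
        have w1' := req_nonneg d
        by_cases hbl : d.bl
        · by_cases hj : d.jSE
          · by_cases h2' : two
            · exact absurd (F.gB hbl (F.k3 h2' hj)) hb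
            · have nbr : ¬ d.my.tr := fun h => hb (F.gB hbl h)
              have s1 : 1 ≤ sup two d.my := sup_ge' (two := two) (d := d.my) hr hb hSE h2' nbr
              split_ifs <;> linarith
          · rw [if_neg hj]
            split_ifs <;> linarith
        · have w3 : val d.my = req d.my := val_flat (d := d.my) hb hl hbl
          have w3' := req_nonneg d.my
          split_ifs <;> linarith
    · have := box_l1 F hl hb hr ht hNE hSE
      linarith
  · by_cases hSE : d.SE
    · have h := box_l1 F.my (d := d.my) hl ht hr hb hSE hNE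
      have e1 : d.my.my = d := rfl
      have e2 : d.my.jNE = d.jSE := rfl
      have e3 : d.my.jSE = d.jNE := rfl
      rw [e1] at h
      simp only [e2, e3] at h
      linarith
    · have b2 : ¬ d.Rm := fun h => hSE (F.f2 h)
      have hR := F.cR
      by_cases hRl : d.Rl
      · have := box_l0 F hl hb hr ht hNE hSE hRl
        linarith
      · have hRh : d.Rh := by tauto
        have h := box_l0 F.my (d := d.my) hl ht hr hb hSE hNE hRh
        have e1 : d.my.my = d := rfl
        have e2 : d.my.jNE = d.jSE := rfl
        have e3 : d.my.jSE = d.jNE := rfl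
        rw [e1] at h
        simp only [e2, e3] at h
        linarith

/-- no neighbour good -/
lemma box_0 (F : Facts two d) (hl : ¬ d.l) (hb : ¬ d.b) (hr : ¬ d.r) (ht : ¬ d.t) :
    (if d.jNE ∨ d.jNW then 1 / 2 else 0) + (if d.jSE ∨ d.jSW then 1 / 2 else 0) ≤ rec4 two d := by
  rw [rec4_eq]
  have v1 : val d.mx = 0 := val_of_not_l (d := d.mx) hr
  have v0 : val d = 0 := val_of_not_l hl
  have v2 : val d.my.mx = 0 := val_of_not_l (d := d.my.mx) hr
  have v2' : val d.my = 0 := val_of_not_l (d := d.my) hl
  have v3 : val d.tp = 0 := val_of_not_l (d := d.tp) hb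
  have v4 : val d.tp.mx = 0 := val_of_not_l (d := d.tp.mx) ht
  have v5 : val d.tp.my = 0 := val_of_not_l (d := d.tp.my) hb
  have v6 : val d.tp.my.mx = 0 := val_of_not_l (d := d.tp.my.mx) ht
  rw [v0, v1, v2, v2', v3, v4, v5, v6]
  have p0 : (if d.NE then 1 / 2 else 0) ≤ sup two d := by
    split_ifs with h
    · exact sup_ge hr ht h
    · exact sup_nonneg d
  have p1 : (if d.NW then 1 / 2 else 0) ≤ sup two d.mx := by
    split_ifs with h
    · exact sup_ge (d := d.mx) hl ht h
    · exact sup_nonneg d.mx
  have p2 : (if d.SE then 1 / 2 else 0) ≤ sup two d.my := by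
    split_ifs with h
    · exact sup_ge (d := d.my) hr hb h
    · exact sup_nonneg d.my
  have p3 : (if d.SW then 1 / 2 else 0) ≤ sup two d.mx.my := by
    split_ifs with h
    · exact sup_ge (d := d.mx.my) hl hb h
    · exact sup_nonneg d.mx.my
  have key : (if d.jNE ∨ d.jNW then (1 : ℝ) / 2 else 0) + (if d.jSE ∨ d.jSW then 1 / 2 else 0) ≤
      (if d.NE then 1 / 2 else 0) + (if d.NW then 1 / 2 else 0) + (if d.SE then 1 / 2 else 0) +
        (if d.SW then 1 / 2 else 0) := by
    have c1 := F.cR
    have c2 := F.cL
    have c3 := F.cT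
    have c4 := F.cB
    have f1 := F.f1
    have f2 := F.f2
    have f3 := F.f3
    have f4 := F.f4
    have f5 := F.f5
    have f6 := F.f6
    have f7 := F.f7
    have f8 := F.f8
    have g1 := F.g1
    have g2 := F.g2
    have g3 := F.g3
    have g4 := F.g4
    have j1 := F.j1
    have j2 := F.j2
    have j3 := F.j3
    have j4 := F.j4
    split_ifs <;> first | (norm_num; done) | (exfalso; grind)
  linarith

lemma jj_ge (d : BD) :
    (if d.jNE ∨ d.jNW then (1 : ℝ) / 2 else 0) + (if d.jSE ∨ d.jSW then 1 / 2 else 0) ≤ jj d := by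
  unfold jj
  by_cases h1 : d.jNE <;> by_cases h2 : d.jNW <;> by_cases h3 : d.jSE <;> by_cases h4 : d.jSW <;>
    simp [h1, h2, h3, h4]

/-- the box inequality -/
theorem box (F : Facts two d) :
    (if d.jNE ∨ d.jNW then 1 / 2 else 0) + (if d.jSE ∨ d.jSW then 1 / 2 else 0) ≤ rec4 two d := by
  by_cases hl : d.l <;> by_cases hr : d.r <;> by_cases ht : d.t <;> by_cases hb : d.b
  -- l r
  · exact (jj_ge d).trans (box_lr F hl hr)
  · exact (jj_ge d).trans (box_lr F hl hr)
  · exact (jj_ge d).trans (box_lr F hl hr)
  · exact (jj_ge d).trans (box_lr F hl hr)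
  -- l, not r
  · have := box_lr F.tp (d := d.tp) hb ht
    rw [jj_tp, rec4_tp] at this
    exact (jj_ge d).trans this
  · have := box_lb F.my (d := d.my) hl ht hr hb
    rw [jj_my, rec4_my] at this
    exact (jj_ge d).trans this
  · exact (jj_ge d).trans (box_lb F hl hb hr ht)
  · exact (jj_ge d).trans (box_l F hl hb hr ht)
  -- not l, r
  · have := box_lr F.tp (d := d.tp) hb ht
    rw [jj_tp, rec4_tp] at this
    exact (jj_ge d).trans this
  · have := box_lb F.mx.my (d := d.mx.my) hr ht hl hb
    rw [jj_my, rec4_my, jj_mx, rec4_mx] at this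
    exact (jj_ge d).trans this
  · have := box_lb F.mx (d := d.mx) hr hb hl ht
    rw [jj_mx, rec4_mx] at this
    exact (jj_ge d).trans this
  · have := box_l F.mx (d := d.mx) hr hb hl ht
    rw [jj_mx, rec4_mx] at this
    exact (jj_ge d).trans this
  -- not l, not r
  · have := box_lr F.tp (d := d.tp) hb ht
    rw [jj_tp, rec4_tp] at this
    exact (jj_ge d).trans this
  · have := box_l F.my.tp (d := d.my.tp) ht hl hb hr
    rw [jj_tp, rec4_tp, jj_my, rec4_my] at this
    exact (jj_ge d).trans this
  · have := box_l F.tp (d := d.tp) hb hl ht hr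
    rw [jj_tp, rec4_tp] at this
    exact (jj_ge d).trans this
  · exact box_0 F hl hb hr ht

end BD

end Prc23s
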