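import Pool.Agent.Prc23s.Box

/-!
# The vertex inequality (pure part)

`a b c e` say whether the four windows `v`, `v + (1,0)`, `v + (0,1)`, `v + (1,1)` are good, `d0 d1 d2 d3` are their
data.
-/

namespace Prc23s

open Classical

namespace BD

/-- compatibility of the data of the four windows at a vertex -/
structure Comp (a b c e : Prop) (d0 d1 d2 d3 : BD) : Prop where
  r0 : d0.r ↔ b
  t0 : d0.t ↔ c
  tr0 : d0.tr ↔ e
  l1 : d1.l ↔ a
  t1 : d1.t ↔ e
  tl1 : d1.tl ↔ c
  r2 : d2.r ↔ e
  b2 : d2.b ↔ a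
  br2 : d2.br ↔ b
  l3 : d3.l ↔ c
  b3 : d3.b ↔ b
  bl3 : d3.bl ↔ a
  aT : d0.aTr = d1.aTl
  aR : d0.aRu = d2.aRd
  aL : d1.aLu = d3.aLd
  aB : d2.aBr = d3.aBl

/-- the weight of a vertex without edges -/
noncomputable def t0 (two : Prop) (x0 x1 x2 x3 : Prop) : ℝ :=
  if two then (if x0 then 1 / 2 else 0) + (if x1 then 1 / 2 else 0) + (if x2 then 1 / 2 else 0) +
    (if x3 then 1 / 2 else 0)
  else if x0 ∨ x1 ∨ x2 ∨ x3 then 1 else 0

/-- the weight of a vertex; `x0 .. x3` say that the corner of the window at the vertex is full, `k` is the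
additional weight of a face -/
noncomputable def tw (two a b c e : Prop) (x0 x1 x2 x3 : Prop) (k : ℝ) : ℝ :=
  if a ∧ b ∧ c ∧ e then 1 + k
  else if (a ∧ b) ∨ (a ∧ c) ∨ (b ∧ e) ∨ (c ∧ e) then 1
  else t0 two (a ∧ x0) (b ∧ x1) (c ∧ x2) (e ∧ x3)

variable {two a b c e : Prop} {d0 d1 d2 d3 : BD}

lemma cor_rt {d : BD} (hr : d.r) (ht : d.t) : cor two d = 0 := by
  unfold cor
  have h1 : sup two d = 0 := by simp [sup, hr]
  have h2 : val d.mx = 0 := val_of_t (d := d.mx) ht
  have h3 : val d.tp.mx = 0 := val_of_t (d := d.tp.mx) hr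
  rw [h1, h2, h3]
  norm_num

/-- right good, top missing -/
lemma cor_r {d : BD} (hr : d.r) (ht : ¬ d.t) : cor two d = if d.tr then d.aTr else req d.mx := by
  unfold cor
  have h1 : sup two d = 0 := by simp [sup, hr]
  have h3 : val d.tp.mx = 0 := val_of_t (d := d.tp.mx) hr
  rw [h1, h3]
  have e1 : d.mx.l := hr
  have e2 : ¬ d.mx.t := ht
  have e3 : d.mx.tl = d.tr := rfl
  have e4 : d.mx.aTl = d.aTr := rfl
  unfold val
  rw [if_pos ⟨e2, e1⟩, e3, e4]
  ring

/-- top good, right missing -/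
lemma cor_t {d : BD} (hr : ¬ d.r) (ht : d.t) : cor two d = if d.tr then d.aRu else req d.tp.mx := by
  have h := cor_r (two := two) (d := d.tp) ht hr
  rw [cor_tp] at h
  exact h

/-- both missing -/
lemma cor_0 {d : BD} (hr : ¬ d.r) (ht : ¬ d.t) : cor two d = sup two d := by
  unfold cor
  have h2 : val d.mx = 0 := val_of_not_l (d := d.mx) hr
  have h3 : val d.tp.mx = 0 := val_of_not_l (d := d.tp.mx) ht
  rw [h2, h3]
  ring

/-- the vertex inequality -/
theorem vtx (H : Comp a b c e d0 d1 d2 d3) {k f : ℝ}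
    (fT : a → b → ¬ c → ¬ e → req d0.mx + req d1 ≤ 1 / 2 + d0.aTr)
    (fR : a → c → ¬ b → ¬ e → req d0.tp.mx + req d2.tp ≤ 1 / 2 + d0.aRu)
    (fL : b → e → ¬ a → ¬ c → req d1.tp.my.mx + req d3.tp.my ≤ 1 / 2 + d1.aLu)
    (fB : c → e → ¬ a → ¬ b → req d2.my.mx + req d3.my ≤ 1 / 2 + d2.aBr)
    (hf : a → b → c → e → 0 ≤ 1 + k + f + (d0.aTr - 1 / 2) + (d0.aRu - 1 / 2) + (d1.aLu - 1 / 2) +
      (d2.aBr - 1 / 2)) :
    (if a then cor two d0 else 0) + (if b then cor two d1.mx else 0) +
      (if c then cor two d2.my else 0) + (if e then cor two d3.mx.my else 0) ≤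
    tw two a b c e d0.NE d1.NW d2.SE d3.SW k + (if a ∧ b ∧ c ∧ e then f else 0) +
      (if a ∧ b then d0.aTr - 1 / 2 else 0) + (if a ∧ c then d0.aRu - 1 / 2 else 0) +
      (if b ∧ e then d1.aLu - 1 / 2 else 0) + (if c ∧ e then d2.aBr - 1 / 2 else 0) := by
  have r0 := H.r0
  have t0' := H.t0
  have tr0 := H.tr0
  have r1 : d1.mx.r ↔ a := H.l1
  have t1 : d1.mx.t ↔ e := H.t1
  have tr1 : d1.mx.tr ↔ c := H.tl1
  have r2 : d2.my.r ↔ e := H.r2
  have t2 : d2.my.t ↔ a := H.b2
  have tr2 : d2.my.tr ↔ b := H.br2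
  have r3 : d3.mx.my.r ↔ c := H.l3
  have t3 : d3.mx.my.t ↔ b := H.b3
  have tr3 : d3.mx.my.tr ↔ a := H.bl3
  have n0 : d0.NE = d0.NE := rfl
  have n1 : d1.mx.NE = d1.NW := rfl
  have n2 : d2.my.NE = d2.SE := rfl
  have n3 : d3.mx.my.NE = d3.SW := rfl
  have a1 : d1.mx.aTr = d0.aTr := H.aT.symm
  have a1' : d1.mx.aRu = d1.aLu := rfl
  have a2 : d2.my.aTr = d2.aBr := rfl
  have a2' : d2.my.aRu = d0.aRu := H.aR.symm
  have a3 : d3.mx.my.aTr = d2.aBr := H.aB.symm
  have a3' : d3.mx.my.aRu = d1.aLu := H.aL.symm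
  have q1 : d1.mx.mx = d1 := rfl
  have q1' : d1.mx.tp.mx = d1.tp.my.mx := rfl
  have q2 : d2.my.mx = d2.my.mx := rfl
  have q2' : d2.my.tp.mx = d2.tp := rfl
  have q3 : d3.mx.my.mx = d3.my := rfl
  have q3' : d3.mx.my.tp.mx = d3.tp.my := rfl
  have s0 : ∀ d : BD, sup two d = if ¬ d.r ∧ ¬ d.t ∧ d.NE then (if ¬ two ∧ ¬ d.tr then 1 else 1 / 2) else 0 :=
    fun d => rfl
  by_cases ha : a <;> by_cases hb : b <;> by_cases hc : c <;> by_cases he : e <;>
    simp only [ha, hb, hc, he, iff_true, iff_false] at r0 t0' tr0 r1 t1 tr1 r2 t2 tr2 r3 t3 tr3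
  -- a b c e
  · rw [cor_rt r0 t0', cor_rt r1 t1, cor_rt r2 t2, cor_rt r3 t3]
    have := hf ha hb hc he
    simp only [tw, ha, hb, hc, he, and_true, if_true]
    linarith
  -- a b c
  · rw [cor_rt r0 t0', cor_r r1 t1, if_pos tr1, cor_t r2 t2, if_pos tr2, a1, a2']
    simp only [tw, ha, hb, hc, he, and_true, and_false, if_true, if_false, true_or]
    linarith
  -- a b e
  · rw [cor_r r0 t0', if_pos tr0, cor_rt r1 t1, cor_t r3 t3, if_pos tr3, a3']
    simp only [tw, ha, hb, hc, he, and_true, and_false, false_and, true_and, if_true, if_false, true_or]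
    linarith
  -- a b
  · rw [cor_r r0 t0', if_neg tr0, cor_r r1 t1, if_neg tr1, q1]
    have := fT ha hb hc he
    simp only [tw, ha, hb, hc, he, and_true, and_false, false_and, true_and, if_true, if_false, true_or]
    linarith
  -- a c e
  · rw [cor_t r0 t0', if_pos tr0, cor_rt r2 t2, cor_r r3 t3, if_pos tr3, a3]
    simp only [tw, ha, hb, hc, he, and_true, and_false, false_and, true_and, if_true, if_false, true_or, or_true]
    linarith
  -- a c
  · rw [cor_t r0 t0', if_neg tr0, cor_t r2 t2, if_neg tr2, q2']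
    have := fR ha hc hb he
    simp only [tw, ha, hb, hc, he, and_true, and_false, false_and, true_and, if_true, if_false, true_or, or_true]
    linarith
  -- a e
  · rw [cor_0 r0 t0', cor_0 r3 t3, s0, s0]
    simp only [tw, t0, ha, hb, hc, he, and_true, and_false, false_and, true_and, if_true, if_false,
      or_self, r0, t0', tr0, r3, t3, tr3, n3, not_true, not_false_iff, false_or]
    by_cases h2 : two <;> by_cases x0 : d0.NE <;> by_cases x3 : d3.SW <;> simp [h2, x0, x3] <;> norm_num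
  -- a
  · rw [cor_0 r0 t0', s0]
    simp only [tw, t0, ha, hb, hc, he, and_true, and_false, false_and, true_and, if_true, if_false,
      or_self, r0, t0', tr0, not_true, not_false_iff, or_false]
    by_cases h2 : two <;> by_cases x0 : d0.NE <;> simp [h2, x0]
  -- b c e
  · rw [cor_t r1 t1, if_pos tr1, cor_r r2 t2, if_pos tr2, cor_rt r3 t3, a1', a2]
    simp only [tw, ha, hb, hc, he, and_true, and_false, false_and, true_and, if_true, if_false, true_or, or_true]
    linarith
  -- b c
  · rw [cor_0 r1 t1, cor_0 r2 t2, s0, s0]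
    simp only [tw, t0, ha, hb, hc, he, and_true, and_false, false_and, true_and, if_true, if_false,
      or_self, r1, t1, tr1, r2, t2, tr2, n1, n2, not_true, not_false_iff, false_or, or_false]
    by_cases h2 : two <;> by_cases x0 : d1.NW <;> by_cases x3 : d2.SE <;> simp [h2, x0, x3] <;> norm_num
  -- b e
  · rw [cor_t r1 t1, if_neg tr1, cor_t r3 t3, if_neg tr3, q1', q3']
    have := fL hb he ha hc
    simp only [tw, ha, hb, hc, he, and_true, and_false, false_and, true_and, if_true, if_false, true_or, or_true]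
    linarith
  -- b
  · rw [cor_0 r1 t1, s0]
    simp only [tw, t0, ha, hb, hc, he, and_true, and_false, false_and, true_and, if_true, if_false,
      or_self, r1, t1, tr1, n1, not_true, not_false_iff, or_false, false_or]
    by_cases h2 : two <;> by_cases x0 : d1.NW <;> simp [h2, x0]
  -- c e
  · rw [cor_r r2 t2, if_neg tr2, cor_r r3 t3, if_neg tr3, q3]
    have := fB hc he ha hb
    simp only [tw, ha, hb, hc, he, and_true, and_false, false_and, true_and, if_true, if_false, true_or, or_true]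
    linarith
  -- c
  · rw [cor_0 r2 t2, s0]
    simp only [tw, t0, ha, hb, hc, he, and_true, and_false, false_and, true_and, if_true, if_false,
      or_self, r2, t2, tr2, n2, not_true, not_false_iff, or_false, false_or]
    by_cases h2 : two <;> by_cases x0 : d2.SE <;> simp [h2, x0]
  -- e
  · rw [cor_0 r3 t3, s0]
    simp only [tw, t0, ha, hb, hc, he, and_true, and_false, false_and, true_and, if_true, if_false,
      or_self, r3, t3, tr3, n3, not_true, not_false_iff, or_false, false_or]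
    by_cases h2 : two <;> by_cases x0 : d3.SW <;> simp [h2, x0]
  -- none
  · simp only [tw, t0, ha, hb, hc, he, and_true, and_false, false_and, true_and, if_true, if_false, or_self]
    split_ifs <;> norm_num

end BD

end Prc23s
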