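import Pool.Agent.Prc92s.Defs
import Pool.Agent.Prc23s.Vtx

/-!
# Columns and rows of the first points, data of a window

For a good window `z` let `R_0` be its point in the lowest row (`p.2 < z.2 + K`) and `C_0` its point in the first column
(`p.1 < z.1 + K`).  `kap z` is the column of `R_0` and `rho z` is the row of `C_0`.
-/

namespace Prc23s

open Finset Classical Prc24

section
variable (P : Set Z2) (K A B : ℤ) (m : ℕ)

/-- the column of the point in the lowest row -/
noncomputable def kap (z : Z2) : ℤ :=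
  ∑ p ∈ (ct P K A B m z).filter (fun p => p.2 < z.2 + K), (p.1 - z.1) / K

/-- the row of the point in the first column -/
noncomputable def rho (z : Z2) : ℤ :=
  ∑ p ∈ (ct P K A B m z).filter (fun p => p.1 < z.1 + K), (p.2 - z.2) / K

/-- the arm value of the edge `(z, z + (0, K))` on its right side -/
noncomputable def aR (z : Z2) : ℝ := - (1 / 4) + (kap P K A B m z : ℝ) / (m - 1) / 2

/-- the arm value of the edge `(z, z + (K, 0))` on its top side -/
noncomputable def aT (z : Z2) : ℝ := - (1 / 4) + (rho P K A B m z : ℝ) / (m - 1) / 2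

/-- the data of the window `x` -/
noncomputable def bd (x : Z2) : BD where
  l := Gd P K A B m (x.1 - K, x.2)
  r := Gd P K A B m (x.1 + K, x.2)
  t := Gd P K A B m (x.1, x.2 + K)
  b := Gd P K A B m (x.1, x.2 - K)
  tl := Gd P K A B m (x.1 - K, x.2 + K)
  tr := Gd P K A B m (x.1 + K, x.2 + K)
  bl := Gd P K A B m (x.1 - K, x.2 - K)
  br := Gd P K A B m (x.1 + K, x.2 - K)
  NE := NE P K A B m (ct P K A B m x)
  NW := NW P K A B m (ct P K A B m x)
  SE := SE P K A B m (ct P K A B m x)
  SW := SW P K A B m (ct P K A B m x)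
  jNE := ∃ p ∈ ct P K A B m x, jNE P K A B m x p
  jNW := ∃ p ∈ ct P K A B m x, jNW P K A B m x p
  jSE := ∃ p ∈ ct P K A B m x, jSE P K A B m x p
  jSW := ∃ p ∈ ct P K A B m x, jSW P K A B m x p
  Rm := Rm P K A B m x
  Rh := Rh P K A B m x
  Rl := Rl P K A B m x
  Lm := Lm P K A B m x
  Lh := Lh P K A B m x
  Ll := Ll P K A B m x
  Tm := Tm P K A B m x
  Th := Th P K A B m x
  Tl := Tl P K A B m x
  Bm := Bm P K A B m x
  Bh := Bh P K A B m x
  Bl := Bl P K A B m x
  aTl := aT P K A B m (x.1 - K, x.2)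
  aTr := aT P K A B m x
  aBl := - aT P K A B m (x.1 - K, x.2)
  aBr := - aT P K A B m x
  aRd := aR P K A B m (x.1, x.2 - K)
  aRu := aR P K A B m x
  aLd := - aR P K A B m (x.1, x.2 - K)
  aLu := - aR P K A B m x

/-! ### the symmetries -/

/-- left and right exchanged -/
def mX : Set Z2 := {p | (-p.1, p.2) ∈ P}
/-- top and bottom exchanged -/
def mY : Set Z2 := {p | (p.1, -p.2) ∈ P}
/-- transposition -/
def tP : Set Z2 := {p | (p.2, p.1) ∈ P}

/-- the window of `mX P` corresponding to the window `z` of `P` -/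
def wX (z : Z2) : Z2 := (- z.1 - (m * K + A) + 1, z.2)
/-- the window of `mY P` corresponding to the window `z` of `P` -/
def wY (z : Z2) : Z2 := (z.1, - z.2 - (m * K + B) + 1)
/-- transposition -/
def wT (z : Z2) : Z2 := (z.2, z.1)

end

end Prc23s
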