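import Pool.Agent.Prc23s.BD

/-!
# The flat inequality (pure part)

`dx`, `dy` are the data of two good windows `x` and `y = x + (1, 0)` such that the windows above them are not
good.  The two requests of the flat vertex between them are at most `1/2 + a`, where `a` is the arm value of
the edge `(x, y)`.
-/

namespace Prc23s

open Classical

namespace BD

/-- facts about two neighbouring good windows with a common free top side -/
structure FlatFacts (two four : Prop) (dx dy : BD) : Prop where
  r : dx.r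
  l : dy.l
  a : dx.aTr = dy.aTl
  ale : dx.aTr ≤ 1 / 4
  tf : four → ¬ two
  c : ¬ (dx.Th ∧ ¬ dx.Tl ∧ ¬ dx.Tm ∧ dy.Tl ∧ ¬ dy.Th ∧ ¬ dy.Tm)
  b1 : four → dx.l → dx.tl → ¬ dy.Tl
  b2 : four → dy.r → dy.tr → ¬ dx.Th
  d1 : ¬ four → dx.l → - (1 / 4) ≤ dx.aTl + dx.aTr
  d2 : ¬ four → dy.r → - (1 / 4) ≤ dy.aTr + dy.aTl
  g : ¬ two → dx.tl → dy.tr → False
  e1 : two → dx.l → 0 ≤ dx.aTl + dx.aTr
  e2 : two → dy.r → 0 ≤ dy.aTr + dy.aTl

variable {two four : Prop} {dx dy : BD}

private lemma req_pos_r {d : BD} (hr : d.r) (h : 0 < req d) : d.tr ∧ req d = - d.aTr := by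
  have h2 := h
  unfold req at h2
  rw [if_pos hr] at h2
  by_cases htr : d.tr
  · rw [if_pos htr] at h2
    refine ⟨htr, ?_⟩
    unfold req
    rw [if_pos hr, if_pos htr]
    apply max_eq_right
    by_contra hc
    push Not at hc
    rw [max_eq_left hc.le] at h2
    exact lt_irrefl _ h2
  · rw [if_neg htr] at h2
    exact absurd h2 (lt_irrefl _)

/-- the flat inequality -/
theorem flat (F : Facts two dx) (G : Facts two dy) (H : FlatFacts two four dx dy) :
    req dx.mx + req dy ≤ 1 / 2 + dx.aTr := by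
  have p1 : req dx.mx ≤ 1 / 4 := req_le F.mx (d := dx.mx) H.r
  have q1 : req dy ≤ 1 / 4 := req_le G H.l
  have p0 := req_nonneg dx.mx
  have q0 := req_nonneg dy
  have a0 := F.nTr H.r
  have a1 := H.ale
  rcases p0.eq_or_lt with hp | hp
  · linarith
  rcases q0.eq_or_lt with hq | hq
  · linarith
  by_cases hl : dx.l
  · have e1 : dx.mx.r := hl
    obtain ⟨htl, hp2⟩ := req_pos_r e1 hp
    have htl' : dx.tl := htl
    have hp3 : req dx.mx = - dx.aTl := hp2
    by_cases hr : dy.r
    · obtain ⟨htr, hq2⟩ := req_pos_r hr hq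
      have h2 : two := by
        by_contra h2
        exact H.g h2 htl' htr
      have h3 := H.e1 h2 hl
      have h4 := H.e2 h2 hr
      rw [← H.a] at h4
      linarith
    · obtain ⟨s1, s2, s3⟩ := req_state G H.l hr hq
      by_cases h4 : four
      · exact absurd s1 (H.b1 h4 hl htl')
      · have := H.d1 h4 hl
        linarith
  · have e1 : ¬ dx.mx.r := hl
    obtain ⟨t1, t2, t3⟩ := req_state F.mx (d := dx.mx) H.r e1 hp
    by_cases hr : dy.r
    · obtain ⟨htr, hq2⟩ := req_pos_r hr hq
      by_cases h4 : four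
      · exact absurd t1 (H.b2 h4 hr htr)
      · have := H.d2 h4 hr
        rw [← H.a] at this
        linarith
    · obtain ⟨s1, s2, s3⟩ := req_state G H.l hr hq
      exact absurd ⟨t1, t2, t3, s1, s2, s3⟩ H.c

end BD

end Prc23s
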