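import Pool.Agent.Prc23s.Ver
import Pool.Agent.Prc23s.Flat
import Pool.Agent.Prc24.Vertex

/-!
# The data of a good window satisfy the facts
-/

namespace Prc23s

open Finset Classical Prc24

variable {P : Set Z2} {K A B : ℤ} {m : ℕ}

lemma m1pos (h : Prc P K A B m) : (0 : ℝ) < (m : ℝ) - 1 := by
  have : (2 : ℝ) ≤ m := by exact_mod_cast h.m2
  linarith

lemma aT_ge (h : Prc P K A B m) (z : Z2) : - (1 / 4) ≤ aT P K A B m z := by
  unfold aT
  have h1 : (0 : ℝ) ≤ (rho P K A B m z : ℝ) := by exact_mod_cast rho_nonneg h z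
  have h2 := m1pos h
  have : 0 ≤ (rho P K A B m z : ℝ) / (m - 1) / 2 := by positivity
  linarith

lemma aT_le (h : Prc P K A B m) {z : Z2} (hz : Gd P K A B m z) : aT P K A B m z ≤ 1 / 4 := by
  unfold aT
  have h1 : (rho P K A B m z : ℝ) ≤ (m : ℝ) - 1 := by exact_mod_cast rho_le h hz
  have h2 := m1pos h
  have : (rho P K A B m z : ℝ) / (m - 1) ≤ 1 := by
    rw [div_le_one h2]
    exact h1
  linarith

lemma aR_ge (h : Prc P K A B m) (z : Z2) : - (1 / 4) ≤ aR P K A B m z := by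
  unfold aR
  have h1 : (0 : ℝ) ≤ (kap P K A B m z : ℝ) := by exact_mod_cast kap_nonneg h z
  have h2 := m1pos h
  have : 0 ≤ (kap P K A B m z : ℝ) / (m - 1) / 2 := by positivity
  linarith

lemma aR_le (h : Prc P K A B m) {z : Z2} (hz : Gd P K A B m z) : aR P K A B m z ≤ 1 / 4 := by
  unfold aR
  have h1 : (kap P K A B m z : ℝ) ≤ (m : ℝ) - 1 := by exact_mod_cast kap_le h hz
  have h2 := m1pos h
  have : (kap P K A B m z : ℝ) / (m - 1) ≤ 1 := by
    rw [div_le_one h2]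
    exact h1
  linarith

lemma aT_one {z : Z2} (h : m = 2 ∧ rho P K A B m z = 1) : aT P K A B m z = 1 / 4 := by
  unfold aT
  rw [h.2]
  have : (m : ℝ) = 2 := by exact_mod_cast h.1
  rw [this]
  norm_num

lemma aT_zero {z : Z2} (h : m = 2 ∧ rho P K A B m z = 0) : aT P K A B m z = - (1 / 4) := by
  unfold aT
  rw [h.2]
  norm_num

lemma aR_one {z : Z2} (h : m = 2 ∧ kap P K A B m z = 1) : aR P K A B m z = 1 / 4 := by
  unfold aR
  rw [h.2]
  have : (m : ℝ) = 2 := by exact_mod_cast h.1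
  rw [this]
  norm_num

lemma aR_zero {z : Z2} (h : m = 2 ∧ kap P K A B m z = 0) : aR P K A B m z = - (1 / 4) := by
  unfold aR
  rw [h.2]
  norm_num

private lemma gapT (h : Prc P K A B m) {x y : ℤ} (h1 : Gd P K A B m (x - K, y)) (h2 : Gd P K A B m (x + K, y)) :
    Gd P K A B m (x, y) := by
  have e2 : (x - K) + ((2 : ℕ) : ℤ) * K = x + K := by push_cast; ring
  have e1 : (x - K) + ((1 : ℕ) : ℤ) * K = x := by push_cast; ring
  have := gap_h h (x := x - K) (y := y) (k := 2) (l := 1) (by omega) h.m2 h1 (by rw [e2]; exact h2)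
  rwa [e1] at this

private lemma gapR (h : Prc P K A B m) {x y : ℤ} (h1 : Gd P K A B m (x, y - K)) (h2 : Gd P K A B m (x, y + K)) :
    Gd P K A B m (x, y) := by
  have e2 : (y - K) + ((2 : ℕ) : ℤ) * K = y + K := by push_cast; ring
  have e1 : (y - K) + ((1 : ℕ) : ℤ) * K = y := by push_cast; ring
  have := gap_v h (x := x) (y := y - K) (k := 2) (l := 1) (by omega) h.m2 h1 (by rw [e2]; exact h2)
  rwa [e1] at this

/-- the facts -/
theorem facts (h : Prc P K A B m) {z : Z2} (hz : Gd P K A B m z) : BD.Facts (m = 2) (bd P K A B m z) where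
  cR := R_cases h hz
  cL := L_cases h hz
  cT := T_cases h hz
  cB := B_cases h hz
  eR := Rm_of_edge h hz
  eL := Lm_of_edge h hz
  eT := Tm_of_edge h hz
  eB := Bm_of_edge h hz
  f1 := NE_of_Rm h hz
  f2 := SE_of_Rm h hz
  f3 := NW_of_Lm h hz
  f4 := SW_of_Lm h hz
  f5 := NE_of_Tm h hz
  f6 := NW_of_Tm h hz
  f7 := SE_of_Bm h hz
  f8 := SW_of_Bm h hz
  g1 := NE_of_RhTh h hz
  g2 := SE_of_RlBh h hz
  g3 := NW_of_LhTl h hz
  g4 := SW_of_LlBl h hz
  j1 := by
    rintro ⟨p, hp, h1, h2, i, j, hi, hj, hG⟩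
    exact ⟨h1, h2, not_Rh_NE h hz hp hi hj hG, not_Th_NE h hz hp hi hj hG⟩
  j2 := by
    rintro ⟨p, hp, h1, h2, i, j, hi, hj, hG⟩
    exact ⟨h1, h2, not_Lh_NW h hz hp hi hj hG, not_Tl_NW h hz hp hi hj hG⟩
  j3 := by
    rintro ⟨p, hp, h1, h2, i, j, hi, hj, hG⟩
    exact ⟨h1, h2, not_Rl_SE h hz hp hi hj hG, not_Bh_SE h hz hp hi hj hG⟩
  j4 := by
    rintro ⟨p, hp, h1, h2, i, j, hi, hj, hG⟩
    exact ⟨h1, h2, not_Ll_SW h hz hp hi hj hG, not_Bl_SW h hz hp hi hj hG⟩
  k1 := fun hm hj => k1 h hm hz hj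
  k2 := fun hm hj => k2 h hm hz hj
  k3 := fun hm hj => k3 h hm hz hj
  k4 := fun hm hj => k4 h hm hj
  gT := fun a b => gapT h a b
  gB := fun a b => gapT h a b
  gL := fun a b => gapR h b a
  gR := fun a b => gapR h b a
  bTl := fun a b c => le_of_eq (aT_one (bTl h hz a b c)).symm
  bTr := fun a b c => le_of_eq (aT_one (bTr h hz a b c)).symm
  bBl := fun a b c => by
    show 1 / 4 ≤ - aT P K A B m (z.1 - K, z.2)
    rw [aT_zero (bBl h hz a b c)]
    norm_num
  bBr := fun a b c => by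
    show 1 / 4 ≤ - aT P K A B m z
    rw [aT_zero (bBr h hz a b c)]
    norm_num
  bRd := fun a b c => le_of_eq (aR_one (bRd h hz a b c)).symm
  bRu := fun a b c => le_of_eq (aR_one (bRu h hz a b c)).symm
  bLd := fun a b c => by
    show 1 / 4 ≤ - aR P K A B m (z.1, z.2 - K)
    rw [aR_zero (bLd h hz a b c)]
    norm_num
  bLu := fun a b c => by
    show 1 / 4 ≤ - aR P K A B m z
    rw [aR_zero (bLu h hz a b c)]
    norm_num
  nTl := fun _ => aT_ge h _
  nTr := fun _ => aT_ge h _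
  nBl := fun a => by
    show - (1 / 4) ≤ - aT P K A B m (z.1 - K, z.2)
    linarith [aT_le h a]
  nBr := fun _ => by
    show - (1 / 4) ≤ - aT P K A B m z
    linarith [aT_le h hz]
  nRd := fun _ => aR_ge h _
  nRu := fun _ => aR_ge h _
  nLd := fun a => by
    show - (1 / 4) ≤ - aR P K A B m (z.1, z.2 - K)
    linarith [aR_le h a]
  nLu := fun _ => by
    show - (1 / 4) ≤ - aR P K A B m z
    linarith [aR_le h hz]
  sl := by
    show aT P K A B m (z.1 - K, z.2) + - aT P K A B m (z.1 - K, z.2) = 0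
    ring
  sr := by
    show aT P K A B m z + - aT P K A B m z = 0
    ring
  sd := by
    show aR P K A B m (z.1, z.2 - K) + - aR P K A B m (z.1, z.2 - K) = 0
    ring
  su := by
    show aR P K A B m z + - aR P K A B m z = 0
    ring

end Prc23s
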