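import Pool.Agent.Prc23s.FactsG

/-!
# The flat inequality on the four sides
-/

namespace Prc23s

open Finset Classical Prc24

variable {P : Set Z2} {K A B : ℤ} {m : ℕ}

lemma aT_sum (h : Prc P K A B m) {z : Z2} (hz : Gd P K A B m z) (hz1 : Gd P K A B m (z.1 + K, z.2)) :
    (¬ 4 ≤ m → - (1 / 4) ≤ aT P K A B m z + aT P K A B m (z.1 + K, z.2) ∧
      aT P K A B m z + aT P K A B m (z.1 + K, z.2) ≤ 1 / 4) ∧
    (m = 2 → aT P K A B m z + aT P K A B m (z.1 + K, z.2) = 0) := by
  have h1 := m1pos h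
  have a1 := rho_nonneg h z
  have a2 := rho_nonneg h (z.1 + K, z.2)
  have a3 := rho_le h hz
  have a4 := rho_le h hz1
  have a5 := rho_ne h hz hz1
  have b1 : 1 ≤ rho P K A B m z + rho P K A B m (z.1 + K, z.2) := by omega
  have b2 : rho P K A B m z + rho P K A B m (z.1 + K, z.2) ≤ 2 * (m - 1) - 1 := by omega
  have c1 : (1 : ℝ) ≤ (rho P K A B m z : ℝ) + rho P K A B m (z.1 + K, z.2) := by exact_mod_cast b1
  have c2 : (rho P K A B m z : ℝ) + rho P K A B m (z.1 + K, z.2) ≤ 2 * (m - 1) - 1 := by exact_mod_cast b2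
  have e : aT P K A B m z + aT P K A B m (z.1 + K, z.2) =
      - (1 / 2) + ((rho P K A B m z : ℝ) + rho P K A B m (z.1 + K, z.2)) / (m - 1) / 2 := by
    unfold aT
    ring
  constructor
  · intro h4
    have h5 : (m : ℝ) ≤ 3 := by exact_mod_cast (by omega : m ≤ 3)
    rw [e]
    constructor
    · have : 1 / 2 ≤ ((rho P K A B m z : ℝ) + rho P K A B m (z.1 + K, z.2)) / (m - 1) := by
        rw [div_le_div_iff₀ (by norm_num) h1]
        linarith
      linarith
    · have : ((rho P K A B m z : ℝ) + rho P K A B m (z.1 + K, z.2)) / (m - 1) ≤ 3 / 2 := by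
        rw [div_le_div_iff₀ h1 (by norm_num)]
        linarith
      linarith
  · intro h2
    have h5 : (m : ℝ) = 2 := by exact_mod_cast h2
    rw [e]
    rw [h5] at c2 ⊢
    have : (rho P K A B m z : ℝ) + rho P K A B m (z.1 + K, z.2) = 1 := by linarith
    rw [this]
    norm_num

lemma aR_sum (h : Prc P K A B m) {z : Z2} (hz : Gd P K A B m z) (hz1 : Gd P K A B m (z.1, z.2 + K)) :
    (¬ 4 ≤ m → - (1 / 4) ≤ aR P K A B m z + aR P K A B m (z.1, z.2 + K) ∧
      aR P K A B m z + aR P K A B m (z.1, z.2 + K) ≤ 1 / 4) ∧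
    (m = 2 → aR P K A B m z + aR P K A B m (z.1, z.2 + K) = 0) := by
  have h1 := m1pos h
  have a1 := kap_nonneg h z
  have a2 := kap_nonneg h (z.1, z.2 + K)
  have a3 := kap_le h hz
  have a4 := kap_le h hz1
  have a5 := kap_ne h hz hz1
  have b1 : 1 ≤ kap P K A B m z + kap P K A B m (z.1, z.2 + K) := by omega
  have b2 : kap P K A B m z + kap P K A B m (z.1, z.2 + K) ≤ 2 * (m - 1) - 1 := by omega
  have c1 : (1 : ℝ) ≤ (kap P K A B m z : ℝ) + kap P K A B m (z.1, z.2 + K) := by exact_mod_cast b1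
  have c2 : (kap P K A B m z : ℝ) + kap P K A B m (z.1, z.2 + K) ≤ 2 * (m - 1) - 1 := by exact_mod_cast b2
  have e : aR P K A B m z + aR P K A B m (z.1, z.2 + K) =
      - (1 / 2) + ((kap P K A B m z : ℝ) + kap P K A B m (z.1, z.2 + K)) / (m - 1) / 2 := by
    unfold aR
    ring
  constructor
  · intro h4
    have h5 : (m : ℝ) ≤ 3 := by exact_mod_cast (by omega : m ≤ 3)
    rw [e]
    constructor
    · have : 1 / 2 ≤ ((kap P K A B m z : ℝ) + kap P K A B m (z.1, z.2 + K)) / (m - 1) := by
        rw [div_le_div_iff₀ (by norm_num) h1]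
        linarith
      linarith
    · have : ((kap P K A B m z : ℝ) + kap P K A B m (z.1, z.2 + K)) / (m - 1) ≤ 3 / 2 := by
        rw [div_le_div_iff₀ h1 (by norm_num)]
        linarith
      linarith
  · intro h2
    have h5 : (m : ℝ) = 2 := by exact_mod_cast h2
    rw [e]
    rw [h5] at c2 ⊢
    have : (kap P K A B m z : ℝ) + kap P K A B m (z.1, z.2 + K) = 1 := by linarith
    rw [this]
    norm_num

private lemma e1 (z : Z2) (K : ℤ) : ((z.1 + K) - K, z.2) = z := by ext <;> simp
private lemma e2 (z : Z2) (K : ℤ) : (z.1, (z.2 + K) - K) = z := by ext <;> simp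
private lemma e3 (z : Z2) (K : ℤ) : ((z.1 - K) + K, z.2) = z := by ext <;> simp
private lemma e4 (z : Z2) (K : ℤ) : (z.1, (z.2 - K) + K) = z := by ext <;> simp

private lemma gap3h (h : Prc P K A B m) (hm : m ≠ 2) {x y : ℤ} (h1 : Gd P K A B m (x - K, y))
    (h2 : Gd P K A B m (x + K + K, y)) : Gd P K A B m (x, y) := by
  have := h.m2
  have e2 : (x - K) + ((3 : ℕ) : ℤ) * K = x + K + K := by push_cast; ring
  have e1 : (x - K) + ((1 : ℕ) : ℤ) * K = x := by push_cast; ring
  have := gap_h h (x := x - K) (y := y) (k := 3) (l := 1) (by omega) (by omega) h1 (by rw [e2]; exact h2)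
  rwa [e1] at this

private lemma gap3v (h : Prc P K A B m) (hm : m ≠ 2) {x y : ℤ} (h1 : Gd P K A B m (x, y - K))
    (h2 : Gd P K A B m (x, y + K + K)) : Gd P K A B m (x, y) := by
  have := h.m2
  have e2 : (y - K) + ((3 : ℕ) : ℤ) * K = y + K + K := by push_cast; ring
  have e1 : (y - K) + ((1 : ℕ) : ℤ) * K = y := by push_cast; ring
  have := gap_v h (x := x) (y := y - K) (k := 3) (l := 1) (by omega) (by omega) h1 (by rw [e2]; exact h2)
  rwa [e1] at this

/-- top side -/
theorem flatT (h : Prc P K A B m) {x : Z2} (hx : Gd P K A B m x) (hy : Gd P K A B m (x.1 + K, x.2))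
    (ht : ¬ Gd P K A B m (x.1, x.2 + K)) :
    BD.req (bd P K A B m x).mx + BD.req (bd P K A B m (x.1 + K, x.2)) ≤ 1 / 2 + (bd P K A B m x).aTr := by
  have key : BD.FlatFacts (m = 2) (4 ≤ m) (bd P K A B m x) (bd P K A B m (x.1 + K, x.2)) := by
    constructor
    · exact hy
    · show Gd P K A B m ((x.1 + K) - K, x.2)
      rw [e1]
      exact hx
    · show aT P K A B m x = aT P K A B m ((x.1 + K) - K, x.2)
      rw [e1]
    · exact aT_le h hx
    · intro h4
      omega
    · exact lemC h hx hy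
    · intro h4 a b
      exact b2Tl h h4 a b hy
    · intro h4 a b
      have := b2Tr h h4 (x := (x.1 + K, x.2)) a b (by
        show Gd P K A B m ((x.1 + K) - K, x.2)
        rw [e1]
        exact hx)
      have e : (((x.1 + K, x.2) : Z2).1 - K, ((x.1 + K, x.2) : Z2).2) = x := e1 x K
      rw [e] at this
      exact this
    · intro h4 a
      show - (1 / 4) ≤ aT P K A B m (x.1 - K, x.2) + aT P K A B m x
      have e : (((x.1 - K, x.2) : Z2).1 + K, ((x.1 - K, x.2) : Z2).2) = x := e3 x K
      have := ((aT_sum h (z := (x.1 - K, x.2)) a (by rw [e]; exact hx)).1 h4).1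
      rw [e] at this
      exact this
    · intro h4 a
      show - (1 / 4) ≤ aT P K A B m (x.1 + K, x.2) + aT P K A B m ((x.1 + K) - K, x.2)
      rw [e1, add_comm]
      exact ((aT_sum h hx hy).1 h4).1
    · intro h2 a b
      exact ht (gap3h h h2 a b)
    · intro h2 a
      show 0 ≤ aT P K A B m (x.1 - K, x.2) + aT P K A B m x
      have e : (((x.1 - K, x.2) : Z2).1 + K, ((x.1 - K, x.2) : Z2).2) = x := e3 x K
      have := ((aT_sum h (z := (x.1 - K, x.2)) a (by rw [e]; exact hx)).2 h2)
      rw [e] at this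
      exact this.ge
    · intro h2 a
      show 0 ≤ aT P K A B m (x.1 + K, x.2) + aT P K A B m ((x.1 + K) - K, x.2)
      rw [e1, add_comm]
      exact ((aT_sum h hx hy).2 h2).ge
  exact BD.flat (facts h hx) (facts h hy) key

/-- bottom side -/
theorem flatB (h : Prc P K A B m) {x : Z2} (hx : Gd P K A B m x) (hy : Gd P K A B m (x.1 + K, x.2))
    (hb : ¬ Gd P K A B m (x.1, x.2 - K)) :
    BD.req (bd P K A B m x).my.mx + BD.req (bd P K A B m (x.1 + K, x.2)).my ≤
      1 / 2 + (bd P K A B m x).aBr := by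
  have key : BD.FlatFacts (m = 2) (4 ≤ m) (bd P K A B m x).my (bd P K A B m (x.1 + K, x.2)).my := by
    constructor
    · exact hy
    · show Gd P K A B m ((x.1 + K) - K, x.2)
      rw [e1]
      exact hx
    · show - aT P K A B m x = - aT P K A B m ((x.1 + K) - K, x.2)
      rw [e1]
    · show - aT P K A B m x ≤ 1 / 4
      linarith [aT_ge h x]
    · intro h4
      omega
    · exact cB h hx hy
    · intro h4 a b
      exact b2Bl h h4 a b hy
    · intro h4 a b
      have := b2Br h h4 (x := (x.1 + K, x.2)) a b (by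
        show Gd P K A B m ((x.1 + K) - K, x.2)
        rw [e1]
        exact hx)
      have e : (((x.1 + K, x.2) : Z2).1 - K, ((x.1 + K, x.2) : Z2).2) = x := e1 x K
      rw [e] at this
      exact this
    · intro h4 a
      show - (1 / 4) ≤ - aT P K A B m (x.1 - K, x.2) + - aT P K A B m x
      have e : (((x.1 - K, x.2) : Z2).1 + K, ((x.1 - K, x.2) : Z2).2) = x := e3 x K
      have := ((aT_sum h (z := (x.1 - K, x.2)) a (by rw [e]; exact hx)).1 h4).2
      rw [e] at this
      linarith
    · intro h4 a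
      show - (1 / 4) ≤ - aT P K A B m (x.1 + K, x.2) + - aT P K A B m ((x.1 + K) - K, x.2)
      rw [e1]
      linarith [((aT_sum h hx hy).1 h4).2]
    · intro h2 a b
      exact hb (gap3h h h2 a b)
    · intro h2 a
      show 0 ≤ - aT P K A B m (x.1 - K, x.2) + - aT P K A B m x
      have e : (((x.1 - K, x.2) : Z2).1 + K, ((x.1 - K, x.2) : Z2).2) = x := e3 x K
      have := ((aT_sum h (z := (x.1 - K, x.2)) a (by rw [e]; exact hx)).2 h2)
      rw [e] at this
      linarith
    · intro h2 a
      show 0 ≤ - aT P K A B m (x.1 + K, x.2) + - aT P K A B m ((x.1 + K) - K, x.2)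
      rw [e1]
      linarith [((aT_sum h hx hy).2 h2)]
  exact BD.flat (facts h hx).my (facts h hy).my key

/-- right side -/
theorem flatR (h : Prc P K A B m) {x : Z2} (hx : Gd P K A B m x) (hy : Gd P K A B m (x.1, x.2 + K))
    (hr : ¬ Gd P K A B m (x.1 + K, x.2)) :
    BD.req (bd P K A B m x).tp.mx + BD.req (bd P K A B m (x.1, x.2 + K)).tp ≤
      1 / 2 + (bd P K A B m x).aRu := by
  have key : BD.FlatFacts (m = 2) (4 ≤ m) (bd P K A B m x).tp (bd P K A B m (x.1, x.2 + K)).tp := by
    constructor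
    · exact hy
    · show Gd P K A B m (x.1, (x.2 + K) - K)
      rw [e2]
      exact hx
    · show aR P K A B m x = aR P K A B m (x.1, (x.2 + K) - K)
      rw [e2]
    · exact aR_le h hx
    · intro h4
      omega
    · exact cR h hx hy
    · intro h4 a b
      exact b2Rd h h4 a b hy
    · intro h4 a b
      have := b2Ru h h4 (x := (x.1, x.2 + K)) a b (by
        show Gd P K A B m (x.1, (x.2 + K) - K)
        rw [e2]
        exact hx)
      have e : (((x.1, x.2 + K) : Z2).1, ((x.1, x.2 + K) : Z2).2 - K) = x := e2 x K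
      rw [e] at this
      exact this
    · intro h4 a
      show - (1 / 4) ≤ aR P K A B m (x.1, x.2 - K) + aR P K A B m x
      have e : (((x.1, x.2 - K) : Z2).1, ((x.1, x.2 - K) : Z2).2 + K) = x := e4 x K
      have := ((aR_sum h (z := (x.1, x.2 - K)) a (by rw [e]; exact hx)).1 h4).1
      rw [e] at this
      exact this
    · intro h4 a
      show - (1 / 4) ≤ aR P K A B m (x.1, x.2 + K) + aR P K A B m (x.1, (x.2 + K) - K)
      rw [e2, add_comm]
      exact ((aR_sum h hx hy).1 h4).1
    · intro h2 a b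
      exact hr (gap3v h h2 a b)
    · intro h2 a
      show 0 ≤ aR P K A B m (x.1, x.2 - K) + aR P K A B m x
      have e : (((x.1, x.2 - K) : Z2).1, ((x.1, x.2 - K) : Z2).2 + K) = x := e4 x K
      have := ((aR_sum h (z := (x.1, x.2 - K)) a (by rw [e]; exact hx)).2 h2)
      rw [e] at this
      exact this.ge
    · intro h2 a
      show 0 ≤ aR P K A B m (x.1, x.2 + K) + aR P K A B m (x.1, (x.2 + K) - K)
      rw [e2, add_comm]
      exact ((aR_sum h hx hy).2 h2).ge
  exact BD.flat (facts h hx).tp (facts h hy).tp key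

/-- left side -/
theorem flatL (h : Prc P K A B m) {x : Z2} (hx : Gd P K A B m x) (hy : Gd P K A B m (x.1, x.2 + K))
    (hl : ¬ Gd P K A B m (x.1 - K, x.2)) :
    BD.req (bd P K A B m x).tp.my.mx + BD.req (bd P K A B m (x.1, x.2 + K)).tp.my ≤
      1 / 2 + (bd P K A B m x).aLu := by
  have key : BD.FlatFacts (m = 2) (4 ≤ m) (bd P K A B m x).tp.my (bd P K A B m (x.1, x.2 + K)).tp.my := by
    constructor
    · exact hy
    · show Gd P K A B m (x.1, (x.2 + K) - K)
      rw [e2]
      exact hx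
    · show - aR P K A B m x = - aR P K A B m (x.1, (x.2 + K) - K)
      rw [e2]
    · show - aR P K A B m x ≤ 1 / 4
      linarith [aR_ge h x]
    · intro h4
      omega
    · exact cL h hx hy
    · intro h4 a b
      exact b2Ld h h4 a b hy
    · intro h4 a b
      have := b2Lu h h4 (x := (x.1, x.2 + K)) a b (by
        show Gd P K A B m (x.1, (x.2 + K) - K)
        rw [e2]
        exact hx)
      have e : (((x.1, x.2 + K) : Z2).1, ((x.1, x.2 + K) : Z2).2 - K) = x := e2 x K
      rw [e] at this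
      exact this
    · intro h4 a
      show - (1 / 4) ≤ - aR P K A B m (x.1, x.2 - K) + - aR P K A B m x
      have e : (((x.1, x.2 - K) : Z2).1, ((x.1, x.2 - K) : Z2).2 + K) = x := e4 x K
      have := ((aR_sum h (z := (x.1, x.2 - K)) a (by rw [e]; exact hx)).1 h4).2
      rw [e] at this
      linarith
    · intro h4 a
      show - (1 / 4) ≤ - aR P K A B m (x.1, x.2 + K) + - aR P K A B m (x.1, (x.2 + K) - K)
      rw [e2]
      linarith [((aR_sum h hx hy).1 h4).2]
    · intro h2 a b
      exact hl (gap3v h h2 a b)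
    · intro h2 a
      show 0 ≤ - aR P K A B m (x.1, x.2 - K) + - aR P K A B m x
      have e : (((x.1, x.2 - K) : Z2).1, ((x.1, x.2 - K) : Z2).2 + K) = x := e4 x K
      have := ((aR_sum h (z := (x.1, x.2 - K)) a (by rw [e]; exact hx)).2 h2)
      rw [e] at this
      linarith
    · intro h2 a
      show 0 ≤ - aR P K A B m (x.1, x.2 + K) + - aR P K A B m (x.1, (x.2 + K) - K)
      rw [e2]
      linarith [((aR_sum h hx hy).2 h2)]
  exact BD.flat (facts h hx).tp.my (facts h hy).tp.my key

end Prc23s
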