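import Pool.Agent.Prc23s.Sym

/-!
# Short gaps in a row (column) of good windows are filled
-/

namespace Prc23s

open Finset Classical Prc24

variable {P : Set Z2} {K A B : ℤ} {m : ℕ}

private lemma gaux_h (h : Prc P K A B m) {x y : ℤ} {k l : ℕ} (hlk : l ≤ k) (hkm : k ≤ m)
    (h1 : Gd P K A B m (x, y)) (h2 : Gd P K A B m (x + k * K, y)) (e : Z2)
    (he : e ∈ ct P K A B m (x + l * K, y)) :
    ∃ s : ℕ, l ≤ s ∧ s < l + m ∧ x + s * K ≤ e.1 ∧ e.1 < x + s * K + K ∧
      ((e ∈ ct P K A B m (x, y) ∧ s < m) ∨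
        (e ∈ ct P K A B m (x + k * K, y) ∧ k ≤ s ∧ x + m * K + A ≤ e.1)) := by
  have hA0 := h.A0
  have hAK := h.AK
  have hB0 := h.B0
  have hBK := h.BK
  have hK : 0 < K := by linarith
  obtain ⟨heP, hx1, hx2, hy1, hy2⟩ := mem_ct.1 he
  simp only at hx1 hx2 hy1 hy2
  have hlk' : (l : ℤ) * K ≤ k * K := by
    apply mul_le_mul_of_nonneg_right _ hK.le
    exact_mod_cast hlk
  have hl0 : (0 : ℤ) ≤ l * K := by positivity
  have hkm' : (k : ℤ) * K ≤ m * K := by
    apply mul_le_mul_of_nonneg_right _ hK.le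
    exact_mod_cast hkm
  by_cases hc : e.1 < x + (m * K + A)
  · have hez : e ∈ ct P K A B m (x, y) := by
      rw [mem_ct]
      simp only
      exact ⟨heP, by linarith, by linarith, by linarith, by linarith⟩
    obtain ⟨i, him, hi1, hi2⟩ := col_slot h h1 hez
    simp only at hi1 hi2
    refine ⟨i, ?_, by omega, by linarith, by linarith, Or.inl ⟨hez, him⟩⟩
    by_contra hcon
    push Not at hcon
    have h3 : ((i : ℤ) + 1) * K ≤ l * K := by
      apply mul_le_mul_of_nonneg_right _ hK.le
      exact_mod_cast hcon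
    have h4 : ((i : ℤ) + 1) * K = i * K + K := by ring
    linarith
  · push Not at hc
    have hez : e ∈ ct P K A B m (x + k * K, y) := by
      rw [mem_ct]
      simp only
      exact ⟨heP, by linarith, by linarith, by linarith, by linarith⟩
    obtain ⟨i, him, hi1, hi2⟩ := col_slot h h2 hez
    simp only at hi1 hi2
    have h5 : ((k + i : ℕ) : ℤ) * K = k * K + i * K := by push_cast; ring
    refine ⟨k + i, by omega, ?_, by rw [h5]; linarith, by rw [h5]; linarith,
      Or.inr ⟨hez, by omega, by linarith⟩⟩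
    by_contra hcon
    push Not at hcon
    have h3 : ((l : ℤ) + m) * K ≤ ((k + i : ℕ) : ℤ) * K := by
      apply mul_le_mul_of_nonneg_right _ hK.le
      exact_mod_cast hcon
    have h4 : ((l : ℤ) + m) * K = l * K + m * K := by ring
    linarith

lemma gap_h (h : Prc P K A B m) {x y : ℤ} {k l : ℕ} (hlk : l ≤ k) (hkm : k ≤ m)
    (h1 : Gd P K A B m (x, y)) (h2 : Gd P K A B m (x + k * K, y)) :
    Gd P K A B m (x + l * K, y) := by
  have hA0 := h.A0
  have hAK := h.AK
  have hB0 := h.B0
  have hBK := h.BK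
  have hK : 0 < K := by linarith
  apply le_antisymm _ (le_f h _)
  choose! s hs1 hs2 hs3 hs4 hs5 using gaux_h h hlk hkm h1 h2
  have hcard : (ct P K A B m (x + l * K, y)).card ≤ (Finset.Ico l (l + m)).card := by
    apply Finset.card_le_card_of_injOn s
    · intro e he
      have he' := Finset.mem_coe.1 he
      exact Finset.mem_coe.2 (Finset.mem_Ico.2 ⟨hs1 e he', hs2 e he'⟩)
    · intro e he e' he' hee
      have he1 := Finset.mem_coe.1 he
      have he2 := Finset.mem_coe.1 he'
      have a1 := hs3 e he1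
      have a2 := hs4 e he1
      have b1 := hs3 e' he2
      have b2 := hs4 e' he2
      rw [← hee] at b1 b2
      rcases hs5 e he1 with ⟨c1, c2⟩ | ⟨c1, c2, c3⟩
      · rcases hs5 e' he2 with ⟨d1, d2⟩ | ⟨d1, d2, d3⟩
        · exact col_inj h h1 c1 d1 a1 a2 b1 b2
        · exfalso
          have h3 : ((s e : ℤ) + 1) * K ≤ m * K := by
            apply mul_le_mul_of_nonneg_right _ hK.le
            exact_mod_cast c2
          have h4 : ((s e : ℤ) + 1) * K = s e * K + K := by ring
          linarith
      · rcases hs5 e' he2 with ⟨d1, d2⟩ | ⟨d1, d2, d3⟩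
        · exfalso
          rw [← hee] at d2
          have h3 : ((s e : ℤ) + 1) * K ≤ m * K := by
            apply mul_le_mul_of_nonneg_right _ hK.le
            exact_mod_cast d2
          have h4 : ((s e : ℤ) + 1) * K = s e * K + K := by ring
          linarith
        · obtain ⟨i, hi⟩ : ∃ i : ℕ, s e = k + i := ⟨s e - k, by omega⟩
          have h5 : ((s e : ℕ) : ℤ) * K = k * K + i * K := by rw [hi]; push_cast; ring
          rw [h5] at a1 a2 b1 b2
          exact col_inj h (i := i) h2 c1 d1 (by simp only; linarith) (by simp only; linarith)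
            (by simp only; linarith) (by simp only; linarith)
  rw [Nat.card_Ico] at hcard
  unfold f
  omega

lemma gap_v (h : Prc P K A B m) {x y : ℤ} {k l : ℕ} (hlk : l ≤ k) (hkm : k ≤ m)
    (h1 : Gd P K A B m (x, y)) (h2 : Gd P K A B m (x, y + k * K)) :
    Gd P K A B m (x, y + l * K) := by
  have a1 : Gd (tP P) K B A m (y, x) := (Gd_tP (z := (x, y))).2 h1
  have a2 : Gd (tP P) K B A m (y + k * K, x) := (Gd_tP (z := (x, y + k * K))).2 h2
  have a3 := gap_h (prc_tP h) hlk hkm a1 a2
  exact (Gd_tP (z := (x, y + l * K))).1 a3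

end Prc23s
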