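import Pool.Agent.Prc23s.Sym

/-!
# Facts about `kap` and `rho`
-/

namespace Prc23s

open Finset Classical Prc24

variable {P : Set Z2} {K A B : ℤ} {m : ℕ}

lemma Kpos (h : Prc P K A B m) : 0 < K := lt_trans h.A0 h.AK

/-- the point in the lowest row and its column -/
lemma kap_pt (h : Prc P K A B m) {z : Z2} (hz : Gd P K A B m z) : ∃ p ∈ ct P K A B m z, ∃ i : ℕ, i < m ∧
    p.2 < z.2 + K ∧ z.1 + i * K + A ≤ p.1 ∧ p.1 < z.1 + i * K + K ∧ kap P K A B m z = i := by
  have hK := Kpos h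
  obtain ⟨p, hp, h1, h2⟩ := row_ex h hz (i := 0) (by have := h.m2; omega)
  obtain ⟨i, hi, h3, h4⟩ := col_slot h hz hp
  have h2' : p.2 < z.2 + K := by
    push_cast at h2
    linarith
  refine ⟨p, hp, i, hi, h2', h3, h4, ?_⟩
  have hf : (ct P K A B m z).filter (fun q => q.2 < z.2 + K) = {p} := by
    ext q
    rw [mem_filter, mem_singleton]
    constructor
    · rintro ⟨hq, hq2⟩
      have hq' := mem_ct.1 hq
      have hp' := mem_ct.1 hp
      exact row_inj h hz (i := 0) hq hp (by push_cast; linarith [hq'.2.2.2.1]) (by push_cast; linarith)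
        (by push_cast; linarith [hp'.2.2.2.1]) (by push_cast; linarith)
    · rintro rfl
      exact ⟨hp, h2'⟩
  unfold kap
  rw [hf, sum_singleton]
  have e1 : p.1 - z.1 = (p.1 - z.1 - i * K) + i * K := by ring
  rw [e1, Int.add_mul_ediv_right _ _ hK.ne', Int.ediv_eq_zero_of_lt (by linarith [h.A0]) (by linarith)]
  ring

/-- the column of the point in the lowest row -/
lemma kap_eq (h : Prc P K A B m) {z p : Z2} (hz : Gd P K A B m z) (hp : p ∈ ct P K A B m z)
    (hp2 : p.2 < z.2 + K) {i : ℕ} (h1 : z.1 + i * K ≤ p.1) (h2 : p.1 < z.1 + i * K + K) :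
    kap P K A B m z = i := by
  have hK := Kpos h
  obtain ⟨q, hq, j, hj, hq2, h3, h4, h5⟩ := kap_pt h hz
  have hpq : p = q := row_inj h hz (i := 0) hp hq (by push_cast; linarith [(mem_ct.1 hp).2.2.2.1])
    (by push_cast; linarith) (by push_cast; linarith [(mem_ct.1 hq).2.2.2.1]) (by push_cast; linarith)
  subst hpq
  rw [h5]
  have e1 : (i : ℤ) * K < (j + 1) * K := by linarith [h.A0]
  have e2 : (j : ℤ) * K < (i + 1) * K := by linarith [h.A0]
  have e3 := lt_of_mul_lt_mul_right e1 hK.le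
  have e4 := lt_of_mul_lt_mul_right e2 hK.le
  omega

lemma kap_nonneg (h : Prc P K A B m) (z : Z2) : 0 ≤ kap P K A B m z := by
  unfold kap
  refine sum_nonneg fun p hp => ?_
  have := (mem_ct.1 (mem_filter.1 hp).1).2.1
  exact Int.ediv_nonneg (by linarith) (Kpos h).le

lemma kap_le (h : Prc P K A B m) {z : Z2} (hz : Gd P K A B m z) : kap P K A B m z ≤ m - 1 := by
  obtain ⟨p, hp, i, hi, -, -, -, h5⟩ := kap_pt h hz
  rw [h5]
  have : (i : ℤ) + 1 ≤ m := by exact_mod_cast hi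
  linarith

lemma kap_step_pos (h : Prc P K A B m) {z : Z2} (hz : Gd P K A B m z) (hz1 : Gd P K A B m (z.1 + K, z.2))
    (h0 : kap P K A B m z ≠ 0) : kap P K A B m (z.1 + K, z.2) = kap P K A B m z - 1 := by
  have hK := Kpos h
  obtain ⟨p, hp, i, hi, hp2, h3, h4, h5⟩ := kap_pt h hz
  obtain ⟨j, rfl⟩ : ∃ j, i = j + 1 := ⟨i - 1, by
    have : i ≠ 0 := by
      rintro rfl
      exact h0 h5
    omega⟩
  have hp' := mem_ct.1 hp
  push_cast at h3 h4
  have hj : (0 : ℤ) ≤ j * K := by positivity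
  have hp1 : p ∈ ct P K A B m (z.1 + K, z.2) := by
    rw [mem_ct]
    exact ⟨hp'.1, by simp only; linarith [h.A0], by simp only; linarith [hp'.2.2.1], hp'.2.2.2.1, hp'.2.2.2.2⟩
  rw [kap_eq h hz1 hp1 hp2 (i := j) (by simp only; linarith [h.A0]) (by simp only; linarith), h5]
  push_cast
  ring

lemma kap_step_zero (h : Prc P K A B m) {z : Z2} (hz : Gd P K A B m z) (hz1 : Gd P K A B m (z.1 + K, z.2))
    (h0 : kap P K A B m z = 0) : kap P K A B m (z.1 + K, z.2) = m - 1 := by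
  have hK := Kpos h
  obtain ⟨p, hp, i, hi, hp2, h3, h4, h5⟩ := kap_pt h hz
  have hi0 : i = 0 := by
    rw [h0] at h5
    exact_mod_cast h5.symm
  subst hi0
  obtain ⟨q, hq, j, hj, hq2, h6, h7, h8⟩ := kap_pt h hz1
  simp only at hq2 h6 h7
  have hq' := mem_ct.1 hq
  simp only at hq'
  by_cases hc : q.1 < z.1 + (m * K + A)
  · exfalso
    have hq1 : q ∈ ct P K A B m z := by
      rw [mem_ct]
      exact ⟨hq'.1, by linarith [hq'.2.1], hc, hq'.2.2.2.1, hq'.2.2.2.2⟩
    have hpq : p = q := row_inj h hz (i := 0) hp hq1 (by push_cast; linarith [(mem_ct.1 hp).2.2.2.1])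
      (by push_cast; linarith) (by push_cast; linarith [hq'.2.2.2.1]) (by push_cast; linarith)
    subst hpq
    push_cast at h4
    linarith [hq'.2.1]
  · push Not at hc
    rw [h8]
    have e1 : (m : ℤ) * K < (j + 2) * K := by linarith [h.A0]
    have e2 := lt_of_mul_lt_mul_right e1 hK.le
    have e3 : (j : ℤ) < m := by exact_mod_cast hj
    omega

/-- the values of consecutive vertical edges are different -/
lemma kap_ne (h : Prc P K A B m) {z : Z2} (hz : Gd P K A B m z) (hz1 : Gd P K A B m (z.1, z.2 + K)) :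
    kap P K A B m z ≠ kap P K A B m (z.1, z.2 + K) := by
  have hK := Kpos h
  obtain ⟨p, hp, i, hi, hp2, h3, h4, h5⟩ := kap_pt h hz
  obtain ⟨q, hq, j, hj, hq2, h6, h7, h8⟩ := kap_pt h hz1
  simp only at hq2 h6 h7
  have hq' := mem_ct.1 hq
  simp only at hq'
  intro heq
  rw [h5, h8] at heq
  have hij : i = j := by exact_mod_cast heq
  subst hij
  have hm : (2 : ℤ) * K ≤ m * K := mul_le_mul_of_nonneg_right (by exact_mod_cast h.m2) hK.le
  have hq1 : q ∈ ct P K A B m z := by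
    rw [mem_ct]
    exact ⟨hq'.1, hq'.2.1, hq'.2.2.1, by linarith [hq'.2.2.2.1], by linarith [h.B0]⟩
  have hpq : p = q := col_inj h hz (i := i) hp hq1 (by linarith [h.A0]) h4 (by linarith [h.A0]) h7
  subst hpq
  linarith [hq'.2.2.2.1]

lemma kap_mX (h : Prc P K A B m) {z : Z2} (hz : Gd P K A B m z) :
    kap (mX P) K A B m (wX K A m z) = m - 1 - kap P K A B m z := by
  have hK := Kpos h
  obtain ⟨p, hp, i, hi, hp2, h3, h4, h5⟩ := kap_pt h hz
  have hp' : ((-p.1, p.2) : Z2) ∈ ct (mX P) K A B m (wX K A m z) := by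
    rw [mem_ct_mX]
    simpa using hp
  obtain ⟨j, hj⟩ : ∃ j : ℕ, m = i + 1 + j := ⟨m - 1 - i, by omega⟩
  have hmj : (m : ℤ) * K = i * K + K + j * K := by
    rw [hj]
    push_cast
    ring
  rw [kap_eq (prc_mX h) (Gd_mX.2 hz) hp' hp2 (i := j) (by simp only [wX]; linarith [h.A0]) (by simp only [wX]; linarith [h.A0]), h5]
  rw [hj]
  push_cast
  ring

/-- a vertical edge: the top point of the upper window is in the same column as the bottom point of the lower window -/
lemma kap_mY (h : Prc P K A B m) {z : Z2} (hz : Gd P K A B m z) (hz1 : Gd P K A B m (z.1, z.2 + K)) :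
    kap (mY P) K A B m (wY K B m (z.1, z.2 + K)) = kap P K A B m z := by
  have hK := Kpos h
  obtain ⟨p, hp, i, hi, hp2, h3, h4, h5⟩ := kap_pt h hz
  obtain ⟨e, he, h6, h7⟩ := col_ex h hz1 hi
  simp only at h6 h7
  have he' := mem_ct.1 he
  simp only at he'
  have hc : z.2 + (m * K + B) ≤ e.2 := by
    by_contra hc
    push Not at hc
    have he1 : e ∈ ct P K A B m z := by
      rw [mem_ct]
      exact ⟨he'.1, he'.2.1, he'.2.2.1, by linarith [he'.2.2.2.1], hc⟩
    have hpe : p = e := col_inj h hz (i := i) hp he1 (by linarith [h.A0]) h4 (by linarith [h.A0]) h7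
    subst hpe
    linarith [he'.2.2.2.1]
  have he2 : ((e.1, -e.2) : Z2) ∈ ct (mY P) K A B m (wY K B m (z.1, z.2 + K)) := by
    rw [mem_ct_mY]
    simpa using he
  rw [kap_eq (prc_mY h) (Gd_mY.2 hz1) he2 (by simp only [wY]; linarith) (i := i) (by simp only [wY]; linarith [h.A0])
    (by simp only [wY]; linarith), h5]

/-! ### transposed facts -/

lemma kap_tP (z : Z2) : kap (tP P) K B A m (wT z) = rho P K A B m z := by
  unfold kap rho
  rw [ct_tP, filter_image, sum_image]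
  · rfl
  · intro p _ q _ hpq
    simp only [Prod.mk.injEq] at hpq
    exact Prod.ext hpq.2 hpq.1

lemma rho_pt (h : Prc P K A B m) {z : Z2} (hz : Gd P K A B m z) : ∃ p ∈ ct P K A B m z, ∃ i : ℕ, i < m ∧
    p.1 < z.1 + K ∧ z.2 + i * K + B ≤ p.2 ∧ p.2 < z.2 + i * K + K ∧ rho P K A B m z = i := by
  obtain ⟨p, hp, i, hi, h1, h2, h3, h4⟩ := kap_pt (prc_tP h) (Gd_tP.2 hz)
  rw [kap_tP] at h4
  exact ⟨(p.2, p.1), mem_ct_tP.1 hp, i, hi, h1, h2, h3, h4⟩

lemma wT_up (z : Z2) (K : ℤ) : wT (z.1, z.2 + K) = ((wT z).1 + K, (wT z).2) := rfl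

lemma wT_right (z : Z2) (K : ℤ) : wT (z.1 + K, z.2) = ((wT z).1, (wT z).2 + K) := rfl

lemma rho_eq (h : Prc P K A B m) {z p : Z2} (hz : Gd P K A B m z) (hp : p ∈ ct P K A B m z)
    (hp2 : p.1 < z.1 + K) {i : ℕ} (h1 : z.2 + i * K ≤ p.2) (h2 : p.2 < z.2 + i * K + K) :
    rho P K A B m z = i := by
  have e := kap_tP (P := P) (K := K) (A := A) (B := B) (m := m) z
  rw [← e]
  have hp' : ((p.2, p.1) : Z2) ∈ ct (tP P) K B A m (wT z) := mem_ct_tP.2 hp
  have hz' : Gd (tP P) K B A m (wT z) := Gd_tP.2 hz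
  exact kap_eq (prc_tP h) hz' hp' hp2 h1 h2

lemma rho_nonneg (h : Prc P K A B m) (z : Z2) : 0 ≤ rho P K A B m z := by
  have e := kap_tP (P := P) (K := K) (A := A) (B := B) (m := m) z
  rw [← e]
  exact kap_nonneg (prc_tP h) _

lemma rho_le (h : Prc P K A B m) {z : Z2} (hz : Gd P K A B m z) : rho P K A B m z ≤ m - 1 := by
  have e := kap_tP (P := P) (K := K) (A := A) (B := B) (m := m) z
  rw [← e]
  have hz' : Gd (tP P) K B A m (wT z) := Gd_tP.2 hz
  exact kap_le (prc_tP h) hz'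

lemma rho_step_pos (h : Prc P K A B m) {z : Z2} (hz : Gd P K A B m z) (hz1 : Gd P K A B m (z.1, z.2 + K))
    (h0 : rho P K A B m z ≠ 0) : rho P K A B m (z.1, z.2 + K) = rho P K A B m z - 1 := by
  have e := kap_tP (P := P) (K := K) (A := A) (B := B) (m := m) z
  have e1 := kap_tP (P := P) (K := K) (A := A) (B := B) (m := m) (z.1, z.2 + K)
  have hz' : Gd (tP P) K B A m (wT z) := Gd_tP.2 hz
  have hz1' : Gd (tP P) K B A m (wT (z.1, z.2 + K)) := Gd_tP.2 hz1
  rw [wT_up] at hz1' e1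
  rw [← e] at h0
  have h2 := kap_step_pos (prc_tP h) hz' hz1' h0
  rw [e1, e] at h2
  exact h2

lemma rho_step_zero (h : Prc P K A B m) {z : Z2} (hz : Gd P K A B m z) (hz1 : Gd P K A B m (z.1, z.2 + K))
    (h0 : rho P K A B m z = 0) : rho P K A B m (z.1, z.2 + K) = m - 1 := by
  have e := kap_tP (P := P) (K := K) (A := A) (B := B) (m := m) z
  have e1 := kap_tP (P := P) (K := K) (A := A) (B := B) (m := m) (z.1, z.2 + K)
  have hz' : Gd (tP P) K B A m (wT z) := Gd_tP.2 hz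
  have hz1' : Gd (tP P) K B A m (wT (z.1, z.2 + K)) := Gd_tP.2 hz1
  rw [wT_up] at hz1' e1
  rw [← e] at h0
  have h2 := kap_step_zero (prc_tP h) hz' hz1' h0
  rw [e1] at h2
  exact h2

lemma rho_ne (h : Prc P K A B m) {z : Z2} (hz : Gd P K A B m z) (hz1 : Gd P K A B m (z.1 + K, z.2)) :
    rho P K A B m z ≠ rho P K A B m (z.1 + K, z.2) := by
  have e := kap_tP (P := P) (K := K) (A := A) (B := B) (m := m) z
  have e1 := kap_tP (P := P) (K := K) (A := A) (B := B) (m := m) (z.1 + K, z.2)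
  have hz' : Gd (tP P) K B A m (wT z) := Gd_tP.2 hz
  have hz1' : Gd (tP P) K B A m (wT (z.1 + K, z.2)) := Gd_tP.2 hz1
  rw [wT_right] at hz1' e1
  have h2 := kap_ne (prc_tP h) hz' hz1'
  rw [e1, e] at h2
  exact h2

lemma rho_mY (h : Prc P K A B m) {z : Z2} (hz : Gd P K A B m z) :
    rho (mY P) K A B m (wY K B m z) = m - 1 - rho P K A B m z := by
  have e := kap_tP (P := P) (K := K) (A := A) (B := B) (m := m) z
  have e1 := kap_tP (P := mY P) (K := K) (A := A) (B := B) (m := m) (wY K B m z)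
  have e2 : tP (mY P) = mX (tP P) := rfl
  have e3 : wT (wY K B m z) = wX K B m (wT z) := rfl
  have hz' : Gd (tP P) K B A m (wT z) := Gd_tP.2 hz
  rw [← e1, ← e, e2, e3]
  exact kap_mX (prc_tP h) hz'

lemma rho_mX (h : Prc P K A B m) {z : Z2} (hz : Gd P K A B m z) (hz1 : Gd P K A B m (z.1 + K, z.2)) :
    rho (mX P) K A B m (wX K A m (z.1 + K, z.2)) = rho P K A B m z := by
  have e := kap_tP (P := P) (K := K) (A := A) (B := B) (m := m) z
  have e1 := kap_tP (P := mX P) (K := K) (A := A) (B := B) (m := m) (wX K A m (z.1 + K, z.2))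
  have e2 : tP (mX P) = mY (tP P) := rfl
  have e3 : wT (wX K A m (z.1 + K, z.2)) = wY K A m ((wT z).1, (wT z).2 + K) := rfl
  have hz' : Gd (tP P) K B A m (wT z) := Gd_tP.2 hz
  have hz1' : Gd (tP P) K B A m (wT (z.1 + K, z.2)) := Gd_tP.2 hz1
  rw [wT_right] at hz1'
  rw [← e1, ← e, e2, e3]
  exact kap_mY (prc_tP h) hz' hz1'

/-! ### the value zero -/

lemma kap_zero_iff (h : Prc P K A B m) {z : Z2} (hz : Gd P K A B m z) : kap P K A B m z = 0 ↔
    ∃ p ∈ ct P K A B m z, p.1 < z.1 + K ∧ p.2 < z.2 + K := by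
  constructor
  · intro h0
    obtain ⟨p, hp, i, hi, h1, h2, h3, h4⟩ := kap_pt h hz
    have hi0 : i = 0 := by
      rw [h0] at h4
      exact_mod_cast h4.symm
    subst hi0
    push_cast at h3
    exact ⟨p, hp, by linarith, h1⟩
  · rintro ⟨p, hp, h1, h2⟩
    have := kap_eq h hz hp h2 (i := 0) (by push_cast; linarith [(mem_ct.1 hp).2.1]) (by push_cast; linarith)
    exact_mod_cast this

lemma rho_zero_iff (h : Prc P K A B m) {z : Z2} (hz : Gd P K A B m z) : rho P K A B m z = 0 ↔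
    ∃ p ∈ ct P K A B m z, p.1 < z.1 + K ∧ p.2 < z.2 + K := by
  constructor
  · intro h0
    obtain ⟨p, hp, i, hi, h1, h2, h3, h4⟩ := rho_pt h hz
    have hi0 : i = 0 := by
      rw [h0] at h4
      exact_mod_cast h4.symm
    subst hi0
    push_cast at h3
    exact ⟨p, hp, h1, by linarith⟩
  · rintro ⟨p, hp, h1, h2⟩
    have := rho_eq h hz hp h1 (i := 0) (by push_cast; linarith [(mem_ct.1 hp).2.2.2.1]) (by push_cast; linarith)
    exact_mod_cast this

end Prc23s
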