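import Pool.Agent.Prc23s.KR
import Pool.Agent.Prc23s.Gap

/-!
# Top neighbours near an L vertex, nearest top neighbours of two adjacent windows
-/

namespace Prc23s

open Finset Classical Prc24

variable {P : Set Z2} {K A B : ℤ} {m : ℕ}

/-- if `v + (j, 0)` and `v + (0, 1)` are good and share a point then no top neighbour of `v + (j, 0)` is too far left -/
lemma lemB (h : Prc P K A B m) {v s : Z2} {j : ℕ} (hj1 : 1 ≤ j) (hj2 : j + 1 ≤ m)
    (h1 : Gd P K A B m (v.1 + j * K, v.2)) (h2 : Gd P K A B m (v.1, v.2 + K))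
    (hs1 : s ∈ ct P K A B m (v.1 + j * K, v.2)) (hs2 : s ∈ ct P K A B m (v.1, v.2 + K)) :
    ¬ Tl P K A B m (v.1 + j * K, v.2) := by
  have hK := Kpos h
  have hA0 := h.A0
  have hB0 := h.B0
  have hAK := h.AK
  have hBK := h.BK
  rintro ⟨t, ⟨htP, ht1, ht2, ht3, ht4⟩, p, hp, hlt⟩
  simp only at ht1 ht3 ht4
  -- `p` is in a column slot
  obtain ⟨i, hi, hi1, hi2⟩ := col_slot h h1 hp
  simp only at hi1 hi2
  have him : (i : ℤ) * K ≤ (m - 1) * K := by
    apply mul_le_mul_of_nonneg_right _ hK.le
    have : (i : ℤ) + 1 ≤ m := by exact_mod_cast hi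
    linarith
  have ht5 : t.1 < v.1 + j * K + K := by linarith
  -- `t` belongs to the window `v + (0, 1)`
  obtain ⟨q, hq, hq1, hq2⟩ := row_ex h h1 (i := 0) (by omega)
  simp only at hq1 hq2
  push_cast at hq1 hq2
  have ht6 := ht2 q hq
  have hjm : ((j : ℤ) + 1) * K ≤ m * K := by
    apply mul_le_mul_of_nonneg_right _ hK.le
    exact_mod_cast hj2
  have hj0 : (0 : ℤ) ≤ j * K := by positivity
  have hm2 : (2 : ℤ) * K ≤ m * K := mul_le_mul_of_nonneg_right (by exact_mod_cast h.m2) hK.le
  have htc : t ∈ ct P K A B m (v.1, v.2 + K) := by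
    rw [mem_ct]
    refine ⟨htP, ?_, ?_, ?_, ?_⟩ <;> simp only <;> linarith
  -- column of `t` in that window
  have hs1' := mem_ct.1 hs1
  simp only at hs1'
  obtain ⟨c, hc, hc1, hc2⟩ := col_slot h h2 hs2
  simp only at hc1 hc2
  have hts : t ≠ s := by
    rintro rfl
    have := hs1'.2.2.2.2
    linarith
  have hjc : j + 1 ≤ c := by
    have h5 : j ≤ c := by
      have : (j : ℤ) * K < (c + 1) * K := by linarith [hs1'.2.1]
      have := lt_of_mul_lt_mul_right this hK.le
      omega
    rcases h5.eq_or_lt with h6 | h6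
    · exfalso
      subst h6
      exact hts (col_inj h h2 htc hs2 (i := j) (by simp only; linarith) (by simp only; linarith)
        (by simp only; linarith) (by simp only; linarith))
    · exact h6
  have hst := col_chain h h2 (p := t) (q := s) htc hs2 (i := j) (j := c) (by omega) (by simp only; linarith)
    (by simp only; linarith) (by simp only; linarith) (by simp only; linarith)
  have hcm : (c : ℤ) + 1 ≤ m := by exact_mod_cast hc
  by_cases hps : p.1 ≤ s.1
  · have h7 := col_ext h h2 htc hs2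
    linarith
  · push Not at hps
    -- column of `s` in the window `v + (j, 0)` is `c - j`
    obtain ⟨d, rfl⟩ : ∃ d, c = j + d := ⟨c - j, by omega⟩
    push_cast at hc1 hc2 hst hcm
    have hdi : d ≤ i := by
      have : (d : ℤ) * K < (i + 1) * K := by
        have e : ((j : ℤ) + d) * K = j * K + d * K := by ring
        rw [e] at hc1
        linarith
      have := lt_of_mul_lt_mul_right this hK.le
      omega
    have e : ((j : ℤ) + d) * K = j * K + d * K := by ring
    rw [e] at hc1 hc2
    have hsp := col_chain h h1 (p := s) (q := p) hs1 hp (i := d) (j := i) hdi (by simp only; linarith)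
      (by simp only; linarith) (by simp only; linarith) (by simp only; linarith)
    have h8 : ((i : ℤ) - d) * K + ((j : ℤ) + d - j) * K ≤ (m - 1) * K := by
      have e2 : ((i : ℤ) - d) * K + ((j : ℤ) + d - j) * K = i * K := by ring
      rw [e2]
      exact him
    linarith

/-- a shared point of `v + (j, 0)` and `v + (0, 1)` -/
lemma shared (h : Prc P K A B m) {v : Z2} {j : ℕ} (h0 : Gd P K A B m v)
    (hj : j + 2 ≤ m ∨ (j + 1 ≤ m ∧ 1 ≤ j ∧ rho P K A B m v = 0)) :
    ∃ s, s ∈ ct P K A B m (v.1 + j * K, v.2) ∧ s ∈ ct P K A B m (v.1, v.2 + K) := by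
  have hK := Kpos h
  have hA0 := h.A0
  have hB0 := h.B0
  -- a point of `v` in the columns `≥ j` and the rows `≥ 1`
  have key : ∃ s ∈ ct P K A B m v, v.1 + j * K ≤ s.1 ∧ v.2 + K ≤ s.2 := by
    rcases hj with hj | ⟨hj, hj1, h00⟩
    · obtain ⟨p, hp, hp1, hp2⟩ := col_ex h h0 (i := j) (by omega)
      obtain ⟨q, hq, hq1, hq2⟩ := col_ex h h0 (i := j + 1) (by omega)
      push_cast at hq1 hq2
      by_cases hpr : v.2 + K ≤ p.2
      · exact ⟨p, hp, by linarith, hpr⟩
      · by_cases hqr : v.2 + K ≤ q.2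
        · exact ⟨q, hq, by linarith, hqr⟩
        · exfalso
          push Not at hpr hqr
          have : p = q := row_inj h h0 (i := 0) hp hq (by push_cast; linarith [(mem_ct.1 hp).2.2.2.1])
            (by push_cast; linarith) (by push_cast; linarith [(mem_ct.1 hq).2.2.2.1]) (by push_cast; linarith)
          subst this
          linarith
    · obtain ⟨p, hp, hp1, hp2⟩ := col_ex h h0 (i := j) (by omega)
      obtain ⟨q, hq, hq1, hq2⟩ := (rho_zero_iff h h0).1 h00
      have hjK : K ≤ j * K := by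
        have : (1 : ℤ) * K ≤ j * K := mul_le_mul_of_nonneg_right (by exact_mod_cast hj1) hK.le
        linarith
      by_cases hpr : v.2 + K ≤ p.2
      · exact ⟨p, hp, by linarith, hpr⟩
      · exfalso
        push Not at hpr
        have : p = q := row_inj h h0 (i := 0) hp hq (by push_cast; linarith [(mem_ct.1 hp).2.2.2.1])
          (by push_cast; linarith) (by push_cast; linarith [(mem_ct.1 hq).2.2.2.1]) (by push_cast; linarith)
        subst this
        linarith
  obtain ⟨s, hs, hs1, hs2⟩ := key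
  have hs' := mem_ct.1 hs
  have hj0 : (0 : ℤ) ≤ j * K := by positivity
  refine ⟨s, ?_, ?_⟩
  · rw [mem_ct]
    exact ⟨hs'.1, hs1, by simp only; linarith [hs'.2.2.1], hs'.2.2.2.1, hs'.2.2.2.2⟩
  · rw [mem_ct]
    exact ⟨hs'.1, hs'.2.1, hs'.2.2.1, hs2, by simp only; linarith [hs'.2.2.2.2]⟩

/-- the nearest top neighbours of two adjacent windows -/
lemma lemC (h : Prc P K A B m) {v : Z2} (h1 : Gd P K A B m v) (h2 : Gd P K A B m (v.1 + K, v.2)) :
    ¬ (Th P K A B m v ∧ ¬ Tl P K A B m v ∧ ¬ Tm P K A B m v ∧ Tl P K A B m (v.1 + K, v.2) ∧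
      ¬ Th P K A B m (v.1 + K, v.2) ∧ ¬ Tm P K A B m (v.1 + K, v.2)) := by
  have hK := Kpos h
  have hA0 := h.A0
  have hB0 := h.B0
  have hAK := h.AK
  have hBK := h.BK
  have hm2 : (2 : ℤ) * K ≤ m * K := mul_le_mul_of_nonneg_right (by exact_mod_cast h.m2) hK.le
  rintro ⟨hTh, hnTl, hnTm, hTl, hnTh, hnTm'⟩
  obtain ⟨t, ht, p, hp, hpt⟩ := hTh
  obtain ⟨t', ht', p', hp', hpt'⟩ := hTl
  obtain ⟨htP, ht1, ht2, ht3, ht4⟩ := ht
  obtain ⟨htP', ht1', ht2', ht3', ht4'⟩ := ht'
  simp only at ht1' ht3' ht4'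
  have hp0 := mem_ct.1 hp
  have hp0' := mem_ct.1 hp'
  simp only at hp0'
  -- a common top neighbour gives a contradiction
  have key : ∀ s : Z2, Tn P K A B m v s → Tn P K A B m (v.1 + K, v.2) s → False := by
    intro s hs hs'
    -- not too far left for `v`: so too far right for some point of `v`
    have a1 : ∀ q ∈ ct P K A B m v, q.1 ≤ s.1 + (m - 1) * K := by
      intro q hq
      by_contra hc
      push Not at hc
      exact hnTl ⟨s, hs, q, hq, hc⟩
    have a2 : ∃ q ∈ ct P K A B m v, q.1 + (m - 1) * K < s.1 := by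
      by_contra hc
      push Not at hc
      apply hnTm
      refine ⟨s, hs.1, fun q hq => ⟨?_, hs.2.2.1 q hq, a1 q hq, by linarith [hc q hq]⟩⟩
      linarith [(mem_ct.1 hq).2.2.2.2, hs.2.1]
    have b1 : ∀ q ∈ ct P K A B m (v.1 + K, v.2), s.1 ≤ q.1 + (m - 1) * K := by
      intro q hq
      by_contra hc
      push Not at hc
      exact hnTh ⟨s, hs', q, hq, hc⟩
    have b2 : ∃ q ∈ ct P K A B m (v.1 + K, v.2), s.1 + (m - 1) * K < q.1 := by
      by_contra hc
      push Not at hc
      apply hnTm'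
      refine ⟨s, hs'.1, fun q hq => ⟨?_, hs'.2.2.1 q hq, by linarith [hc q hq], b1 q hq⟩⟩
      have := (mem_ct.1 hq).2.2.2.2
      have := hs'.2.1
      simp only at *
      linarith
    obtain ⟨q, hq, hq1⟩ := a2
    obtain ⟨q', hq', hq1'⟩ := b2
    -- a shared point
    obtain ⟨r, hr, hr1, hr2⟩ := col_ex h h1 (i := 1) (by have := h.m2; omega)
    push_cast at hr1 hr2
    have hr' := mem_ct.1 hr
    have hrs : r ∈ ct P K A B m (v.1 + K, v.2) := by
      rw [mem_ct]
      exact ⟨hr'.1, by simp only; linarith, by simp only; linarith [hr'.2.2.1], hr'.2.2.2.1, hr'.2.2.2.2⟩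
    have g1 := col_ext h h2 hrs hq'
    obtain ⟨c, hc, hc1, hc2⟩ := col_slot h h1 hq
    have g2 : r.1 ≤ q.1 + K := by
      rcases Nat.eq_zero_or_pos c with h0 | h0
      · subst h0
        push_cast at hc1 hc2
        have := col_chain h h1 (p := q) (q := r) hq hr (i := 0) (j := 1) (by omega) (by push_cast; linarith)
          (by push_cast; linarith) (by push_cast; linarith) (by push_cast; linarith)
        push_cast at this
        linarith
      · have : (1 : ℤ) * K ≤ c * K := mul_le_mul_of_nonneg_right (by exact_mod_cast h0) hK.le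
        linarith
    have f3 : (2 * ((m : ℤ) - 1)) * K ≥ m * K := by
      apply mul_le_mul_of_nonneg_right _ hK.le
      have : (2 : ℤ) ≤ m := by exact_mod_cast h.m2
      linarith
    linarith
  -- the two neighbours
  obtain ⟨c, hc, hc1, hc2⟩ := col_slot h h1 hp
  obtain ⟨c', hc', hc1', hc2'⟩ := col_slot h h2 hp'
  simp only at hc1' hc2'
  have f1 : (c' : ℤ) * K ≤ (m - 1) * K := by
    apply mul_le_mul_of_nonneg_right _ hK.le
    have : (c' : ℤ) + 1 ≤ m := by exact_mod_cast hc'
    linarith
  have f2 : (0 : ℤ) ≤ c * K := by positivity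
  -- every point of `v + 1` which is not in `v` is at least as high as ... : the two cases
  rcases le_total t.2 t'.2 with hle | hle
  · apply key t ⟨htP, ht1, ht2, ht3, ht4⟩
    refine ⟨htP, ht1, fun q hq => (hle.trans (ht2' q hq)), ?_, ?_⟩
    · simp only
      linarith
    · simp only
      linarith
  · apply key t' ⟨htP', ht1', fun q hq => (hle.trans (ht2 q hq)), ?_, ?_⟩ ⟨htP', ht1', ht2', ht3', ht4'⟩
    · linarith
    · linarith

end Prc23s
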