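import Pool.Agent.Prc23s.VtxG

/-!
# The discharging inequality
-/

namespace Prc23s

open Finset Classical Prc24

variable {P : Set Z2} {K A B : ℤ} {m : ℕ}

/-! ### what the windows receive from their four corners -/

private noncomputable def g0 (P : Set Z2) (K A B : ℤ) (m : ℕ) (x : Z2) : ℝ :=
  if Gd P K A B m x then BD.cor (m = 2) (bd P K A B m x) else 0
private noncomputable def g1 (P : Set Z2) (K A B : ℤ) (m : ℕ) (x : Z2) : ℝ :=
  if Gd P K A B m x then BD.cor (m = 2) (bd P K A B m x).mx else 0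
private noncomputable def g2 (P : Set Z2) (K A B : ℤ) (m : ℕ) (x : Z2) : ℝ :=
  if Gd P K A B m x then BD.cor (m = 2) (bd P K A B m x).my else 0
private noncomputable def g3 (P : Set Z2) (K A B : ℤ) (m : ℕ) (x : Z2) : ℝ :=
  if Gd P K A B m x then BD.cor (m = 2) (bd P K A B m x).mx.my else 0

/-! ### the edge terms -/

private noncomputable def hT (P : Set Z2) (K A B : ℤ) (m : ℕ) (x : Z2) : ℝ :=
  if Gd P K A B m x ∧ Gd P K A B m (x.1 + K, x.2) then aT P K A B m x - 1 / 2 else 0
private noncomputable def hB (P : Set Z2) (K A B : ℤ) (m : ℕ) (x : Z2) : ℝ :=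
  if Gd P K A B m x ∧ Gd P K A B m (x.1 + K, x.2) then - aT P K A B m x - 1 / 2 else 0
private noncomputable def hR (P : Set Z2) (K A B : ℤ) (m : ℕ) (x : Z2) : ℝ :=
  if Gd P K A B m x ∧ Gd P K A B m (x.1, x.2 + K) then aR P K A B m x - 1 / 2 else 0
private noncomputable def hL (P : Set Z2) (K A B : ℤ) (m : ℕ) (x : Z2) : ℝ :=
  if Gd P K A B m x ∧ Gd P K A B m (x.1, x.2 + K) then - aR P K A B m x - 1 / 2 else 0
private noncomputable def ff (P : Set Z2) (K A B : ℤ) (m : ℕ) (x : Z2) : ℝ :=
  fa P K A B m x * (1 - (1 - kk P K A B m x) / ((m : ℝ) - 1))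

private lemma val_le {two : Prop} {d : BD} (F : BD.Facts two d) : BD.val d ≤ 1 / 4 := by
  unfold BD.val
  split_ifs with h1 h2
  · linarith [F.sl, F.nBl h1.2]
  · exact BD.req_le F h1.2
  · norm_num

private lemma cor_bd {two : Prop} {d : BD} (F : BD.Facts two d) : |BD.cor two d| ≤ 2 := by
  unfold BD.cor
  have h1 := BD.val_ge F.mx
  have h2 := BD.val_ge F.tp.mx
  have h3 := val_le F.mx
  have h4 := val_le F.tp.mx
  have h5 : 0 ≤ BD.sup two d ∧ BD.sup two d ≤ 1 := by
    unfold BD.sup
    split_ifs <;> norm_num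
  rw [abs_le]
  constructor <;> linarith [h5.1, h5.2]

private lemma bd_if {Q : Z2 → Prop} {g : Z2 → ℝ} {C : ℝ} (hC : 0 ≤ C)
    (hg : ∀ z, Q z → |g z| ≤ C) : Prc92.Bd (fun z => if Q z then g z else 0) := by
  refine ⟨C, fun z => ?_⟩
  by_cases hq : Q z
  · simp only [hq, if_true]
    exact hg z hq
  · simp only [hq, if_false, abs_zero]
    exact hC

private lemma b0 (h : Prc P K A B m) : Prc92.Bd (g0 P K A B m) :=
  bd_if (C := 2) (by norm_num) fun _ hz => cor_bd (facts h hz)
private lemma b1 (h : Prc P K A B m) : Prc92.Bd (g1 P K A B m) :=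
  bd_if (C := 2) (by norm_num) fun _ hz => cor_bd (facts h hz).mx
private lemma b2 (h : Prc P K A B m) : Prc92.Bd (g2 P K A B m) :=
  bd_if (C := 2) (by norm_num) fun _ hz => cor_bd (facts h hz).my
private lemma b3 (h : Prc P K A B m) : Prc92.Bd (g3 P K A B m) :=
  bd_if (C := 2) (by norm_num) fun _ hz => cor_bd (facts h hz).mx.my

private lemma bT (h : Prc P K A B m) : Prc92.Bd (hT P K A B m) := by
  refine ⟨1, fun z => ?_⟩
  unfold hT
  by_cases hz : Gd P K A B m z ∧ Gd P K A B m (z.1 + K, z.2)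
  · rw [if_pos hz, abs_le]
    constructor <;> linarith [aT_ge h z, aT_le h hz.1]
  · rw [if_neg hz, abs_zero]
    norm_num
private lemma bB (h : Prc P K A B m) : Prc92.Bd (hB P K A B m) := by
  refine ⟨1, fun z => ?_⟩
  unfold hB
  by_cases hz : Gd P K A B m z ∧ Gd P K A B m (z.1 + K, z.2)
  · rw [if_pos hz, abs_le]
    constructor <;> linarith [aT_ge h z, aT_le h hz.1]
  · rw [if_neg hz, abs_zero]
    norm_num
private lemma bR (h : Prc P K A B m) : Prc92.Bd (hR P K A B m) := by
  refine ⟨1, fun z => ?_⟩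
  unfold hR
  by_cases hz : Gd P K A B m z ∧ Gd P K A B m (z.1, z.2 + K)
  · rw [if_pos hz, abs_le]
    constructor <;> linarith [aR_ge h z, aR_le h hz.1]
  · rw [if_neg hz, abs_zero]
    norm_num
private lemma bL (h : Prc P K A B m) : Prc92.Bd (hL P K A B m) := by
  refine ⟨1, fun z => ?_⟩
  unfold hL
  by_cases hz : Gd P K A B m z ∧ Gd P K A B m (z.1, z.2 + K)
  · rw [if_pos hz, abs_le]
    constructor <;> linarith [aR_ge h z, aR_le h hz.1]
  · rw [if_neg hz, abs_zero]
    norm_num

private lemma bff : Prc92.Bd (ff P K A B m) := by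
  have h1 : Prc92.Bd (fun v => 1 - (1 - kk P K A B m v) / ((m : ℝ) - 1)) := by
    refine (Prc92.Bd.const 1).sub ?_
    have h2 : (fun v => (1 - kk P K A B m v) / ((m : ℝ) - 1)) =
        fun v => (((m : ℝ) - 1)⁻¹) * (1 - kk P K A B m v) := by
      funext v
      rw [div_eq_inv_mul]
    rw [h2]
    exact ((Prc92.Bd.const 1).sub kk_bd).smul _
  exact fa_bd.mul h1

private lemma btt : Prc92.Bd (tt P K A B m) := by
  refine Prc92.Bd.of_le 2 (fun z => ?_) (fun z => ?_)
  · unfold tt
    have : (0 : ℝ) ≤ nf P K A B m z := Nat.cast_nonneg _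
    split_ifs <;> positivity
  · unfold tt
    have h1 : (if m = 2 then min 1 ((nf P K A B m z : ℝ) / 2) else min 1 (nf P K A B m z : ℝ)) ≤ 1 := by
      split_ifs
      · exact min_le_left _ _
      · exact min_le_left _ _
    have h2 : (if K1 P K A B m z then (1 : ℝ) else 0) ≤ 1 := by split_ifs <;> norm_num
    linarith

/-- the inequality at a vertex -/
private lemma vertex_le (h : Prc P K A B m) (v : Z2) :
    g0 P K A B m v + g1 P K A B m (v.1 + K, v.2) + g2 P K A B m (v.1, v.2 + K) +
      g3 P K A B m (v.1 + K, v.2 + K) ≤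
    tt P K A B m v + ff P K A B m v + hT P K A B m v + hR P K A B m v + hL P K A B m (v.1 + K, v.2) +
      hB P K A B m (v.1, v.2 + K) := by
  have key := BD.vtx (two := (m = 2)) (comp (P := P) (K := K) (A := A) (B := B) (m := m) v)
    (k := kk P K A B m v) (f := 1 - (1 - kk P K A B m v) / ((m : ℝ) - 1))
    (fun a b c _ => flatT h a b c)
    (fun a c b _ => flatR h a c b)
    (fun b e a _ => flatL h b e (by
      show ¬ Gd P K A B m ((v.1 + K) - K, v.2)
      rw [add_sub_cancel_right]
      exact a))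
    (fun c e a _ => flatB h c e (by
      show ¬ Gd P K A B m (v.1, (v.2 + K) - K)
      rw [add_sub_cancel_right]
      exact a))
    (fun a b c e => face_id h a b c e)
  have htw := tw_le h v
  unfold g0 g1 g2 g3 ff hT hR hL hB fa
  have e1 : (if Fa P K A B m v then (1 : ℝ) else 0) * (1 - (1 - kk P K A B m v) / ((m : ℝ) - 1)) =
      if Gd P K A B m v ∧ Gd P K A B m (v.1 + K, v.2) ∧ Gd P K A B m (v.1, v.2 + K) ∧
        Gd P K A B m (v.1 + K, v.2 + K) then 1 - (1 - kk P K A B m v) / ((m : ℝ) - 1) else 0 := by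
    rw [ite_mul, one_mul, zero_mul]
    by_cases hF : Gd P K A B m v ∧ Gd P K A B m (v.1 + K, v.2) ∧ Gd P K A B m (v.1, v.2 + K) ∧
        Gd P K A B m (v.1 + K, v.2 + K)
    · rw [if_pos hF, if_pos (show Fa P K A B m v from hF)]
    · rw [if_neg hF, if_neg (show ¬ Fa P K A B m v from hF)]
  rw [e1]
  have k1 : (bd P K A B m v).aTr = aT P K A B m v := rfl
  have k2 : (bd P K A B m v).aRu = aR P K A B m v := rfl
  have k3 : (bd P K A B m (v.1 + K, v.2)).aLu = - aR P K A B m (v.1 + K, v.2) := rfl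
  have k4 : (bd P K A B m (v.1, v.2 + K)).aBr = - aT P K A B m (v.1, v.2 + K) := rfl
  rw [k1, k2, k3, k4] at key
  simp only at *
  linarith

/-- the inequality at a window -/
private lemma window_ge (h : Prc P K A B m) (x : Z2) :
    jcost P K A B m x ≤ g0 P K A B m x + g1 P K A B m x + g2 P K A B m x + g3 P K A B m x := by
  unfold jcost g0 g1 g2 g3
  by_cases hx : Gd P K A B m x
  · simp only [hx, if_true]
    have key := BD.box (facts h hx)
    unfold BD.rec4 at key
    refine le_trans ?_ key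
    have hm := m1pos h
    have hm' : (m : ℝ) - 1 = ((m - 1 : ℕ) : ℝ) := by
      rw [Nat.cast_sub (le_trans (by norm_num) h.m2)]
      norm_num
    have u1 := card_up h hx
    have u2 := card_dn h hx
    have a1 : (ju P K A B m x : ℝ) ≤ ((m : ℝ) - 1) *
        (if (bd P K A B m x).jNE ∨ (bd P K A B m x).jNW then 1 else 0) := by
      by_cases hj : (bd P K A B m x).jNE ∨ (bd P K A B m x).jNW
      · rw [if_pos hj, hm', mul_one]
        unfold ju
        exact_mod_cast u1
      · rw [if_neg hj]
        have : (ct P K A B m x).filter (fun p => jNE P K A B m x p ∨ jNW P K A B m x p) = ∅ := by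
          rw [Finset.filter_eq_empty_iff]
          rintro p hp (h1 | h1)
          · exact hj (Or.inl ⟨p, hp, h1⟩)
          · exact hj (Or.inr ⟨p, hp, h1⟩)
        unfold ju
        rw [this]
        simp
    have a2 : (jd P K A B m x : ℝ) ≤ ((m : ℝ) - 1) *
        (if (bd P K A B m x).jSE ∨ (bd P K A B m x).jSW then 1 else 0) := by
      by_cases hj : (bd P K A B m x).jSE ∨ (bd P K A B m x).jSW
      · rw [if_pos hj, hm', mul_one]
        unfold jd
        exact_mod_cast u2
      · rw [if_neg hj]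
        have : (ct P K A B m x).filter (fun p => jSE P K A B m x p ∨ jSW P K A B m x p) = ∅ := by
          rw [Finset.filter_eq_empty_iff]
          rintro p hp (h1 | h1)
          · exact hj (Or.inl ⟨p, hp, h1⟩)
          · exact hj (Or.inr ⟨p, hp, h1⟩)
        unfold jd
        rw [this]
        simp
    have a3 : (if (bd P K A B m x).jNE ∨ (bd P K A B m x).jNW then (1 : ℝ) / 2 else 0) =
        (if (bd P K A B m x).jNE ∨ (bd P K A B m x).jNW then 1 else 0) / 2 := by
      split_ifs <;> norm_num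
    have a4 : (if (bd P K A B m x).jSE ∨ (bd P K A B m x).jSW then (1 : ℝ) / 2 else 0) =
        (if (bd P K A B m x).jSE ∨ (bd P K A B m x).jSW then 1 else 0) / 2 := by
      split_ifs <;> norm_num
    rw [a3, a4, div_le_iff₀ (by linarith)]
    generalize (if (bd P K A B m x).jNE ∨ (bd P K A B m x).jNW then (1 : ℝ) else 0) = t1 at *
    generalize (if (bd P K A B m x).jSE ∨ (bd P K A B m x).jSW then (1 : ℝ) else 0) = t2 at *
    nlinarith
  · simp [hx]

private lemma shift_x (μ : Prc92.Mean) {g : Z2 → ℝ} (hg : Prc92.Bd g) (K : ℤ) :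
    μ.M (fun v => g (v.1 + K, v.2)) = μ.M g := by
  rw [← μ.shift g hg (K, 0)]
  congr 1
  funext v
  congr 1
  exact Prod.ext rfl (by simp)

private lemma shift_y (μ : Prc92.Mean) {g : Z2 → ℝ} (hg : Prc92.Bd g) (K : ℤ) :
    μ.M (fun v => g (v.1, v.2 + K)) = μ.M g := by
  rw [← μ.shift g hg (0, K)]
  congr 1
  funext v
  congr 1
  exact Prod.ext (by simp) rfl

private lemma shift_xy (μ : Prc92.Mean) {g : Z2 → ℝ} (hg : Prc92.Bd g) (K : ℤ) :
    μ.M (fun v => g (v.1 + K, v.2 + K)) = μ.M g := by
  rw [← μ.shift g hg (K, K)]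
  congr 1

/-- the discharging inequality -/
theorem discharge (μ : Prc92.Mean) (h : Prc P K A B m) :
    μ.M (vcost P K A B m) + μ.M (jcost P K A B m) ≤ μ.M (tt P K A B m) := by
  have c0 := b0 h
  have c1 := b1 h
  have c2 := b2 h
  have c3 := b3 h
  have dT := bT h
  have dB := bB h
  have dR := bR h
  have dL := bL h
  have dt := btt (P := P) (K := K) (A := A) (B := B) (m := m)
  have df := bff (P := P) (K := K) (A := A) (B := B) (m := m)
  have bev := ev_bd (P := P) (K := K) (A := A) (B := B) (m := m)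
  have beh := eh_bd (P := P) (K := K) (A := A) (B := B) (m := m)
  -- shifted functions
  have c1' : Prc92.Bd (fun v : Z2 => g1 P K A B m (v.1 + K, v.2)) := c1.comp _
  have c2' : Prc92.Bd (fun v : Z2 => g2 P K A B m (v.1, v.2 + K)) := c2.comp _
  have c3' : Prc92.Bd (fun v : Z2 => g3 P K A B m (v.1 + K, v.2 + K)) := c3.comp _
  have dL' : Prc92.Bd (fun v : Z2 => hL P K A B m (v.1 + K, v.2)) := dL.comp _
  have dB' : Prc92.Bd (fun v : Z2 => hB P K A B m (v.1, v.2 + K)) := dB.comp _
  have ev' : Prc92.Bd (fun v : Z2 => ev P K A B m (v.1 + K, v.2)) := bev.comp _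
  have eh' : Prc92.Bd (fun v : Z2 => eh P K A B m (v.1, v.2 + K)) := beh.comp _
  -- the sum over the vertices
  have V := μ.mono _ _ (((c0.add c1').add c2').add c3') (((((dt.add df).add dT).add dR).add dL').add dB')
    (fun v => vertex_le h v)
  rw [μ.add _ _ ((c0.add c1').add c2') c3', μ.add _ _ (c0.add c1') c2', μ.add _ _ c0 c1',
    μ.add _ _ ((((dt.add df).add dT).add dR).add dL') dB', μ.add _ _ (((dt.add df).add dT).add dR) dL',
    μ.add _ _ ((dt.add df).add dT) dR, μ.add _ _ (dt.add df) dT, μ.add _ _ dt df,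
    shift_x μ c1, shift_y μ c2, shift_xy μ c3, shift_x μ dL, shift_y μ dB] at V
  -- the sum over the windows
  have bj : Prc92.Bd (jcost P K A B m) := by
    unfold jcost
    have hj := j_bd (P := P) (K := K) (A := A) (B := B) (m := m)
    have e : (fun z => if Gd P K A B m z then ((ju P K A B m z : ℝ) + jd P K A B m z) / (2 * ((m : ℝ) - 1)) else 0) =
        fun z => ((2 * ((m : ℝ) - 1))⁻¹) * (if Gd P K A B m z then ((ju P K A B m z : ℝ) + jd P K A B m z) else 0) := by
      funext z
      by_cases hz : Gd P K A B m z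
      · simp only [hz, if_true]
        rw [div_eq_inv_mul]
      · simp [hz]
    rw [e]
    exact hj.smul _
  have W := μ.mono _ _ bj (((c0.add c1).add c2).add c3) (fun x => window_ge h x)
  rw [μ.add _ _ ((c0.add c1).add c2) c3, μ.add _ _ (c0.add c1) c2, μ.add _ _ c0 c1] at W
  -- the edges
  have E1 : μ.M (hT P K A B m) + μ.M (hB P K A B m) = - μ.M (eh P K A B m) := by
    have e : (fun v => hT P K A B m v + hB P K A B m v) = fun v => (-1) * eh P K A B m v := by
      funext v
      unfold hT hB eh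
      by_cases hv : Gd P K A B m v ∧ Gd P K A B m (v.1 + K, v.2)
      · simp only [hv, and_self, if_true]
        ring
      · simp [hv]
    rw [← μ.add _ _ dT dB, e, μ.smul _ _ beh]
    ring
  have E2 : μ.M (hR P K A B m) + μ.M (hL P K A B m) = - μ.M (ev P K A B m) := by
    have e : (fun v => hR P K A B m v + hL P K A B m v) = fun v => (-1) * ev P K A B m v := by
      funext v
      unfold hR hL ev
      by_cases hv : Gd P K A B m v ∧ Gd P K A B m (v.1, v.2 + K)
      · simp only [hv, and_self, if_true]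
        ring
      · simp [hv]
    rw [← μ.add _ _ dR dL, e, μ.smul _ _ bev]
    ring
  -- vcost
  have VC : μ.M (vcost P K A B m) = μ.M (ev P K A B m) + μ.M (eh P K A B m) - μ.M (ff P K A B m) := by
    have s1 : Prc92.Bd (fun v : Z2 => ev P K A B m v + ev P K A B m (v.1 + K, v.2)) := bev.add ev'
    have s2 : Prc92.Bd (fun v : Z2 => ev P K A B m v + ev P K A B m (v.1 + K, v.2) + eh P K A B m v) := s1.add beh
    have s3 : Prc92.Bd (fun v : Z2 => ev P K A B m v + ev P K A B m (v.1 + K, v.2) + eh P K A B m v +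
      eh P K A B m (v.1, v.2 + K)) := s2.add eh'
    have e : vcost P K A B m = fun v => (1 / 2 : ℝ) * (ev P K A B m v + ev P K A B m (v.1 + K, v.2) +
        eh P K A B m v + eh P K A B m (v.1, v.2 + K)) + (-1) * ff P K A B m v := by
      funext v
      unfold vcost ff
      ring
    rw [e, μ.add _ _ (s3.smul _) (df.smul _), μ.smul _ _ s3, μ.smul _ _ df, μ.add _ _ s2 eh', μ.add _ _ s1 beh,
      μ.add _ _ bev ev', shift_x μ bev, shift_y μ beh]
    ring
  rw [VC]
  linarith

end Prc23s
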