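import Pool.Agent.Prc23s.Defs

/-!
# Transfer under the symmetries
-/

namespace Prc23s

open Finset Classical Prc24

variable {P : Set Z2} {K A B : ℤ} {m : ℕ}

/-! ### left-right -/

lemma prc_mX (h : Prc P K A B m) : Prc (mX P) K A B m where
  A0 := h.A0
  AK := h.AK
  B0 := h.B0
  BK := h.BK
  m2 := h.m2
  hor := by
    intro x y
    obtain ⟨p, hp, h1, h2, h3, h4⟩ := h.hor (-x - (m * K + A) + 1) y
    refine ⟨(-p.1, p.2), ?_, ?_, ?_, h3, h4⟩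
    · show (- -p.1, p.2) ∈ P
      rw [neg_neg]
      exact hp
    · show x ≤ -p.1
      linarith
    · show -p.1 < x + (m * K + A)
      linarith
  ver := by
    intro x y
    obtain ⟨p, hp, h1, h2, h3, h4⟩ := h.ver (-x - K + 1) y
    refine ⟨(-p.1, p.2), ?_, ?_, ?_, h3, h4⟩
    · show (- -p.1, p.2) ∈ P
      rw [neg_neg]
      exact hp
    · show x ≤ -p.1
      linarith
    · show -p.1 < x + K
      linarith

lemma mem_ct_mX {z p : Z2} : p ∈ ct (mX P) K A B m (wX K A m z) ↔ (-p.1, p.2) ∈ ct P K A B m z := by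
  rw [mem_ct, mem_ct]
  show ((-p.1, p.2) ∈ P ∧ - z.1 - (m * K + A) + 1 ≤ p.1 ∧ p.1 < - z.1 - (m * K + A) + 1 + (m * K + A) ∧ z.2 ≤ p.2 ∧
    p.2 < z.2 + (m * K + B)) ↔ (-p.1, p.2) ∈ P ∧ z.1 ≤ -p.1 ∧ -p.1 < z.1 + (m * K + A) ∧ z.2 ≤ p.2 ∧
    p.2 < z.2 + (m * K + B)
  constructor
  · rintro ⟨h1, h2, h3, h4, h5⟩
    exact ⟨h1, by linarith, by linarith, h4, h5⟩
  · rintro ⟨h1, h2, h3, h4, h5⟩
    exact ⟨h1, by linarith, by linarith, h4, h5⟩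

lemma ct_mX {z : Z2} : ct (mX P) K A B m (wX K A m z) = (ct P K A B m z).image (fun p => (-p.1, p.2)) := by
  ext p
  rw [mem_ct_mX, mem_image]
  constructor
  · intro h
    exact ⟨_, h, by simp⟩
  · rintro ⟨q, hq, rfl⟩
    simpa using hq

lemma f_mX {z : Z2} : f (mX P) K A B m (wX K A m z) = f P K A B m z := by
  unfold f
  rw [ct_mX, card_image_of_injective]
  intro p q hpq
  simp only [Prod.mk.injEq, neg_inj] at hpq
  exact Prod.ext hpq.1 hpq.2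

lemma Gd_mX {z : Z2} : Gd (mX P) K A B m (wX K A m z) ↔ Gd P K A B m z := by
  unfold Gd
  rw [f_mX]

private lemma all_mX {z : Z2} {Q : Z2 → Prop} : (∀ p ∈ ct (mX P) K A B m (wX K A m z), Q p) ↔
    ∀ p ∈ ct P K A B m z, Q (-p.1, p.2) := by
  rw [ct_mX]
  exact Finset.forall_mem_image

private lemma ex_mX {z : Z2} {Q : Z2 → Prop} : (∃ p ∈ ct (mX P) K A B m (wX K A m z), Q p) ↔
    ∃ p ∈ ct P K A B m z, Q (-p.1, p.2) := by
  rw [ct_mX]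
  exact Finset.exists_mem_image

private lemma exP_mX {Q : Z2 → Prop} : (∃ r, Q r) ↔ ∃ r : Z2, Q (-r.1, r.2) := by
  constructor
  · rintro ⟨r, hr⟩
    exact ⟨(-r.1, r.2), by simpa using hr⟩
  · rintro ⟨r, hr⟩
    exact ⟨_, hr⟩

lemma Tn_mX {z t : Z2} : Tn (mX P) K A B m (wX K A m z) (-t.1, t.2) ↔ Tn P K A B m z t := by
  unfold Tn
  rw [all_mX]
  show ((- -t.1, t.2) ∈ P ∧ z.2 + (m * K + B) ≤ t.2 ∧ (∀ p ∈ ct P K A B m z, t.2 ≤ p.2 + m * K) ∧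
    - z.1 - (m * K + A) + 1 ≤ -t.1 ∧ -t.1 < - z.1 - (m * K + A) + 1 + (m * K + A)) ↔ _
  rw [neg_neg]
  constructor
  · rintro ⟨h1, h2, h3, h4, h5⟩
    exact ⟨h1, h2, h3, by linarith, by linarith⟩
  · rintro ⟨h1, h2, h3, h4, h5⟩
    exact ⟨h1, h2, h3, by linarith, by linarith⟩

lemma Rn_mX {z t : Z2} : Rn (mX P) K A B m (wX K A m z) (-t.1, t.2) ↔ Ln P K A B m z t := by
  unfold Rn Ln
  rw [all_mX]
  show ((- -t.1, t.2) ∈ P ∧ - z.1 - (m * K + A) + 1 + (m * K + A) ≤ -t.1 ∧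
    (∀ p ∈ ct P K A B m z, -t.1 ≤ -p.1 + m * K) ∧ z.2 ≤ t.2 ∧ t.2 < z.2 + (m * K + B)) ↔ _
  rw [neg_neg]
  constructor
  · rintro ⟨h1, h2, h3, h4, h5⟩
    exact ⟨h1, by linarith, fun p hp => by linarith [h3 p hp], h4, h5⟩
  · rintro ⟨h1, h2, h3, h4, h5⟩
    exact ⟨h1, by linarith, fun p hp => by linarith [h3 p hp], h4, h5⟩

lemma Tl_mX {z : Z2} : Tl (mX P) K A B m (wX K A m z) ↔ Th P K A B m z := by
  unfold Tl Th
  rw [exP_mX]
  simp only [Tn_mX, ex_mX]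
  constructor
  · rintro ⟨r, h1, p, h2, h3⟩
    exact ⟨r, h1, p, h2, by linarith⟩
  · rintro ⟨r, h1, p, h2, h3⟩
    exact ⟨r, h1, p, h2, by linarith⟩

lemma Th_mX {z : Z2} : Th (mX P) K A B m (wX K A m z) ↔ Tl P K A B m z := by
  unfold Tl Th
  rw [exP_mX]
  simp only [Tn_mX, ex_mX]
  constructor
  · rintro ⟨r, h1, p, h2, h3⟩
    exact ⟨r, h1, p, h2, by linarith⟩
  · rintro ⟨r, h1, p, h2, h3⟩
    exact ⟨r, h1, p, h2, by linarith⟩

lemma Tm_mX {z : Z2} : Tm (mX P) K A B m (wX K A m z) ↔ Tm P K A B m z := by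
  unfold Tm
  rw [exP_mX]
  simp only [all_mX]
  constructor
  · rintro ⟨r, h1, h2⟩
    refine ⟨r, ?_, fun p hp => ?_⟩
    · have : (- -r.1, r.2) ∈ P := h1
      rwa [neg_neg] at this
    · obtain ⟨a1, a2, a3, a4⟩ := h2 p hp
      exact ⟨a1, a2, by linarith, by linarith⟩
  · rintro ⟨r, h1, h2⟩
    refine ⟨r, ?_, fun p hp => ?_⟩
    · show (- -r.1, r.2) ∈ P
      rwa [neg_neg]
    · obtain ⟨a1, a2, a3, a4⟩ := h2 p hp
      exact ⟨a1, a2, by linarith, by linarith⟩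

lemma Rl_mX {z : Z2} : Rl (mX P) K A B m (wX K A m z) ↔ Ll P K A B m z := by
  unfold Rl Ll
  rw [exP_mX]
  simp only [Rn_mX, ex_mX]

lemma Rh_mX {z : Z2} : Rh (mX P) K A B m (wX K A m z) ↔ Lh P K A B m z := by
  unfold Rh Lh
  rw [exP_mX]
  simp only [Rn_mX, ex_mX]

lemma Rm_mX {z : Z2} : Rm (mX P) K A B m (wX K A m z) ↔ Lm P K A B m z := by
  unfold Rm Lm
  rw [exP_mX]
  simp only [all_mX]
  constructor
  · rintro ⟨r, h1, h2⟩
    refine ⟨r, ?_, fun p hp => ?_⟩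
    · have : (- -r.1, r.2) ∈ P := h1
      rwa [neg_neg] at this
    · obtain ⟨a1, a2, a3, a4⟩ := h2 p hp
      exact ⟨by linarith, by linarith, a3, a4⟩
  · rintro ⟨r, h1, h2⟩
    refine ⟨r, ?_, fun p hp => ?_⟩
    · show (- -r.1, r.2) ∈ P
      rwa [neg_neg]
    · obtain ⟨a1, a2, a3, a4⟩ := h2 p hp
      exact ⟨by linarith, by linarith, a3, a4⟩

/-! ### top-bottom -/

lemma prc_mY (h : Prc P K A B m) : Prc (mY P) K A B m where
  A0 := h.A0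
  AK := h.AK
  B0 := h.B0
  BK := h.BK
  m2 := h.m2
  hor := by
    intro x y
    obtain ⟨p, hp, h1, h2, h3, h4⟩ := h.hor x (-y - K + 1)
    refine ⟨(p.1, -p.2), ?_, h1, h2, ?_, ?_⟩
    · show (p.1, - -p.2) ∈ P
      rw [neg_neg]
      exact hp
    · show y ≤ -p.2
      linarith
    · show -p.2 < y + K
      linarith
  ver := by
    intro x y
    obtain ⟨p, hp, h1, h2, h3, h4⟩ := h.ver x (-y - (m * K + B) + 1)
    refine ⟨(p.1, -p.2), ?_, h1, h2, ?_, ?_⟩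
    · show (p.1, - -p.2) ∈ P
      rw [neg_neg]
      exact hp
    · show y ≤ -p.2
      linarith
    · show -p.2 < y + (m * K + B)
      linarith

lemma mem_ct_mY {z p : Z2} : p ∈ ct (mY P) K A B m (wY K B m z) ↔ (p.1, -p.2) ∈ ct P K A B m z := by
  rw [mem_ct, mem_ct]
  show ((p.1, -p.2) ∈ P ∧ z.1 ≤ p.1 ∧ p.1 < z.1 + (m * K + A) ∧ - z.2 - (m * K + B) + 1 ≤ p.2 ∧
    p.2 < - z.2 - (m * K + B) + 1 + (m * K + B)) ↔ (p.1, -p.2) ∈ P ∧ z.1 ≤ p.1 ∧ p.1 < z.1 + (m * K + A) ∧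
    z.2 ≤ -p.2 ∧ -p.2 < z.2 + (m * K + B)
  constructor
  · rintro ⟨h1, h2, h3, h4, h5⟩
    exact ⟨h1, h2, h3, by linarith, by linarith⟩
  · rintro ⟨h1, h2, h3, h4, h5⟩
    exact ⟨h1, h2, h3, by linarith, by linarith⟩

lemma ct_mY {z : Z2} : ct (mY P) K A B m (wY K B m z) = (ct P K A B m z).image (fun p => (p.1, -p.2)) := by
  ext p
  rw [mem_ct_mY, mem_image]
  constructor
  · intro h
    exact ⟨_, h, by simp⟩
  · rintro ⟨q, hq, rfl⟩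
    simpa using hq

lemma Gd_mY {z : Z2} : Gd (mY P) K A B m (wY K B m z) ↔ Gd P K A B m z := by
  unfold Gd f
  rw [ct_mY, card_image_of_injective]
  intro p q hpq
  simp only [Prod.mk.injEq, neg_inj] at hpq
  exact Prod.ext hpq.1 hpq.2

private lemma all_mY {z : Z2} {Q : Z2 → Prop} : (∀ p ∈ ct (mY P) K A B m (wY K B m z), Q p) ↔
    ∀ p ∈ ct P K A B m z, Q (p.1, -p.2) := by
  rw [ct_mY]
  exact Finset.forall_mem_image

private lemma ex_mY {z : Z2} {Q : Z2 → Prop} : (∃ p ∈ ct (mY P) K A B m (wY K B m z), Q p) ↔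
    ∃ p ∈ ct P K A B m z, Q (p.1, -p.2) := by
  rw [ct_mY]
  exact Finset.exists_mem_image

private lemma exP_mY {Q : Z2 → Prop} : (∃ r, Q r) ↔ ∃ r : Z2, Q (r.1, -r.2) := by
  constructor
  · rintro ⟨r, hr⟩
    exact ⟨(r.1, -r.2), by simpa using hr⟩
  · rintro ⟨r, hr⟩
    exact ⟨_, hr⟩

lemma Tn_mY {z t : Z2} : Tn (mY P) K A B m (wY K B m z) (t.1, -t.2) ↔ Bn P K A B m z t := by
  unfold Tn Bn
  rw [all_mY]
  show ((t.1, - -t.2) ∈ P ∧ - z.2 - (m * K + B) + 1 + (m * K + B) ≤ -t.2 ∧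
    (∀ p ∈ ct P K A B m z, -t.2 ≤ -p.2 + m * K) ∧ z.1 ≤ t.1 ∧ t.1 < z.1 + (m * K + A)) ↔ _
  rw [neg_neg]
  constructor
  · rintro ⟨h1, h2, h3, h4, h5⟩
    exact ⟨h1, by linarith, fun p hp => by linarith [h3 p hp], h4, h5⟩
  · rintro ⟨h1, h2, h3, h4, h5⟩
    exact ⟨h1, by linarith, fun p hp => by linarith [h3 p hp], h4, h5⟩

lemma Tl_mY {z : Z2} : Tl (mY P) K A B m (wY K B m z) ↔ Bl P K A B m z := by
  unfold Tl Bl
  rw [exP_mY]
  simp only [Tn_mY, ex_mY]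

lemma Th_mY {z : Z2} : Th (mY P) K A B m (wY K B m z) ↔ Bh P K A B m z := by
  unfold Th Bh
  rw [exP_mY]
  simp only [Tn_mY, ex_mY]

lemma Tm_mY {z : Z2} : Tm (mY P) K A B m (wY K B m z) ↔ Bm P K A B m z := by
  unfold Tm Bm
  rw [exP_mY]
  simp only [all_mY]
  constructor
  · rintro ⟨r, h1, h2⟩
    refine ⟨r, ?_, fun p hp => ?_⟩
    · have : (r.1, - -r.2) ∈ P := h1
      rwa [neg_neg] at this
    · obtain ⟨a1, a2, a3, a4⟩ := h2 p hp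
      exact ⟨by linarith, by linarith, a3, a4⟩
  · rintro ⟨r, h1, h2⟩
    refine ⟨r, ?_, fun p hp => ?_⟩
    · show (r.1, - -r.2) ∈ P
      rwa [neg_neg]
    · obtain ⟨a1, a2, a3, a4⟩ := h2 p hp
      exact ⟨by linarith, by linarith, a3, a4⟩

/-! ### transposition -/

lemma prc_tP (h : Prc P K A B m) : Prc (tP P) K B A m where
  A0 := h.B0
  AK := h.BK
  B0 := h.A0
  BK := h.AK
  m2 := h.m2
  hor := by
    intro x y
    obtain ⟨p, hp, h1, h2, h3, h4⟩ := h.ver y x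
    exact ⟨(p.2, p.1), hp, h3, h4, h1, h2⟩
  ver := by
    intro x y
    obtain ⟨p, hp, h1, h2, h3, h4⟩ := h.hor y x
    exact ⟨(p.2, p.1), hp, h3, h4, h1, h2⟩

lemma mem_ct_tP {z p : Z2} : p ∈ ct (tP P) K B A m (wT z) ↔ (p.2, p.1) ∈ ct P K A B m z := by
  rw [mem_ct, mem_ct]
  show ((p.2, p.1) ∈ P ∧ z.2 ≤ p.1 ∧ p.1 < z.2 + (m * K + B) ∧ z.1 ≤ p.2 ∧ p.2 < z.1 + (m * K + A)) ↔
    (p.2, p.1) ∈ P ∧ z.1 ≤ p.2 ∧ p.2 < z.1 + (m * K + A) ∧ z.2 ≤ p.1 ∧ p.1 < z.2 + (m * K + B)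
  tauto

lemma ct_tP {z : Z2} : ct (tP P) K B A m (wT z) = (ct P K A B m z).image (fun p => (p.2, p.1)) := by
  ext p
  rw [mem_ct_tP, mem_image]
  constructor
  · intro h
    exact ⟨_, h, rfl⟩
  · rintro ⟨q, hq, rfl⟩
    exact hq

lemma Gd_tP {z : Z2} : Gd (tP P) K B A m (wT z) ↔ Gd P K A B m z := by
  unfold Gd f
  rw [ct_tP, card_image_of_injective]
  intro p q hpq
  simp only [Prod.mk.injEq] at hpq
  exact Prod.ext hpq.2 hpq.1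

private lemma all_tP {z : Z2} {Q : Z2 → Prop} : (∀ p ∈ ct (tP P) K B A m (wT z), Q p) ↔
    ∀ p ∈ ct P K A B m z, Q (p.2, p.1) := by
  rw [ct_tP]
  exact Finset.forall_mem_image

private lemma ex_tP {z : Z2} {Q : Z2 → Prop} : (∃ p ∈ ct (tP P) K B A m (wT z), Q p) ↔
    ∃ p ∈ ct P K A B m z, Q (p.2, p.1) := by
  rw [ct_tP]
  exact Finset.exists_mem_image

private lemma exP_tP {Q : Z2 → Prop} : (∃ r, Q r) ↔ ∃ r : Z2, Q (r.2, r.1) := by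
  constructor
  · rintro ⟨r, hr⟩
    exact ⟨(r.2, r.1), hr⟩
  · rintro ⟨r, hr⟩
    exact ⟨_, hr⟩

lemma Tn_tP {z t : Z2} : Tn (tP P) K B A m (wT z) (t.2, t.1) ↔ Rn P K A B m z t := by
  unfold Tn Rn
  rw [all_tP]
  exact Iff.rfl

lemma Tl_tP {z : Z2} : Tl (tP P) K B A m (wT z) ↔ Rl P K A B m z := by
  unfold Tl Rl
  rw [exP_tP]
  simp only [Tn_tP, ex_tP]

lemma Th_tP {z : Z2} : Th (tP P) K B A m (wT z) ↔ Rh P K A B m z := by
  unfold Th Rh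
  rw [exP_tP]
  simp only [Tn_tP, ex_tP]

lemma Tm_tP {z : Z2} : Tm (tP P) K B A m (wT z) ↔ Rm P K A B m z := by
  unfold Tm Rm
  rw [exP_tP]
  simp only [all_tP]
  exact Iff.rfl

end Prc23s
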