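import Pool.Agent.Prc23s.LemB

/-!
# The eight versions of the geometric facts
-/

namespace Prc23s

open Finset Classical Prc24

variable {P : Set Z2} {K A B : ℤ} {m : ℕ}

lemma rho_tP (z : Z2) : rho (tP P) K B A m (wT z) = kap P K A B m z := by
  have e := kap_tP (P := tP P) (K := K) (A := B) (B := A) (m := m) (wT z)
  have e2 : tP (tP P) = P := rfl
  have e3 : wT (wT z) = z := rfl
  rw [e2, e3] at e
  exact e.symm

lemma wX_r (z : Z2) : wX K A m (z.1 + K, z.2) = ((wX K A m z).1 - K, (wX K A m z).2) := by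
  unfold wX
  ext
  · simp only
    ring
  · rfl

lemma wX_l (z : Z2) : wX K A m (z.1 - K, z.2) = ((wX K A m z).1 + K, (wX K A m z).2) := by
  unfold wX
  ext
  · simp only
    ring
  · rfl

lemma wX_rt (z : Z2) : wX K A m (z.1 + K, z.2 + K) = ((wX K A m z).1 - K, (wX K A m z).2 + K) := by
  unfold wX
  ext
  · simp only
    ring
  · rfl

lemma wX_lt (z : Z2) : wX K A m (z.1 - K, z.2 + K) = ((wX K A m z).1 + K, (wX K A m z).2 + K) := by
  unfold wX
  ext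
  · simp only
    ring
  · rfl

lemma wX_lb (z : Z2) : wX K A m (z.1 - K, z.2 - K) = ((wX K A m z).1 + K, (wX K A m z).2 - K) := by
  unfold wX
  ext
  · simp only
    ring
  · rfl

lemma wX_t (z : Z2) : wX K A m (z.1, z.2 + K) = ((wX K A m z).1, (wX K A m z).2 + K) := rfl

lemma wX_b (z : Z2) : wX K A m (z.1, z.2 - K) = ((wX K A m z).1, (wX K A m z).2 - K) := rfl

lemma wY_r (z : Z2) : wY K B m (z.1 + K, z.2) = ((wY K B m z).1 + K, (wY K B m z).2) := rfl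

lemma wY_l (z : Z2) : wY K B m (z.1 - K, z.2) = ((wY K B m z).1 - K, (wY K B m z).2) := rfl

lemma wY_rb (z : Z2) : wY K B m (z.1 + K, z.2 - K) = ((wY K B m z).1 + K, (wY K B m z).2 + K) := by
  unfold wY
  ext
  · rfl
  · simp only
    ring

lemma wY_lb (z : Z2) : wY K B m (z.1 - K, z.2 - K) = ((wY K B m z).1 - K, (wY K B m z).2 + K) := by
  unfold wY
  ext
  · rfl
  · simp only
    ring

lemma wT_l (z : Z2) : wT (z.1 - K, z.2) = ((wT z).1, (wT z).2 - K) := rfl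
lemma wT_d (z : Z2) : wT (z.1, z.2 - K) = ((wT z).1 - K, (wT z).2) := rfl
lemma wT_rd (z : Z2) : wT (z.1 + K, z.2 - K) = ((wT z).1 - K, (wT z).2 + K) := rfl
lemma wT_ru (z : Z2) : wT (z.1 + K, z.2 + K) = ((wT z).1 + K, (wT z).2 + K) := rfl

/-! ### an L vertex at distance one -/

lemma bTl (h : Prc P K A B m) {x : Z2} (hx : Gd P K A B m x) (h1 : Gd P K A B m (x.1 - K, x.2))
    (h2 : Gd P K A B m (x.1 - K, x.2 + K)) (hT : Tl P K A B m x) :
    m = 2 ∧ rho P K A B m (x.1 - K, x.2) = 1 := by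
  have hm := h.m2
  have e : ((x.1 - K) + ((1 : ℕ) : ℤ) * K, x.2) = x := by
    ext
    · push_cast
      ring
    · rfl
  have main : ∀ s : Z2, s ∈ ct P K A B m ((x.1 - K) + ((1 : ℕ) : ℤ) * K, x.2) ∧
      s ∈ ct P K A B m (x.1 - K, x.2 + K) → False := by
    rintro s ⟨hs1, hs2⟩
    have hx' : Gd P K A B m ((x.1 - K) + ((1 : ℕ) : ℤ) * K, x.2) := by rw [e]; exact hx
    have := lemB h (v := (x.1 - K, x.2)) (s := s) (j := 1) le_rfl (by omega) hx' h2 hs1 hs2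
    apply this
    show Tl P K A B m ((x.1 - K) + ((1 : ℕ) : ℤ) * K, x.2)
    rw [e]
    exact hT
  by_cases h3 : 3 ≤ m
  · exfalso
    obtain ⟨s, hs⟩ := shared h (v := (x.1 - K, x.2)) (j := 1) h1 (Or.inl (by omega))
    exact main s hs
  · have hm2 : m = 2 := by omega
    refine ⟨hm2, ?_⟩
    have a1 := rho_nonneg h (x.1 - K, x.2)
    have a2 := rho_le h h1
    have a3 : rho P K A B m (x.1 - K, x.2) ≠ 0 := by
      intro h0
      obtain ⟨s, hs⟩ := shared h (v := (x.1 - K, x.2)) (j := 1) h1 (Or.inr ⟨by omega, le_rfl, h0⟩)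
      exact main s hs
    have a4 : ((m : ℕ) : ℤ) = 2 := by exact_mod_cast hm2
    omega

lemma bTr (h : Prc P K A B m) {x : Z2} (hx : Gd P K A B m x) (h1 : Gd P K A B m (x.1 + K, x.2))
    (h2 : Gd P K A B m (x.1 + K, x.2 + K)) (hT : Th P K A B m x) :
    m = 2 ∧ rho P K A B m x = 1 := by
  have g0 := (Gd_mX (P := P) (K := K) (A := A) (B := B) (m := m) (z := x)).2 hx
  have g1 := (Gd_mX (P := P) (K := K) (A := A) (B := B) (m := m) (z := (x.1 + K, x.2))).2 h1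
  have g2 := (Gd_mX (P := P) (K := K) (A := A) (B := B) (m := m) (z := (x.1 + K, x.2 + K))).2 h2
  have g3 := (Tl_mX (P := P) (K := K) (A := A) (B := B) (m := m) (z := x)).2 hT
  have g4 := rho_mX h hx h1
  rw [wX_r] at g1 g4
  rw [wX_rt] at g2
  have := bTl (prc_mX h) g0 g1 g2 g3
  rw [g4] at this
  exact this

lemma bBl (h : Prc P K A B m) {x : Z2} (hx : Gd P K A B m x) (h1 : Gd P K A B m (x.1 - K, x.2))
    (h2 : Gd P K A B m (x.1 - K, x.2 - K)) (hT : Bl P K A B m x) :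
    m = 2 ∧ rho P K A B m (x.1 - K, x.2) = 0 := by
  have g0 := (Gd_mY (P := P) (K := K) (A := A) (B := B) (m := m) (z := x)).2 hx
  have g1 := (Gd_mY (P := P) (K := K) (A := A) (B := B) (m := m) (z := (x.1 - K, x.2))).2 h1
  have g2 := (Gd_mY (P := P) (K := K) (A := A) (B := B) (m := m) (z := (x.1 - K, x.2 - K))).2 h2
  have g3 := (Tl_mY (P := P) (K := K) (A := A) (B := B) (m := m) (z := x)).2 hT
  have g4 := rho_mY h h1
  rw [wY_l] at g1 g4
  rw [wY_lb] at g2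
  have := bTl (prc_mY h) g0 g1 g2 g3
  rw [g4] at this
  obtain ⟨hm, h0⟩ := this
  refine ⟨hm, ?_⟩
  have a4 : ((m : ℕ) : ℤ) = 2 := by exact_mod_cast hm
  omega

lemma bBr (h : Prc P K A B m) {x : Z2} (hx : Gd P K A B m x) (h1 : Gd P K A B m (x.1 + K, x.2))
    (h2 : Gd P K A B m (x.1 + K, x.2 - K)) (hT : Bh P K A B m x) :
    m = 2 ∧ rho P K A B m x = 0 := by
  have g0 := (Gd_mY (P := P) (K := K) (A := A) (B := B) (m := m) (z := x)).2 hx
  have g1 := (Gd_mY (P := P) (K := K) (A := A) (B := B) (m := m) (z := (x.1 + K, x.2))).2 h1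
  have g2 := (Gd_mY (P := P) (K := K) (A := A) (B := B) (m := m) (z := (x.1 + K, x.2 - K))).2 h2
  have g3 := (Th_mY (P := P) (K := K) (A := A) (B := B) (m := m) (z := x)).2 hT
  have g4 := rho_mY h hx
  rw [wY_r] at g1
  rw [wY_rb] at g2
  have := bTr (prc_mY h) g0 g1 g2 g3
  rw [g4] at this
  obtain ⟨hm, h0⟩ := this
  refine ⟨hm, ?_⟩
  have a4 : ((m : ℕ) : ℤ) = 2 := by exact_mod_cast hm
  omega

lemma bRd (h : Prc P K A B m) {x : Z2} (hx : Gd P K A B m x) (h1 : Gd P K A B m (x.1, x.2 - K))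
    (h2 : Gd P K A B m (x.1 + K, x.2 - K)) (hT : Rl P K A B m x) :
    m = 2 ∧ kap P K A B m (x.1, x.2 - K) = 1 := by
  have g0 := (Gd_tP (P := P) (K := K) (A := A) (B := B) (m := m) (z := x)).2 hx
  have g1 := (Gd_tP (P := P) (K := K) (A := A) (B := B) (m := m) (z := (x.1, x.2 - K))).2 h1
  have g2 := (Gd_tP (P := P) (K := K) (A := A) (B := B) (m := m) (z := (x.1 + K, x.2 - K))).2 h2
  have g3 := (Tl_tP (P := P) (K := K) (A := A) (B := B) (m := m) (z := x)).2 hT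
  have g4 := rho_tP (P := P) (K := K) (A := A) (B := B) (m := m) (x.1, x.2 - K)
  rw [wT_d] at g1 g4
  rw [wT_rd] at g2
  have := bTl (prc_tP h) g0 g1 g2 g3
  rw [g4] at this
  exact this

lemma bRu (h : Prc P K A B m) {x : Z2} (hx : Gd P K A B m x) (h1 : Gd P K A B m (x.1, x.2 + K))
    (h2 : Gd P K A B m (x.1 + K, x.2 + K)) (hT : Rh P K A B m x) :
    m = 2 ∧ kap P K A B m x = 1 := by
  have g0 := (Gd_tP (P := P) (K := K) (A := A) (B := B) (m := m) (z := x)).2 hx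
  have g1 := (Gd_tP (P := P) (K := K) (A := A) (B := B) (m := m) (z := (x.1, x.2 + K))).2 h1
  have g2 := (Gd_tP (P := P) (K := K) (A := A) (B := B) (m := m) (z := (x.1 + K, x.2 + K))).2 h2
  have g3 := (Th_tP (P := P) (K := K) (A := A) (B := B) (m := m) (z := x)).2 hT
  have g4 := rho_tP (P := P) (K := K) (A := A) (B := B) (m := m) x
  rw [wT_up] at g1
  rw [wT_ru] at g2
  have := bTr (prc_tP h) g0 g1 g2 g3
  rw [g4] at this
  exact this

lemma bLd (h : Prc P K A B m) {x : Z2} (hx : Gd P K A B m x) (h1 : Gd P K A B m (x.1, x.2 - K))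
    (h2 : Gd P K A B m (x.1 - K, x.2 - K)) (hT : Ll P K A B m x) :
    m = 2 ∧ kap P K A B m (x.1, x.2 - K) = 0 := by
  have g0 := (Gd_mX (P := P) (K := K) (A := A) (B := B) (m := m) (z := x)).2 hx
  have g1 := (Gd_mX (P := P) (K := K) (A := A) (B := B) (m := m) (z := (x.1, x.2 - K))).2 h1
  have g2 := (Gd_mX (P := P) (K := K) (A := A) (B := B) (m := m) (z := (x.1 - K, x.2 - K))).2 h2
  have g3 := (Rl_mX (P := P) (K := K) (A := A) (B := B) (m := m) (z := x)).2 hT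
  have g4 := kap_mX h h1
  rw [wX_b] at g1 g4
  rw [wX_lb] at g2
  have := bRd (prc_mX h) g0 g1 g2 g3
  rw [g4] at this
  obtain ⟨hm, h0⟩ := this
  refine ⟨hm, ?_⟩
  have a4 : ((m : ℕ) : ℤ) = 2 := by exact_mod_cast hm
  omega

lemma bLu (h : Prc P K A B m) {x : Z2} (hx : Gd P K A B m x) (h1 : Gd P K A B m (x.1, x.2 + K))
    (h2 : Gd P K A B m (x.1 - K, x.2 + K)) (hT : Lh P K A B m x) :
    m = 2 ∧ kap P K A B m x = 0 := by
  have g0 := (Gd_mX (P := P) (K := K) (A := A) (B := B) (m := m) (z := x)).2 hx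
  have g1 := (Gd_mX (P := P) (K := K) (A := A) (B := B) (m := m) (z := (x.1, x.2 + K))).2 h1
  have g2 := (Gd_mX (P := P) (K := K) (A := A) (B := B) (m := m) (z := (x.1 - K, x.2 + K))).2 h2
  have g3 := (Rh_mX (P := P) (K := K) (A := A) (B := B) (m := m) (z := x)).2 hT
  have g4 := kap_mX h hx
  rw [wX_t] at g1
  rw [wX_lt] at g2
  have := bRu (prc_mX h) g0 g1 g2 g3
  rw [g4] at this
  obtain ⟨hm, h0⟩ := this
  refine ⟨hm, ?_⟩
  have a4 : ((m : ℕ) : ℤ) = 2 := by exact_mod_cast hm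
  omega

/-! ### an L vertex at distance two -/

lemma b2Tl (h : Prc P K A B m) (hm : 4 ≤ m) {x : Z2} (h1 : Gd P K A B m (x.1 - K, x.2))
    (h2 : Gd P K A B m (x.1 - K, x.2 + K)) (h3 : Gd P K A B m (x.1 + K, x.2)) :
    ¬ Tl P K A B m (x.1 + K, x.2) := by
  have e : ((x.1 - K) + ((2 : ℕ) : ℤ) * K, x.2) = (x.1 + K, x.2) := by
    ext
    · push_cast
      ring
    · rfl
  obtain ⟨s, hs1, hs2⟩ := shared h (v := (x.1 - K, x.2)) (j := 2) h1 (Or.inl (by omega))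
  have h3' : Gd P K A B m ((x.1 - K) + ((2 : ℕ) : ℤ) * K, x.2) := by rw [e]; exact h3
  have := lemB h (v := (x.1 - K, x.2)) (s := s) (j := 2) (by omega) (by omega) h3' h2 hs1 hs2
  have e' : (((x.1 - K, x.2) : Z2).1 + ((2 : ℕ) : ℤ) * K, ((x.1 - K, x.2) : Z2).2) = (x.1 + K, x.2) := e
  rw [e'] at this
  exact this

lemma b2Tr (h : Prc P K A B m) (hm : 4 ≤ m) {x : Z2} (h1 : Gd P K A B m (x.1 + K, x.2))
    (h2 : Gd P K A B m (x.1 + K, x.2 + K)) (h3 : Gd P K A B m (x.1 - K, x.2)) :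
    ¬ Th P K A B m (x.1 - K, x.2) := by
  have g1 := (Gd_mX (P := P) (K := K) (A := A) (B := B) (m := m) (z := (x.1 + K, x.2))).2 h1
  have g2 := (Gd_mX (P := P) (K := K) (A := A) (B := B) (m := m) (z := (x.1 + K, x.2 + K))).2 h2
  have g3 := (Gd_mX (P := P) (K := K) (A := A) (B := B) (m := m) (z := (x.1 - K, x.2))).2 h3
  rw [wX_r] at g1
  rw [wX_rt] at g2
  rw [wX_l] at g3
  have := b2Tl (prc_mX h) hm g1 g2 g3
  rw [← wX_l] at this
  exact fun hT => this ((Tl_mX (P := P) (K := K) (A := A) (B := B) (m := m) (z := (x.1 - K, x.2))).2 hT)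

lemma b2Bl (h : Prc P K A B m) (hm : 4 ≤ m) {x : Z2} (h1 : Gd P K A B m (x.1 - K, x.2))
    (h2 : Gd P K A B m (x.1 - K, x.2 - K)) (h3 : Gd P K A B m (x.1 + K, x.2)) :
    ¬ Bl P K A B m (x.1 + K, x.2) := by
  have g1 := (Gd_mY (P := P) (K := K) (A := A) (B := B) (m := m) (z := (x.1 - K, x.2))).2 h1
  have g2 := (Gd_mY (P := P) (K := K) (A := A) (B := B) (m := m) (z := (x.1 - K, x.2 - K))).2 h2
  have g3 := (Gd_mY (P := P) (K := K) (A := A) (B := B) (m := m) (z := (x.1 + K, x.2))).2 h3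
  rw [wY_l] at g1
  rw [wY_lb] at g2
  rw [wY_r] at g3
  have := b2Tl (prc_mY h) hm g1 g2 g3
  rw [← wY_r] at this
  exact fun hT => this ((Tl_mY (P := P) (K := K) (A := A) (B := B) (m := m) (z := (x.1 + K, x.2))).2 hT)

lemma b2Br (h : Prc P K A B m) (hm : 4 ≤ m) {x : Z2} (h1 : Gd P K A B m (x.1 + K, x.2))
    (h2 : Gd P K A B m (x.1 + K, x.2 - K)) (h3 : Gd P K A B m (x.1 - K, x.2)) :
    ¬ Bh P K A B m (x.1 - K, x.2) := by
  have g1 := (Gd_mY (P := P) (K := K) (A := A) (B := B) (m := m) (z := (x.1 + K, x.2))).2 h1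
  have g2 := (Gd_mY (P := P) (K := K) (A := A) (B := B) (m := m) (z := (x.1 + K, x.2 - K))).2 h2
  have g3 := (Gd_mY (P := P) (K := K) (A := A) (B := B) (m := m) (z := (x.1 - K, x.2))).2 h3
  rw [wY_r] at g1
  rw [wY_rb] at g2
  rw [wY_l] at g3
  have := b2Tr (prc_mY h) hm g1 g2 g3
  rw [← wY_l] at this
  exact fun hT => this ((Th_mY (P := P) (K := K) (A := A) (B := B) (m := m) (z := (x.1 - K, x.2))).2 hT)

lemma b2Rd (h : Prc P K A B m) (hm : 4 ≤ m) {x : Z2} (h1 : Gd P K A B m (x.1, x.2 - K))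
    (h2 : Gd P K A B m (x.1 + K, x.2 - K)) (h3 : Gd P K A B m (x.1, x.2 + K)) :
    ¬ Rl P K A B m (x.1, x.2 + K) := by
  have g1 := (Gd_tP (P := P) (K := K) (A := A) (B := B) (m := m) (z := (x.1, x.2 - K))).2 h1
  have g2 := (Gd_tP (P := P) (K := K) (A := A) (B := B) (m := m) (z := (x.1 + K, x.2 - K))).2 h2
  have g3 := (Gd_tP (P := P) (K := K) (A := A) (B := B) (m := m) (z := (x.1, x.2 + K))).2 h3
  rw [wT_d] at g1
  rw [wT_rd] at g2
  rw [wT_up] at g3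
  have := b2Tl (prc_tP h) hm g1 g2 g3
  rw [← wT_up] at this
  exact fun hT => this ((Tl_tP (P := P) (K := K) (A := A) (B := B) (m := m) (z := (x.1, x.2 + K))).2 hT)

lemma b2Ru (h : Prc P K A B m) (hm : 4 ≤ m) {x : Z2} (h1 : Gd P K A B m (x.1, x.2 + K))
    (h2 : Gd P K A B m (x.1 + K, x.2 + K)) (h3 : Gd P K A B m (x.1, x.2 - K)) :
    ¬ Rh P K A B m (x.1, x.2 - K) := by
  have g1 := (Gd_tP (P := P) (K := K) (A := A) (B := B) (m := m) (z := (x.1, x.2 + K))).2 h1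
  have g2 := (Gd_tP (P := P) (K := K) (A := A) (B := B) (m := m) (z := (x.1 + K, x.2 + K))).2 h2
  have g3 := (Gd_tP (P := P) (K := K) (A := A) (B := B) (m := m) (z := (x.1, x.2 - K))).2 h3
  rw [wT_up] at g1
  rw [wT_ru] at g2
  rw [wT_d] at g3
  have := b2Tr (prc_tP h) hm g1 g2 g3
  rw [← wT_d] at this
  exact fun hT => this ((Th_tP (P := P) (K := K) (A := A) (B := B) (m := m) (z := (x.1, x.2 - K))).2 hT)

lemma b2Ld (h : Prc P K A B m) (hm : 4 ≤ m) {x : Z2} (h1 : Gd P K A B m (x.1, x.2 - K))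
    (h2 : Gd P K A B m (x.1 - K, x.2 - K)) (h3 : Gd P K A B m (x.1, x.2 + K)) :
    ¬ Ll P K A B m (x.1, x.2 + K) := by
  have g1 := (Gd_mX (P := P) (K := K) (A := A) (B := B) (m := m) (z := (x.1, x.2 - K))).2 h1
  have g2 := (Gd_mX (P := P) (K := K) (A := A) (B := B) (m := m) (z := (x.1 - K, x.2 - K))).2 h2
  have g3 := (Gd_mX (P := P) (K := K) (A := A) (B := B) (m := m) (z := (x.1, x.2 + K))).2 h3
  rw [wX_b] at g1
  rw [wX_lb] at g2
  rw [wX_t] at g3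
  have := b2Rd (prc_mX h) hm g1 g2 g3
  rw [← wX_t] at this
  exact fun hT => this ((Rl_mX (P := P) (K := K) (A := A) (B := B) (m := m) (z := (x.1, x.2 + K))).2 hT)

lemma b2Lu (h : Prc P K A B m) (hm : 4 ≤ m) {x : Z2} (h1 : Gd P K A B m (x.1, x.2 + K))
    (h2 : Gd P K A B m (x.1 - K, x.2 + K)) (h3 : Gd P K A B m (x.1, x.2 - K)) :
    ¬ Lh P K A B m (x.1, x.2 - K) := by
  have g1 := (Gd_mX (P := P) (K := K) (A := A) (B := B) (m := m) (z := (x.1, x.2 + K))).2 h1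
  have g2 := (Gd_mX (P := P) (K := K) (A := A) (B := B) (m := m) (z := (x.1 - K, x.2 + K))).2 h2
  have g3 := (Gd_mX (P := P) (K := K) (A := A) (B := B) (m := m) (z := (x.1, x.2 - K))).2 h3
  rw [wX_t] at g1
  rw [wX_lt] at g2
  rw [wX_b] at g3
  have := b2Ru (prc_mX h) hm g1 g2 g3
  rw [← wX_b] at this
  exact fun hT => this ((Rh_mX (P := P) (K := K) (A := A) (B := B) (m := m) (z := (x.1, x.2 - K))).2 hT)

/-! ### nearest neighbours of two adjacent windows -/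

lemma cB (h : Prc P K A B m) {v : Z2} (h1 : Gd P K A B m v) (h2 : Gd P K A B m (v.1 + K, v.2)) :
    ¬ (Bh P K A B m v ∧ ¬ Bl P K A B m v ∧ ¬ Bm P K A B m v ∧ Bl P K A B m (v.1 + K, v.2) ∧
      ¬ Bh P K A B m (v.1 + K, v.2) ∧ ¬ Bm P K A B m (v.1 + K, v.2)) := by
  have g1 := (Gd_mY (P := P) (K := K) (A := A) (B := B) (m := m) (z := v)).2 h1
  have g2 := (Gd_mY (P := P) (K := K) (A := A) (B := B) (m := m) (z := (v.1 + K, v.2))).2 h2
  rw [wY_r] at g2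
  have := lemC (prc_mY h) g1 g2
  rw [← wY_r] at this
  rwa [Th_mY, Tl_mY, Tm_mY, Th_mY, Tl_mY, Tm_mY] at this

lemma cR (h : Prc P K A B m) {v : Z2} (h1 : Gd P K A B m v) (h2 : Gd P K A B m (v.1, v.2 + K)) :
    ¬ (Rh P K A B m v ∧ ¬ Rl P K A B m v ∧ ¬ Rm P K A B m v ∧ Rl P K A B m (v.1, v.2 + K) ∧
      ¬ Rh P K A B m (v.1, v.2 + K) ∧ ¬ Rm P K A B m (v.1, v.2 + K)) := by
  have g1 := (Gd_tP (P := P) (K := K) (A := A) (B := B) (m := m) (z := v)).2 h1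
  have g2 := (Gd_tP (P := P) (K := K) (A := A) (B := B) (m := m) (z := (v.1, v.2 + K))).2 h2
  rw [wT_up] at g2
  have := lemC (prc_tP h) g1 g2
  rw [← wT_up] at this
  rwa [Th_tP, Tl_tP, Tm_tP, Th_tP, Tl_tP, Tm_tP] at this

lemma cL (h : Prc P K A B m) {v : Z2} (h1 : Gd P K A B m v) (h2 : Gd P K A B m (v.1, v.2 + K)) :
    ¬ (Lh P K A B m v ∧ ¬ Ll P K A B m v ∧ ¬ Lm P K A B m v ∧ Ll P K A B m (v.1, v.2 + K) ∧
      ¬ Lh P K A B m (v.1, v.2 + K) ∧ ¬ Lm P K A B m (v.1, v.2 + K)) := by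
  have g1 := (Gd_mX (P := P) (K := K) (A := A) (B := B) (m := m) (z := v)).2 h1
  have g2 := (Gd_mX (P := P) (K := K) (A := A) (B := B) (m := m) (z := (v.1, v.2 + K))).2 h2
  rw [wX_t] at g2
  have := cR (prc_mX h) g1 g2
  rw [← wX_t] at this
  rwa [Rh_mX, Rl_mX, Rm_mX, Rh_mX, Rl_mX, Rm_mX] at this

/-! ### jumps for `m = 2` -/

private lemma one_of (hK : 0 < K) {i : ℕ} (h1 : 1 ≤ i) (h2 : (i : ℤ) * K < 2 * K) : i = 1 := by
  have := lt_of_mul_lt_mul_right h2 hK.le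
  omega

lemma k1 (h : Prc P K A B m) (hm : m = 2) {x : Z2} (hx : Gd P K A B m x)
    (hj : ∃ p ∈ ct P K A B m x, jNE P K A B m x p) : Gd P K A B m (x.1 + K, x.2 + K) := by
  have hK := Kpos h
  obtain ⟨p, hp, -, -, i, j, hi, hj, hG, hp'⟩ := hj
  obtain ⟨c, hc, hc1, hc2⟩ := col_slot h hx hp
  obtain ⟨r, hr, hr1, hr2⟩ := row_slot h hx hp
  have hp2 := mem_ct.1 hp'
  simp only at hp2
  have hc' : (c : ℤ) * K ≤ K := by
    have : (c : ℤ) * K ≤ 1 * K := mul_le_mul_of_nonneg_right (by exact_mod_cast (by omega : c ≤ 1)) hK.le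
    linarith
  have hr' : (r : ℤ) * K ≤ K := by
    have : (r : ℤ) * K ≤ 1 * K := mul_le_mul_of_nonneg_right (by exact_mod_cast (by omega : r ≤ 1)) hK.le
    linarith
  have e1 := one_of hK hi (by linarith [hp2.2.1])
  have e2 := one_of hK hj (by linarith [hp2.2.2.2.1])
  subst e1
  subst e2
  simpa using hG

lemma k2 (h : Prc P K A B m) (hm : m = 2) {x : Z2} (hx : Gd P K A B m x)
    (hj : ∃ p ∈ ct P K A B m x, jNW P K A B m x p) : Gd P K A B m (x.1 - K, x.2 + K) := by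
  have hK := Kpos h
  obtain ⟨p, hp, -, -, i, j, hi, hj, hG, hp'⟩ := hj
  obtain ⟨c, hc, hc1, hc2⟩ := col_slot h hG hp'
  obtain ⟨r, hr, hr1, hr2⟩ := row_slot h hx hp
  have hp2 := mem_ct.1 hp'
  have hp3 := mem_ct.1 hp
  simp only at hp2 hc1 hc2
  have hc' : (c : ℤ) * K ≤ K := by
    have : (c : ℤ) * K ≤ 1 * K := mul_le_mul_of_nonneg_right (by exact_mod_cast (by omega : c ≤ 1)) hK.le
    linarith
  have hr' : (r : ℤ) * K ≤ K := by
    have : (r : ℤ) * K ≤ 1 * K := mul_le_mul_of_nonneg_right (by exact_mod_cast (by omega : r ≤ 1)) hK.le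
    linarith
  have e1 := one_of hK hi (by linarith [hp3.2.1])
  have e2 := one_of hK hj (by linarith [hp2.2.2.2.1])
  subst e1
  subst e2
  simpa using hG

lemma k3 (h : Prc P K A B m) (hm : m = 2) {x : Z2} (hx : Gd P K A B m x)
    (hj : ∃ p ∈ ct P K A B m x, jSE P K A B m x p) : Gd P K A B m (x.1 + K, x.2 - K) := by
  have hK := Kpos h
  obtain ⟨p, hp, -, -, i, j, hi, hj, hG, hp'⟩ := hj
  obtain ⟨c, hc, hc1, hc2⟩ := col_slot h hx hp
  obtain ⟨r, hr, hr1, hr2⟩ := row_slot h hG hp'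
  have hp2 := mem_ct.1 hp'
  have hp3 := mem_ct.1 hp
  simp only at hp2 hr1 hr2
  have hc' : (c : ℤ) * K ≤ K := by
    have : (c : ℤ) * K ≤ 1 * K := mul_le_mul_of_nonneg_right (by exact_mod_cast (by omega : c ≤ 1)) hK.le
    linarith
  have hr' : (r : ℤ) * K ≤ K := by
    have : (r : ℤ) * K ≤ 1 * K := mul_le_mul_of_nonneg_right (by exact_mod_cast (by omega : r ≤ 1)) hK.le
    linarith
  have e1 := one_of hK hi (by linarith [hp2.2.1])
  have e2 := one_of hK hj (by linarith [hp3.2.2.2.1])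
  subst e1
  subst e2
  simpa using hG

lemma k4 (h : Prc P K A B m) (hm : m = 2) {x : Z2} 
    (hj : ∃ p ∈ ct P K A B m x, jSW P K A B m x p) : Gd P K A B m (x.1 - K, x.2 - K) := by
  have hK := Kpos h
  obtain ⟨p, hp, -, -, i, j, hi, hj, hG, hp'⟩ := hj
  obtain ⟨c, hc, hc1, hc2⟩ := col_slot h hG hp'
  obtain ⟨r, hr, hr1, hr2⟩ := row_slot h hG hp'
  have hp2 := mem_ct.1 hp'
  have hp3 := mem_ct.1 hp
  simp only at hp2 hr1 hr2 hc1 hc2
  have hc' : (c : ℤ) * K ≤ K := by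
    have : (c : ℤ) * K ≤ 1 * K := mul_le_mul_of_nonneg_right (by exact_mod_cast (by omega : c ≤ 1)) hK.le
    linarith
  have hr' : (r : ℤ) * K ≤ K := by
    have : (r : ℤ) * K ≤ 1 * K := mul_le_mul_of_nonneg_right (by exact_mod_cast (by omega : r ≤ 1)) hK.le
    linarith
  have e1 := one_of hK hi (by linarith [hp3.2.1])
  have e2 := one_of hK hj (by linarith [hp3.2.2.2.1])
  subst e1
  subst e2
  simpa using hG

end Prc23s
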