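import Pool.Agent.Prc23s.FlatG
import Pool.Agent.Prc24c.Sharp

/-!
# The vertex inequality for the windows
-/

namespace Prc23s

open Finset Classical Prc24

variable {P : Set Z2} {K A B : ℤ} {m : ℕ}

private lemma e1 (z : Z2) (K : ℤ) : ((z.1 + K) - K, z.2) = z := by ext <;> simp
private lemma e2 (z : Z2) (K : ℤ) : (z.1, (z.2 + K) - K) = z := by ext <;> simp

theorem comp (v : Z2) : BD.Comp (Gd P K A B m v) (Gd P K A B m (v.1 + K, v.2)) (Gd P K A B m (v.1, v.2 + K))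
    (Gd P K A B m (v.1 + K, v.2 + K)) (bd P K A B m v) (bd P K A B m (v.1 + K, v.2))
    (bd P K A B m (v.1, v.2 + K)) (bd P K A B m (v.1 + K, v.2 + K)) where
  r0 := Iff.rfl
  t0 := Iff.rfl
  tr0 := Iff.rfl
  l1 := by
    show Gd P K A B m ((v.1 + K) - K, v.2) ↔ _
    rw [e1]
  t1 := Iff.rfl
  tl1 := by
    show Gd P K A B m ((v.1 + K) - K, v.2 + K) ↔ _
    rw [add_sub_cancel_right]
  r2 := Iff.rfl
  b2 := by
    show Gd P K A B m (v.1, (v.2 + K) - K) ↔ _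
    rw [e2]
  br2 := by
    show Gd P K A B m (v.1 + K, (v.2 + K) - K) ↔ _
    rw [add_sub_cancel_right]
  l3 := by
    show Gd P K A B m ((v.1 + K) - K, v.2 + K) ↔ _
    rw [add_sub_cancel_right]
  b3 := by
    show Gd P K A B m (v.1 + K, (v.2 + K) - K) ↔ _
    rw [add_sub_cancel_right]
  bl3 := by
    show Gd P K A B m ((v.1 + K) - K, (v.2 + K) - K) ↔ _
    rw [add_sub_cancel_right, add_sub_cancel_right]
  aT := by
    show aT P K A B m v = aT P K A B m ((v.1 + K) - K, v.2)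
    rw [e1]
  aR := by
    show aR P K A B m v = aR P K A B m (v.1, (v.2 + K) - K)
    rw [e2]
  aL := by
    show - aR P K A B m (v.1 + K, v.2) = - aR P K A B m (v.1 + K, (v.2 + K) - K)
    rw [add_sub_cancel_right]
  aB := by
    show - aT P K A B m (v.1, v.2 + K) = - aT P K A B m ((v.1 + K) - K, v.2 + K)
    rw [add_sub_cancel_right]

/-- the face identity -/
lemma face_id (h : Prc P K A B m) {v : Z2} (h0 : Gd P K A B m v) (h1 : Gd P K A B m (v.1 + K, v.2))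
    (h2 : Gd P K A B m (v.1, v.2 + K)) (h3 : Gd P K A B m (v.1 + K, v.2 + K)) :
    0 ≤ 1 + kk P K A B m v + (1 - (1 - kk P K A B m v) / ((m : ℝ) - 1)) + (aT P K A B m v - 1 / 2) +
      (aR P K A B m v - 1 / 2) + (- aR P K A B m (v.1 + K, v.2) - 1 / 2) +
      (- aT P K A B m (v.1, v.2 + K) - 1 / 2) := by
  have hm := m1pos h
  have hm0 : (m : ℝ) - 1 ≠ 0 := hm.ne'
  have hK1 : K1 P K A B m v ↔ kap P K A B m v = 0 := by
    rw [kap_zero_iff h h0]
    unfold K1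
    constructor
    · rintro ⟨-, hp⟩
      exact hp
    · intro hp
      refine ⟨?_, hp⟩
      rintro ⟨b1, b2⟩
      unfold sh
      cases b1 <;> cases b2 <;> simp [h1, h2, h3]
      exact h0
  have hzero : kap P K A B m v = 0 ↔ rho P K A B m v = 0 := by
    rw [kap_zero_iff h h0, rho_zero_iff h h0]
  by_cases hk : kap P K A B m v = 0
  · have hr := hzero.1 hk
    have e1 := kap_step_zero h h0 h1 hk
    have e2 := rho_step_zero h h0 h2 hr
    have e3 : kk P K A B m v = 1 := by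
      unfold kk
      rw [if_pos (hK1.2 hk)]
    unfold aT aR
    rw [e3, hk, hr, e1, e2]
    push_cast
    have : ((m : ℝ) - 1) / (m - 1) = 1 := div_self hm0
    rw [this]
    norm_num
  · have hr : rho P K A B m v ≠ 0 := fun h => hk (hzero.2 h)
    have e1 := kap_step_pos h h0 h1 hk
    have e2 := rho_step_pos h h0 h2 hr
    have e3 : kk P K A B m v = 0 := by
      unfold kk
      rw [if_neg (fun h => hk (hK1.1 h))]
    unfold aT aR
    rw [e3, e1, e2]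
    push_cast
    apply le_of_eq
    field_simp
    ring

/-- the four types -/
private lemma nf_eq (v : Z2) : nf P K A B m v =
    (if Gd P K A B m v ∧ (bd P K A B m v).NE then 1 else 0) +
    (if Gd P K A B m (v.1 + K, v.2) ∧ (bd P K A B m (v.1 + K, v.2)).NW then 1 else 0) +
    (if Gd P K A B m (v.1, v.2 + K) ∧ (bd P K A B m (v.1, v.2 + K)).SE then 1 else 0) +
    (if Gd P K A B m (v.1 + K, v.2 + K) ∧ (bd P K A B m (v.1 + K, v.2 + K)).SW then 1 else 0) := by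
  unfold nf
  rw [card_filter, Fintype.sum_prod_type, Fintype.sum_bool, Fintype.sum_bool, Fintype.sum_bool]
  have s0 : sh K (false, false) v = v := by simp [sh]
  have s1 : sh K (true, false) v = (v.1 + K, v.2) := by simp [sh]
  have s2 : sh K (false, true) v = (v.1, v.2 + K) := by simp [sh]
  have s3 : sh K (true, true) v = (v.1 + K, v.2 + K) := by simp [sh]
  unfold cc
  rw [s0, s1, s2, s3]
  simp only [FC, bd]
  ring_nf

private lemma t0_le (two y0 y1 y2 y3 : Prop) (n : ℕ)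
    (hn : n = (if y0 then 1 else 0) + (if y1 then 1 else 0) + (if y2 then 1 else 0) + (if y3 then 1 else 0))
    (h01 : ¬ (y0 ∧ y1)) (h02 : ¬ (y0 ∧ y2)) (h13 : ¬ (y1 ∧ y3)) (h23 : ¬ (y2 ∧ y3)) :
    BD.t0 two y0 y1 y2 y3 ≤ if two then min 1 ((n : ℝ) / 2) else min 1 (n : ℝ) := by
  subst hn
  unfold BD.t0
  by_cases x0 : y0 <;> by_cases x1 : y1 <;> by_cases x2 : y2 <;> by_cases x3 : y3 <;> by_cases ht : two <;>
    simp only [x0, x1, x2, x3, ht, and_self, and_true, true_and, and_false, false_and, not_true, not_false_iff,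
      if_true, if_false, or_self, or_true, true_or, or_false, false_or] at * <;> norm_num

/-- the weight of the vertex -/
theorem tw_le (h : Prc P K A B m) (v : Z2) :
    BD.tw (m = 2) (Gd P K A B m v) (Gd P K A B m (v.1 + K, v.2)) (Gd P K A B m (v.1, v.2 + K))
      (Gd P K A B m (v.1 + K, v.2 + K)) (bd P K A B m v).NE (bd P K A B m (v.1 + K, v.2)).NW
      (bd P K A B m (v.1, v.2 + K)).SE (bd P K A B m (v.1 + K, v.2 + K)).SW (kk P K A B m v) ≤
    tt P K A B m v := by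
  have C := comp (P := P) (K := K) (A := A) (B := B) (m := m) v
  -- fullness at the edges
  have Fa := fun hz : Gd P K A B m v => facts h hz
  have Fb := fun hz : Gd P K A B m (v.1 + K, v.2) => facts h hz
  have Fc := fun hz : Gd P K A B m (v.1, v.2 + K) => facts h hz
  have Fe := fun hz : Gd P K A B m (v.1 + K, v.2 + K) => facts h hz
  have hnf := nf_eq (P := P) (K := K) (A := A) (B := B) (m := m) v
  have hkk : kk P K A B m v = if K1 P K A B m v then 1 else 0 := rfl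
  have hkn : (0 : ℝ) ≤ if K1 P K A B m v then 1 else 0 := by split_ifs <;> norm_num
  obtain ⟨a, ha⟩ : ∃ a, a = Gd P K A B m v := ⟨_, rfl⟩
  obtain ⟨b, hb⟩ : ∃ b, b = Gd P K A B m (v.1 + K, v.2) := ⟨_, rfl⟩
  obtain ⟨c, hc⟩ : ∃ c, c = Gd P K A B m (v.1, v.2 + K) := ⟨_, rfl⟩
  obtain ⟨e, he⟩ : ∃ e, e = Gd P K A B m (v.1 + K, v.2 + K) := ⟨_, rfl⟩
  obtain ⟨d0, hd0⟩ : ∃ d, d = bd P K A B m v := ⟨_, rfl⟩
  obtain ⟨d1, hd1⟩ : ∃ d, d = bd P K A B m (v.1 + K, v.2) := ⟨_, rfl⟩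
  obtain ⟨d2, hd2⟩ : ∃ d, d = bd P K A B m (v.1, v.2 + K) := ⟨_, rfl⟩
  obtain ⟨d3, hd3⟩ : ∃ d, d = bd P K A B m (v.1 + K, v.2 + K) := ⟨_, rfl⟩
  rw [← ha, ← hb, ← hc, ← he, ← hd0, ← hd1, ← hd2, ← hd3] at C hnf
  rw [← ha, ← hd0] at Fa
  rw [← hb, ← hd1] at Fb
  rw [← hc, ← hd2] at Fc
  rw [← he, ← hd3] at Fe
  rw [← ha, ← hb, ← hc, ← he, ← hd0, ← hd1, ← hd2, ← hd3]
  unfold tt
  rw [hkk]
  generalize nf P K A B m v = n at *
  -- at least two full corners if there is an edge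
  have two : (a ∧ b) ∨ (a ∧ c) ∨ (b ∧ e) ∨ (c ∧ e) → 2 ≤ n := by
    rintro (⟨x, y⟩ | ⟨x, y⟩ | ⟨x, y⟩ | ⟨x, y⟩)
    · have f1 : a ∧ d0.NE := ⟨x, (Fa x).f1 ((Fa x).eR (C.r0.2 y))⟩
      have f2 : b ∧ d1.NW := ⟨y, (Fb y).f3 ((Fb y).eL (C.l1.2 x))⟩
      rw [hnf, if_pos f1, if_pos f2]
      omega
    · have f1 : a ∧ d0.NE := ⟨x, (Fa x).f5 ((Fa x).eT (C.t0.2 y))⟩
      have f2 : c ∧ d2.SE := ⟨y, (Fc y).f7 ((Fc y).eB (C.b2.2 x))⟩
      rw [hnf, if_pos f1, if_pos f2]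
      omega
    · have f1 : b ∧ d1.NW := ⟨x, (Fb x).f6 ((Fb x).eT (C.t1.2 y))⟩
      have f2 : e ∧ d3.SW := ⟨y, (Fe y).f8 ((Fe y).eB (C.b3.2 x))⟩
      rw [hnf, if_pos f1, if_pos f2]
      omega
    · have f1 : c ∧ d2.SE := ⟨x, (Fc x).f2 ((Fc x).eR (C.r2.2 y))⟩
      have f2 : e ∧ d3.SW := ⟨y, (Fe y).f4 ((Fe y).eL (C.l3.2 x))⟩
      rw [hnf, if_pos f1, if_pos f2]
      omega
  have big : 2 ≤ n → (1 : ℝ) ≤ if m = 2 then min 1 ((n : ℝ) / 2) else min 1 (n : ℝ) := by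
    intro hn
    have : (2 : ℝ) ≤ n := by exact_mod_cast hn
    by_cases hm : m = 2
    · rw [if_pos hm]
      exact le_min le_rfl (by linarith)
    · rw [if_neg hm]
      exact le_min le_rfl (by linarith)
  unfold BD.tw
  by_cases g1 : a ∧ b ∧ c ∧ e
  · rw [if_pos g1]
    exact add_le_add (big (two (Or.inl ⟨g1.1, g1.2.1⟩))) le_rfl
  rw [if_neg g1]
  by_cases g2 : (a ∧ b) ∨ (a ∧ c) ∨ (b ∧ e) ∨ (c ∧ e)
  · rw [if_pos g2]
    linarith [big (two g2)]
  · rw [if_neg g2]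
    have key := t0_le (m = 2) (a ∧ d0.NE) (b ∧ d1.NW) (c ∧ d2.SE) (e ∧ d3.SW) n (by convert hnf)
      (fun x => g2 (Or.inl ⟨x.1.1, x.2.1⟩)) (fun x => g2 (Or.inr (Or.inl ⟨x.1.1, x.2.1⟩)))
      (fun x => g2 (Or.inr (Or.inr (Or.inl ⟨x.1.1, x.2.1⟩))))
      (fun x => g2 (Or.inr (Or.inr (Or.inr ⟨x.1.1, x.2.1⟩))))
    have key' : BD.t0 (m = 2) (a ∧ d0.NE) (b ∧ d1.NW) (c ∧ d2.SE) (e ∧ d3.SW) ≤
        if m = 2 then min 1 ((n : ℝ) / 2) else min 1 (n : ℝ) := by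
      by_cases hm : m = 2
      · rw [if_pos hm] at key ⊢
        exact key
      · rw [if_neg hm] at key ⊢
        exact key
    linarith

end Prc23s
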